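import Pool.Agent.Lib.MP_90787a_nt.T.Defs

set_option autoImplicit false

/-!
Local analysis of preperiodic points of `x ^ d + c` for a nonarchimedean absolute value.
-/

namespace Pool.Agent.MP90787a.T

open Finset

/-- The map `x ↦ x ^ d + c`. -/
def uf {K : Type} [Field K] (d : ℕ) (c : K) : K → K := fun y => y ^ d + c

section basic

variable {K : Type} [Field K] {d : ℕ} {c : K}

lemma isPre_iff {x : K} : IsPre d c x ↔ ∃ i j : ℕ, i < j ∧ (uf d c)^[i] x = (uf d c)^[j] x :=
  Iff.rfl

lemma IsPre.step {x : K} (h : IsPre d c x) : IsPre d c (uf d c x) := by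
  obtain ⟨i, j, hij, h⟩ := isPre_iff.1 h
  refine isPre_iff.2 ⟨i, j, hij, ?_⟩
  rw [← Function.iterate_succ_apply, ← Function.iterate_succ_apply,
    Function.iterate_succ_apply', Function.iterate_succ_apply', h]

lemma IsPre.iterate {x : K} (h : IsPre d c x) (n : ℕ) : IsPre d c ((uf d c)^[n] x) := by
  induction n with
  | zero => exact h
  | succ n ih => rw [Function.iterate_succ_apply']; exact ih.step

lemma isPre_of_periodic {x : K} (h : x ∈ Function.periodicPts (uf d c)) : IsPre d c x := by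
  obtain ⟨p, hp, h⟩ := h
  exact isPre_iff.2 ⟨0, p, hp, h.symm⟩

lemma uf_sub (x y : K) : uf d c x - uf d c y = x ^ d - y ^ d := by
  simp [uf]

end basic

section ultra

variable {K : Type} [Field K] (v : AbsoluteValue K ℝ) (hv : IsNonarchimedean v)

include hv

lemma av_add_le (x y : K) : v (x + y) ≤ max (v x) (v y) := hv x y

lemma av_sub_le (x y : K) : v (x - y) ≤ max (v x) (v y) := by
  rw [sub_eq_add_neg]
  refine (hv x (-y)).trans (le_of_eq ?_)
  rw [v.map_neg]

lemma v_add_of_lt {x y : K} (h : v y < v x) : v (x + y) = v x := by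
  refine le_antisymm ((hv x y).trans (le_of_eq (max_eq_left h.le))) ?_
  by_contra hc
  push Not at hc
  have h1 : v x ≤ max (v (x + y)) (v y) := by
    have := av_sub_le v hv (x + y) y
    rwa [add_sub_cancel_right] at this
  exact absurd h1 (not_le.2 (max_lt hc h))

lemma v_sub_of_lt {x y : K} (h : v y < v x) : v (x - y) = v x := by
  rw [sub_eq_add_neg]
  exact v_add_of_lt v hv (by rwa [v.map_neg])

lemma v_sub_of_lt' {x y : K} (h : v x < v y) : v (x - y) = v y := by
  rw [← v.map_neg, neg_sub]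
  exact v_sub_of_lt v hv h

lemma v_sum_le {ι : Type*} (s : Finset ι) (g : ι → K) {B : ℝ} (hB : 0 ≤ B)
    (h : ∀ i ∈ s, v (g i) ≤ B) : v (∑ i ∈ s, g i) ≤ B := by
  classical
  induction s using Finset.induction_on with
  | empty => simpa using hB
  | insert a s ha ih =>
    rw [Finset.sum_insert ha]
    refine (hv _ _).trans (max_le (h a (Finset.mem_insert_self a s)) (ih fun i hi => ?_))
    exact h i (Finset.mem_insert_of_mem hi)

lemma v_natCast_le (n : ℕ) : v (n : K) ≤ 1 := by
  induction n with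
  | zero => simp
  | succ n ih =>
    rw [Nat.cast_succ]
    exact (hv _ _).trans (max_le ih (by simp))

omit hv in
lemma v_root {d : ℕ} (hd : 0 < d) {ζ : K} (h : ζ ^ d = 1) : v ζ = 1 := by
  have h1 : v ζ ^ d = 1 := by rw [← map_pow, h, map_one]
  exact (pow_eq_one_iff_of_nonneg (v.nonneg ζ) hd.ne').1 h1

/-- Distinct `d`-th roots of unity are at distance one if `d` is a unit. -/
lemma v_root_sub {d : ℕ} (hd : 0 < d) (hvd : v (d : K) = 1) {ζ ζ' : K} (h : ζ ^ d = 1)
    (h' : ζ' ^ d = 1) (hne : ζ ≠ ζ') : v (ζ - ζ') = 1 := by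
  have hz' : ζ' ≠ 0 := by
    rintro rfl
    rw [zero_pow hd.ne'] at h'
    exact zero_ne_one h'
  have key : ∀ ξ : K, ξ ^ d = 1 → ξ ≠ 1 → v (ξ - 1) = 1 := by
    intro ξ hξ hξ1
    have hle : v (ξ - 1) ≤ 1 := by
      refine (av_sub_le v hv ξ 1).trans (le_of_eq ?_)
      rw [v_root v hd hξ, map_one, max_self]
    by_contra hlt'
    have hlt : v (ξ - 1) < 1 := lt_of_le_of_ne hle hlt'
    have hsum : ∑ i ∈ range d, ξ ^ i = 0 := by
      have := mul_geom_sum ξ d
      rw [hξ, sub_self] at this
      exact (mul_eq_zero.1 this).resolve_left (sub_ne_zero.2 hξ1)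
    have h1 : (d : K) = -∑ i ∈ range d, (ξ ^ i - 1) := by
      rw [Finset.sum_sub_distrib, hsum]
      simp
    have h2 : v (∑ i ∈ range d, (ξ ^ i - 1)) ≤ v (ξ - 1) := by
      refine v_sum_le v hv _ _ (v.nonneg _) fun i _ => ?_
      rw [← mul_geom_sum ξ i, map_mul]
      refine mul_le_of_le_one_right (v.nonneg _) ?_
      refine v_sum_le v hv _ _ zero_le_one fun j _ => ?_
      rw [map_pow, v_root v hd hξ, one_pow]
    rw [h1, v.map_neg] at hvd
    rw [hvd] at h2
    exact absurd h2 (not_le.2 hlt)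
  have h2 : ζ - ζ' = ζ' * (ζ / ζ' - 1) := by
    field_simp
  rw [h2, map_mul, v_root v hd h', one_mul]
  refine key _ ?_ ?_
  · rw [div_pow, h, h', div_one]
  · intro hc
    rw [div_eq_one_iff_eq hz'] at hc
    exact hne hc

end ultra

section local_

variable {K : Type} [Field K] (v : AbsoluteValue K ℝ) (hv : IsNonarchimedean v)
  {d : ℕ} {c : K}

include hv

lemma grow {x : K} (hd : 2 ≤ d) (h : max 1 (v c) < v x ^ d) :
    v (uf d c x) = v x ^ d ∧ v x < v (uf d c x) ∧ max 1 (v c) < v (uf d c x) ^ d := by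
  have h1 : v (uf d c x) = v x ^ d := by
    have h2 : v c < v (x ^ d) := by
      rw [map_pow]
      exact (le_max_right _ _).trans_lt h
    rw [uf, v_add_of_lt v hv h2, map_pow]
  have hx1 : 1 < v x := by
    by_contra hc
    push Not at hc
    have := pow_le_one₀ (v.nonneg x) hc (n := d)
    exact absurd ((le_max_left _ _).trans_lt h) (not_lt.2 this)
  have h3 : v x < v x ^ d := by
    calc v x = v x ^ 1 := (pow_one _).symm
      _ < v x ^ d := pow_lt_pow_right₀ hx1 (by omega)
  refine ⟨h1, by rw [h1]; exact h3, ?_⟩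
  rw [h1]
  refine h.trans ?_
  have h4 : 1 < v x ^ d := (le_max_left _ _).trans_lt h
  calc v x ^ d = (v x ^ d) ^ 1 := (pow_one _).symm
    _ < (v x ^ d) ^ d := pow_lt_pow_right₀ h4 (by omega)

lemma pow_le_of_pre {x : K} (hd : 2 ≤ d) (hx : IsPre d c x) : v x ^ d ≤ max 1 (v c) := by
  by_contra hc
  push Not at hc
  have h1 : ∀ n, max 1 (v c) < v ((uf d c)^[n] x) ^ d := by
    intro n
    induction n with
    | zero => exact hc
    | succ n ih =>
      rw [Function.iterate_succ_apply']
      exact (grow v hv hd ih).2.2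
  have h2 : StrictMono fun n => v ((uf d c)^[n] x) := by
    refine strictMono_nat_of_lt_succ fun n => ?_
    simp only [Function.iterate_succ_apply']
    exact (grow v hv hd (h1 n)).2.1
  obtain ⟨i, j, hij, h⟩ := isPre_iff.1 hx
  have h3 := h2 hij
  simp only [h] at h3
  exact lt_irrefl _ h3

lemma pow_eq_of_bad {x : K} (hd : 2 ≤ d) (hc : 1 < v c) (hx : IsPre d c x) : v x ^ d = v c := by
  have h1 := pow_le_of_pre v hv hd hx
  rw [max_eq_right hc.le] at h1
  by_contra hne
  have h2 : v x ^ d < v c := lt_of_le_of_ne h1 hne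
  have h3 : v (uf d c x) = v c := by
    rw [uf, add_comm]
    exact v_add_of_lt v hv (by rwa [map_pow])
  have h4 := pow_le_of_pre v hv hd hx.step
  rw [max_eq_right hc.le, h3] at h4
  have h5 : v c < v c ^ d := by
    calc v c = v c ^ 1 := (pow_one _).symm
      _ < v c ^ d := pow_lt_pow_right₀ hc (by omega)
  exact absurd h4 (not_le.2 h5)

lemma le_one_of_good {x : K} (hd : 2 ≤ d) (hc : v c ≤ 1) (hx : IsPre d c x) : v x ≤ 1 := by
  have h1 := pow_le_of_pre v hv hd hx
  rw [max_eq_left hc] at h1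
  exact (pow_le_one_iff_of_nonneg (v.nonneg x) (by omega)).1 h1

/-! ### Bad places -/

omit hv in
lemma v_prod {ω : K} (hω : IsPrimitiveRoot ω d) (hd : 0 < d) (x y : K) :
    v (uf d c x - uf d c y) = ∏ ζ ∈ Polynomial.nthRootsFinset d (1 : K), v (x - ζ * y) := by
  rw [uf_sub, hω.pow_sub_pow_eq_prod_sub_mul x y hd, map_prod]

omit hv in
lemma mem_roots_iff (hd : 0 < d) {ζ : K} :
    ζ ∈ Polynomial.nthRootsFinset d (1 : K) ↔ ζ ^ d = 1 := Polynomial.mem_nthRootsFinset hd 1

lemma bad_step {ω : K} (hω : IsPrimitiveRoot ω d) (hd : 2 ≤ d) (hvd : v (d : K) = 1)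
    {β : ℝ} {x y ζ : K} (_hx : v x = β) (hy : v y = β) (hζ : ζ ^ d = 1)
    (hlt : v (x - ζ * y) < β) :
    v (uf d c x - uf d c y) = v (x - ζ * y) * β ^ (d - 1) := by
  classical
  have hd0 : 0 < d := by omega
  rw [v_prod v hω hd0, ← Finset.mul_prod_erase _ _ ((mem_roots_iff hd0).2 hζ)]
  congr 1
  have h1 : ∀ ξ ∈ (Polynomial.nthRootsFinset d (1 : K)).erase ζ, v (x - ξ * y) = β := by
    intro ξ hξ
    obtain ⟨hne, hξ'⟩ := Finset.mem_erase.1 hξ
    have hξ1 := (mem_roots_iff hd0).1 hξ'
    have h2 : x - ξ * y = (ζ - ξ) * y + (x - ζ * y) := by ring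
    have h3 : v ((ζ - ξ) * y) = β := by
      rw [map_mul, v_root_sub v hv hd0 hvd hζ hξ1 (Ne.symm hne), one_mul, hy]
    rw [h2, v_add_of_lt v hv (by rw [h3]; exact hlt), h3]
  rw [Finset.prod_congr rfl h1, Finset.prod_const, Finset.card_erase_of_mem
    ((mem_roots_iff hd0).2 hζ), hω.card_nthRootsFinset]

lemma bad_one {ω : K} (hω : IsPrimitiveRoot ω d) (hd : 2 ≤ d) (hvd : v (d : K) = 1)
    (hc : 1 < v c) {x y : K} (hx : IsPre d c x) (hy : IsPre d c y) (hne : x ≠ y) :
    ∃ k : ℕ, v (x - y) * v x ^ ((d - 1) * k) = v x := by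
  have hd0 : 0 < d := by omega
  set β := v x with hβ
  have hβd : β ^ d = v c := pow_eq_of_bad v hv hd hc hx
  have hβ0 : 0 ≤ β := v.nonneg x
  have hβ1 : 1 < β := by
    by_contra h
    push Not at h
    have := pow_le_one₀ hβ0 h (n := d)
    rw [hβd] at this
    exact absurd hc (not_lt.2 this)
  have hval : ∀ z : K, IsPre d c z → v z = β := by
    intro z hz
    have h1 := pow_eq_of_bad v hv hd hc hz
    rw [← hβd] at h1
    exact (pow_left_inj₀ (v.nonneg z) hβ0 (by omega)).1 h1
  set D : ℕ → ℝ := fun n => v ((uf d c)^[n] x - (uf d c)^[n] y) with hD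
  have hDle : ∀ n, D n ≤ β := by
    intro n
    refine (av_sub_le v hv _ _).trans (le_of_eq ?_)
    rw [hval _ (hx.iterate n), hval _ (hy.iterate n), max_self]
  have hstep : ∀ n, D n < β → D (n + 1) = D n * β ^ (d - 1) := by
    intro n hn
    have := bad_step v hv (c := c) hω hd hvd (hval _ (hx.iterate n)) (hval _ (hy.iterate n))
      (one_pow d) (by rw [one_mul]; exact hn)
    rw [one_mul] at this
    simp only [hD, Function.iterate_succ_apply']
    exact this
  have hD0 : 0 < D 0 := v.pos (sub_ne_zero.2 hne)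
  have hex : ∃ n, ¬ D n < β := by
    by_contra hcon
    push Not at hcon
    have h1 : ∀ n, D n = D 0 * (β ^ (d - 1)) ^ n := by
      intro n
      induction n with
      | zero => simp
      | succ n ih => rw [hstep n (hcon n), ih, pow_succ]; ring
    have hb : 1 < β ^ (d - 1) := one_lt_pow₀ hβ1 (by omega)
    obtain ⟨n, hn⟩ := pow_unbounded_of_one_lt (β / D 0) hb
    have h2 := hcon n
    rw [h1 n] at h2
    rw [div_lt_iff₀ hD0] at hn
    linarith
  classical
  set m := Nat.find hex with hm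
  have hm1 : ¬ D m < β := Nat.find_spec hex
  have hm2 : ∀ i < m, D i < β := fun i hi => not_not.1 (Nat.find_min hex hi)
  have hpow : ∀ i ≤ m, D i = D 0 * β ^ ((d - 1) * i) := by
    intro i
    induction i with
    | zero => simp
    | succ i ih =>
      intro hi
      rw [hstep i (hm2 i (by omega)), ih (by omega), mul_assoc, ← pow_add]
      congr 2
  refine ⟨m, ?_⟩
  have h1 := hpow m le_rfl
  have h2 : D m = β := le_antisymm (hDle m) (not_lt.1 hm1)
  rw [h2] at h1
  exact h1.symm

/-- The `(d - 1)`-th power structure at bad places. -/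
lemma bad_struct {ω : K} (hω : IsPrimitiveRoot ω d) (hd : 2 ≤ d) (hvd : v (d : K) = 1)
    (hc : 1 < v c) {x y : K} (hx : IsPre d c x) (hy : IsPre d c y) {ζ : K} (hζ : ζ ^ d = 1)
    (hne : x - ζ * y ≠ 0) :
    ∃ k : ℕ, v (x - ζ * y) * v x ^ ((d - 1) * k) = v x := by
  have hd0 : 0 < d := by omega
  have hβd : v x ^ d = v c := pow_eq_of_bad v hv hd hc hx
  have hval : ∀ z : K, IsPre d c z → v z = v x := by
    intro z hz
    have h1 := pow_eq_of_bad v hv hd hc hz
    rw [← hβd] at h1
    exact (pow_left_inj₀ (v.nonneg z) (v.nonneg x) (by omega)).1 h1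
  have hle : v (x - ζ * y) ≤ v x := by
    refine (av_sub_le v hv _ _).trans (le_of_eq ?_)
    rw [map_mul, v_root v hd0 hζ, one_mul, hval y hy, max_self]
  rcases eq_or_lt_of_le hle with h | hlt
  · exact ⟨0, by simpa using h⟩
  · by_cases hf : uf d c x = uf d c y
    · exfalso
      have h1 := bad_step v hv (c := c) hω hd hvd rfl (hval y hy) hζ hlt
      rw [hf, sub_self, map_zero] at h1
      have h2 : v (x - ζ * y) ≠ 0 := (v.pos hne).ne'
      have h3 : v x ≠ 0 := by
        intro h0
        rw [h0] at hlt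
        exact absurd hlt (not_lt.2 (v.nonneg _))
      exact mul_ne_zero h2 (pow_ne_zero _ h3) h1.symm
    · obtain ⟨k, hk⟩ := bad_one v hv hω hd hvd hc hx.step hy.step hf
      rw [hval _ hx.step] at hk
      refine ⟨k + 1, ?_⟩
      rw [bad_step v hv (c := c) hω hd hvd rfl (hval y hy) hζ hlt] at hk
      have h3 : (d - 1) * (k + 1) = (d - 1) + (d - 1) * k := by ring
      rw [h3, pow_add, ← mul_assoc]
      exact hk

/-! ### Good places -/

lemma good_factor_le (hd : 0 < d) {x y ζ : K} (hx : v x ≤ 1) (hy : v y ≤ 1) (hζ : ζ ^ d = 1) :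
    v (x - ζ * y) ≤ 1 := by
  refine (av_sub_le v hv _ _).trans (max_le hx ?_)
  rw [map_mul, v_root v hd hζ, one_mul]
  exact hy

lemma good_sub_le {ω : K} (hω : IsPrimitiveRoot ω d) (hd : 0 < d) {x y : K} (hx : v x ≤ 1)
    (hy : v y ≤ 1) : v (uf d c x - uf d c y) ≤ v (x - y) := by
  classical
  rw [v_prod v hω hd, ← Finset.mul_prod_erase _ _ ((mem_roots_iff hd).2 (one_pow d)), one_mul]
  refine mul_le_of_le_one_right (v.nonneg _) ?_
  refine Finset.prod_le_one (fun ζ _ => v.nonneg _) fun ζ hζ => ?_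
  exact good_factor_le v hv hd hx hy ((mem_roots_iff hd).1 (Finset.mem_erase.1 hζ).2)

omit hv in
lemma prod_eq_one_imp {ι : Type*} [DecidableEq ι] {s : Finset ι} {g : ι → ℝ}
    (h0 : ∀ i ∈ s, 0 ≤ g i) (h1 : ∀ i ∈ s, g i ≤ 1) (h : ∏ i ∈ s, g i = 1) :
    ∀ i ∈ s, g i = 1 := by
  intro i hi
  refine le_antisymm (h1 i hi) ?_
  rw [← Finset.mul_prod_erase _ _ hi] at h
  rw [← h]
  refine mul_le_of_le_one_right (h0 i hi) ?_
  exact Finset.prod_le_one (fun j hj => h0 j (Finset.mem_of_mem_erase hj))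
    fun j hj => h1 j (Finset.mem_of_mem_erase hj)

/-- If some iterates of `x`, `y` are at distance one, then all `x - ζ y` are units. -/
lemma good_unit {ω : K} (hω : IsPrimitiveRoot ω d) (hd : 2 ≤ d) (hc : v c ≤ 1) {x y : K}
    (hx : IsPre d c x) (hy : IsPre d c y) {m : ℕ} (hm : 1 ≤ m)
    (h : v ((uf d c)^[m] x - (uf d c)^[m] y) = 1) {ζ : K} (hζ : ζ ^ d = 1) :
    v (x - ζ * y) = 1 := by
  classical
  have hd0 : 0 < d := by omega
  have hle : ∀ z, IsPre d c z → v z ≤ 1 := fun z hz => le_one_of_good v hv hd hc hz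
  have key : ∀ n, v ((uf d c)^[n] (uf d c x) - (uf d c)^[n] (uf d c y)) = 1 →
      v (uf d c x - uf d c y) = 1 := by
    intro n
    induction n with
    | zero => exact fun h => h
    | succ n ih =>
      intro h
      apply ih
      rw [Function.iterate_succ_apply', Function.iterate_succ_apply'] at h
      refine le_antisymm ?_ ?_
      · refine (av_sub_le v hv _ _).trans (max_le ?_ ?_)
        · exact hle _ (hx.step.iterate n)
        · exact hle _ (hy.step.iterate n)
      · rw [← h]
        exact good_sub_le v hv hω hd0 (hle _ (hx.step.iterate n)) (hle _ (hy.step.iterate n))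
  obtain ⟨n, rfl⟩ : ∃ n, m = n + 1 := ⟨m - 1, by omega⟩
  rw [Function.iterate_succ_apply, Function.iterate_succ_apply] at h
  have h1 := key n h
  rw [v_prod v hω hd0] at h1
  exact prod_eq_one_imp (fun ξ _ => v.nonneg _)
    (fun ξ hξ => good_factor_le v hv hd0 (hle x hx) (hle y hy) ((mem_roots_iff hd0).1 hξ)) h1 ζ
    ((mem_roots_iff hd0).2 hζ)

/-- For distinct periodic points `x`, `y` all `x - ζ y`, `ζ ≠ 1`, are units. -/
lemma good_per {ω : K} (hω : IsPrimitiveRoot ω d) (hd : 2 ≤ d) (hc : v c ≤ 1) {x y : K}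
    (hx : x ∈ Function.periodicPts (uf d c)) (hy : y ∈ Function.periodicPts (uf d c))
    (hne : x ≠ y) {ζ : K} (hζ : ζ ^ d = 1) (hζ1 : ζ ≠ 1) :
    v (x - ζ * y) = 1 := by
  classical
  have hd0 : 0 < d := by omega
  have hx' := isPre_of_periodic hx
  have hy' := isPre_of_periodic hy
  have hle : ∀ z, IsPre d c z → v z ≤ 1 := fun z hz => le_one_of_good v hv hd hc hz
  obtain ⟨p, hp, hpx⟩ := hx
  obtain ⟨q, hq, hqy⟩ := hy
  set D : ℕ → ℝ := fun n => v ((uf d c)^[n] x - (uf d c)^[n] y) with hD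
  have hanti : Antitone D := by
    refine antitone_nat_of_succ_le fun n => ?_
    simp only [hD, Function.iterate_succ_apply']
    exact good_sub_le v hv hω hd0 (hle _ (hx'.iterate n)) (hle _ (hy'.iterate n))
  have hpq : D (p * q) = D 0 := by
    simp only [hD]
    have h1 : (uf d c)^[p * q] x = x := (hpx.mul_const q)
    have h2 : (uf d c)^[p * q] y = y := (hqy.const_mul p)
    rw [h1, h2]
    rfl
  have h1 : D 1 = D 0 := by
    refine le_antisymm (hanti (by omega)) ?_
    rw [← hpq]
    exact hanti (Nat.mul_pos hp hq)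
  have h2 : v (uf d c x - uf d c y) = v (x - y) := h1
  rw [v_prod v hω hd0, ← Finset.mul_prod_erase _ _ ((mem_roots_iff hd0).2 (one_pow d)),
    one_mul] at h2
  have h3 : v (x - y) ≠ 0 := (v.pos (sub_ne_zero.2 hne)).ne'
  have h4 : ∏ ξ ∈ (Polynomial.nthRootsFinset d (1 : K)).erase 1, v (x - ξ * y) = 1 :=
    mul_left_cancel₀ h3 (by rw [h2, mul_one])
  refine prod_eq_one_imp (fun ξ _ => v.nonneg _) (fun ξ hξ => ?_) h4 ζ ?_
  · exact good_factor_le v hv hd0 (hle x hx') (hle y hy')
      ((mem_roots_iff hd0).1 (Finset.mem_erase.1 hξ).2)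
  · exact Finset.mem_erase.2 ⟨hζ1, (mem_roots_iff hd0).2 hζ⟩

/-! ### Controlled pairs -/

omit hv in
/-- The local property of controlled pairs. -/
def Loc (v : AbsoluteValue K ℝ) (d : ℕ) (x y : K) : Prop :=
  (∀ ζ ζ' : K, ζ ^ d = 1 → ζ' ^ d = 1 → ζ ≠ 1 → ζ' ≠ 1 →
    ∃ b : K, b ≠ 0 ∧ v (x - ζ * y) = v (x - ζ' * y) * v b ^ (d - 1)) ∧
  (v x < 1 → v (x / y) ^ 2 ≤ v x)

lemma loc_bad {ω : K} (hω : IsPrimitiveRoot ω d) (hd : 2 ≤ d) (hvd : v (d : K) = 1)
    (hc : 1 < v c) {x y : K} (hx : IsPre d c x) (hy : IsPre d c y)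
    (hne : uf d c x ≠ uf d c y) : Loc v d x y := by
  have hd0 : 0 < d := by omega
  have hβd : v x ^ d = v c := pow_eq_of_bad v hv hd hc hx
  have hβ1 : 1 < v x := by
    by_contra h
    push Not at h
    have := pow_le_one₀ (v.nonneg x) h (n := d)
    rw [hβd] at this
    exact absurd hc (not_lt.2 this)
  have hx0 : x ≠ 0 := by
    rintro rfl
    rw [map_zero] at hβ1
    exact absurd hβ1 (by norm_num)
  have hnz : ∀ ζ : K, ζ ^ d = 1 → x - ζ * y ≠ 0 := by
    intro ζ hζ h0
    apply hne
    rw [sub_eq_zero] at h0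
    simp only [uf, h0, mul_pow, hζ, one_mul]
  refine ⟨fun ζ ζ' hζ hζ' _ _ => ?_, fun h => absurd h (not_lt.2 hβ1.le)⟩
  obtain ⟨k, hk⟩ := bad_struct v hv hω hd hvd hc hx hy hζ (hnz ζ hζ)
  obtain ⟨l, hl⟩ := bad_struct v hv hω hd hvd hc hx hy hζ' (hnz ζ' hζ')
  refine ⟨x ^ l / x ^ k, div_ne_zero (pow_ne_zero _ hx0) (pow_ne_zero _ hx0), ?_⟩
  have hv0 : v x ≠ 0 := (v.pos hx0).ne'
  rw [map_div₀, map_pow, map_pow, div_pow, ← pow_mul, ← pow_mul, mul_comm l, mul_comm k,
    mul_div_assoc', eq_div_iff (pow_ne_zero _ hv0), hk, hl]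

omit hv in
lemma loc_of_unit {x y : K} (h : ∀ ζ : K, ζ ^ d = 1 → ζ ≠ 1 → v (x - ζ * y) = 1)
    (h2 : v x < 1 → v y = 1) : Loc v d x y := by
  refine ⟨fun ζ ζ' hζ hζ' h1 h1' => ⟨1, one_ne_zero, ?_⟩, fun hx => ?_⟩
  · rw [h ζ hζ h1, h ζ' hζ' h1']
    simp
  · rw [map_div₀, h2 hx, div_one]
    calc v x ^ 2 ≤ v x ^ 1 := pow_le_pow_of_le_one (v.nonneg x) hx.le (by norm_num)
      _ = v x := pow_one _

omit hv in
lemma periodic_inj {x y : K} (hx : x ∈ Function.periodicPts (uf d c))
    (hy : y ∈ Function.periodicPts (uf d c)) (h : uf d c x = uf d c y) : x = y := by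
  obtain ⟨p, hp, hpx⟩ := hx
  obtain ⟨q, hq, hqy⟩ := hy
  have h1 : (uf d c)^[p * q] x = x := (hpx.mul_const q)
  have h2 : (uf d c)^[p * q] y = y := (hqy.const_mul p)
  obtain ⟨n, hn⟩ : ∃ n, p * q = n + 1 := ⟨p * q - 1, by have := Nat.mul_pos hp hq; omega⟩
  rw [hn, Function.iterate_succ_apply] at h1 h2
  rw [← h1, ← h2, h]

/-- Pairs of distinct periodic points are controlled. -/
theorem loc_per {ω : K} (hω : IsPrimitiveRoot ω d) (hd : 3 ≤ d) (hvd : v (d : K) = 1)
    {x y : K} (hx : x ∈ Function.periodicPts (uf d c))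
    (hy : y ∈ Function.periodicPts (uf d c)) (hne : x ≠ y) : Loc v d x y := by
  have hx' := isPre_of_periodic hx
  have hy' := isPre_of_periodic hy
  rcases lt_or_ge 1 (v c) with hc | hc
  · exact loc_bad v hv hω (by omega) hvd hc hx' hy' (fun h => hne (periodic_inj hx hy h))
  · refine loc_of_unit v (fun ζ hζ hζ1 => good_per v hv hω (by omega) hc hx hy hne hζ hζ1) ?_
    intro hx1
    have hω1 : ω ≠ 1 := hω.ne_one (by omega)
    have h1 := good_per v hv hω (by omega) hc hx hy hne hω.pow_eq_one hω1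
    have hyle := le_one_of_good v hv (by omega) hc hy'
    refine le_antisymm hyle ?_
    rw [← h1]
    by_contra hlt
    push Not at hlt
    have h2 : v (x - ω * y) ≤ max (v x) (v (ω * y)) := av_sub_le v hv _ _
    rw [map_mul, v_root v (by omega) hω.pow_eq_one, one_mul] at h2
    rcases le_max_iff.1 h2 with h3 | h3
    · rw [h1] at h3
      exact absurd hx1 (not_lt.2 h3)
    · exact absurd hlt (not_lt.2 h3)

/-- Tail pairs with different shadows are controlled. -/
theorem loc_tail {ω : K} (hω : IsPrimitiveRoot ω d) (hd : 3 ≤ d) (hvd : v (d : K) = 1)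
    {x y : K} (hx : IsPre d c x) (hy : IsPre d c y) (hne : uf d c x ≠ uf d c y)
    {m : ℕ} (hm : 1 ≤ m) {w w' ζ : K} (hw : w ∈ Function.periodicPts (uf d c))
    (hw' : w' ∈ Function.periodicPts (uf d c)) (hww : w ≠ w') (hζ : ζ ^ d = 1) (hζ1 : ζ ≠ 1)
    (h1 : (uf d c)^[m] x = w) (h2 : (uf d c)^[m] y = ζ * w') : Loc v d x y := by
  rcases lt_or_ge 1 (v c) with hc | hc
  · exact loc_bad v hv hω (by omega) hvd hc hx hy hne
  · have h3 : v ((uf d c)^[m] x - (uf d c)^[m] y) = 1 := by
      rw [h1, h2]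
      exact good_per v hv hω (by omega) hc hw hw' hww hζ hζ1
    refine loc_of_unit v (fun ξ hξ _ => good_unit v hv hω (by omega) hc hx hy hm h3 hξ) ?_
    intro hx1
    have h4 := good_unit v hv hω (by omega) hc hx hy hm h3 (one_pow d)
    rw [one_mul] at h4
    have hyle := le_one_of_good v hv (by omega) hc hy
    refine le_antisymm hyle ?_
    by_contra hlt
    push Not at hlt
    have h5 : v (x - y) ≤ max (v x) (v y) := av_sub_le v hv _ _
    rw [h4] at h5
    exact absurd (max_lt hx1 hlt) (not_lt.2 h5)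

/-- Tail pairs above a fixed point are controlled. -/
theorem loc_fix {ω : K} (hω : IsPrimitiveRoot ω d) (hd : 3 ≤ d) (hvd : v (d : K) = 1)
    {x y : K} (hy : IsPre d c y) (hne : uf d c x ≠ uf d c y)
    {m k : ℕ} (hm : 1 ≤ m) (hk : 1 ≤ k) {w ζ : K} (hw : uf d c w = w) (hw0 : w ≠ 0)
    (hζ : ζ ^ d = 1) (hζ1 : ζ ≠ 1)
    (h1 : (uf d c)^[m] x = ζ * w) (h2 : (uf d c)^[k] y = x) : Loc v d x y := by
  have hx : IsPre d c x := by
    rw [← h2]
    exact hy.iterate k
  rcases lt_or_ge 1 (v c) with hc | hc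
  · exact loc_bad v hv hω (by omega) hvd hc hx hy hne
  · have hwle : v w ≤ 1 := by
      have hwp : IsPre d c w := isPre_iff.2 ⟨0, 1, Nat.zero_lt_one, by simpa using hw.symm⟩
      exact le_one_of_good v hv (by omega) hc hwp
    have hd0 : 0 < d := by omega
    have hfζ : uf d c (ζ * w) = w := by
      have : uf d c (ζ * w) = uf d c w := by simp only [uf, mul_pow, hζ, one_mul]
      rw [this, hw]
    have hit : ∀ n, (uf d c)^[n] w = w := fun n => Function.iterate_fixed hw n
    rcases eq_or_lt_of_le hwle with hw1 | hw1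
    · have h3 : (uf d c)^[k + m] y = ζ * w := by
        rw [add_comm, Function.iterate_add_apply, h2, h1]
      have h4 : (uf d c)^[k + m] x = w := by
        obtain ⟨k', rfl⟩ : ∃ k', k = k' + 1 := ⟨k - 1, by omega⟩
        rw [Function.iterate_add_apply, h1, Function.iterate_succ_apply, hfζ, hit]
      have h5 : v ((uf d c)^[k + m] x - (uf d c)^[k + m] y) = 1 := by
        rw [h3, h4]
        have : w - ζ * w = (1 - ζ) * w := by ring
        rw [this, map_mul, hw1, mul_one]
        exact v_root_sub v hv hd0 hvd (one_pow d) hζ (Ne.symm hζ1)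
      have hkm : 1 ≤ k + m := by omega
      refine loc_of_unit v
        (fun ξ hξ _ => good_unit v hv hω (by omega) hc hx hy hkm h5 hξ) ?_
      intro hx1
      have h4 := good_unit v hv hω (by omega) hc hx hy hkm h5 (one_pow d)
      rw [one_mul] at h4
      have hyle := le_one_of_good v hv (by omega) hc hy
      refine le_antisymm hyle ?_
      by_contra hlt
      push Not at hlt
      have h5 : v (x - y) ≤ max (v x) (v y) := av_sub_le v hv _ _
      rw [h4] at h5
      exact absurd (max_lt hx1 hlt) (not_lt.2 h5)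
    · have hvw0 : 0 < v w := v.pos hw0
      have hcw : c = w - w ^ d := by
        rw [eq_sub_iff_add_eq, add_comm]
        exact hw
      have hwd : v (w ^ d) < v w := by
        rw [map_pow]
        calc v w ^ d < v w ^ 1 := pow_lt_pow_right_of_lt_one₀ hvw0 hw1 (by omega)
          _ = v w := pow_one _
      have hvc : v c = v w := by
        rw [hcw]
        exact v_sub_of_lt v hv hwd
      -- the level two points
      have hz2 : ∀ z : K, uf d c z = ζ * w → v z ^ d = v w := by
        intro z hz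
        have h3 : z ^ d = (ζ - 1) * w + w ^ d := by
          have : z ^ d = ζ * w - c := by
            rw [eq_sub_iff_add_eq]
            exact hz
          rw [this, hcw]
          ring
        have h4 : v ((ζ - 1) * w) = v w := by
          rw [map_mul, v_root_sub v hv hd0 hvd hζ (one_pow d) hζ1, one_mul]
        rw [← map_pow, h3, v_add_of_lt v hv (by rw [h4]; exact hwd), h4]
      -- higher levels
      have hup : ∀ z : K, v w < v (uf d c z) → v z ^ d = v (uf d c z) := by
        intro z hz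
        have h3 : z ^ d = uf d c z - c := by simp [uf]
        rw [← map_pow, h3]
        exact v_sub_of_lt v hv (by rw [hvc]; exact hz)
      have hroot : ∀ z : K, v z < 1 → v z ^ d < v z ∨ v z = 0 := by
        intro z hz
        rcases eq_or_lt_of_le (v.nonneg z) with h0 | h0
        · exact Or.inr h0.symm
        · left
          calc v z ^ d < v z ^ 1 := pow_lt_pow_right_of_lt_one₀ h0 hz (by omega)
            _ = v z := pow_one _
      have hlt1 : ∀ z : K, v z ^ d < 1 → v z < 1 := by
        intro z hz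
        by_contra h
        push Not at h
        exact absurd hz (not_lt.2 (one_le_pow₀ h))
      -- `v w < v z < 1` for all points of level at least two
      have hlev : ∀ n : ℕ, ∀ z : K, (uf d c)^[n + 1] z = ζ * w → v w < v z ∧ v z < 1 := by
        intro n
        induction n with
        | zero =>
          intro z hz
          have h3 := hz2 z hz
          have h4 : v z < 1 := hlt1 z (by rw [h3]; exact hw1)
          rcases hroot z h4 with h5 | h5
          · exact ⟨by rw [← h3]; exact h5, h4⟩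
          · rw [h5, zero_pow (by omega)] at h3
            exact absurd h3 hvw0.ne
        | succ n ih =>
          intro z hz
          rw [Function.iterate_succ_apply] at hz
          obtain ⟨h3, h4⟩ := ih _ hz
          have h5 := hup z h3
          have h6 : v z < 1 := hlt1 z (by rw [h5]; exact h4)
          rcases hroot z h6 with h7 | h7
          · exact ⟨h3.trans (by rw [← h5]; exact h7), h6⟩
          · rw [h7, zero_pow (by omega)] at h5
            rw [← h5] at h3
            exact absurd h3 (not_lt.2 hvw0.le)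
      obtain ⟨m', rfl⟩ : ∃ m', m = m' + 1 := ⟨m - 1, by omega⟩
      have hxl := hlev m' x h1
      -- compare `y` with `x`
      have hcmp : ∀ n : ℕ, ∀ z : K, (uf d c)^[n + 1] z = x → v x ≤ v z ^ d ∧ v x < v z := by
        intro n
        induction n with
        | zero =>
          intro z hz
          have hz' : uf d c z = x := hz
          have h3 := hup z (by rw [hz']; exact hxl.1)
          rw [hz'] at h3
          have h6 : v z < 1 := hlt1 z (by rw [h3]; exact hxl.2)
          rcases hroot z h6 with h7 | h7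
          · exact ⟨h3.symm.le, by rw [← h3]; exact h7⟩
          · rw [h7, zero_pow (by omega)] at h3
            rw [← h3] at hxl
            exact absurd hxl.1 (not_lt.2 hvw0.le)
        | succ n ih =>
          intro z hz
          rw [Function.iterate_succ_apply] at hz
          obtain ⟨h3, h4⟩ := ih _ hz
          have h5 := hup z (hxl.1.trans h4)
          have hz1 : (uf d c)^[(n + 1 + m') + 1] (uf d c z) = ζ * w := by
            rw [show n + 1 + m' + 1 = (m' + 1) + (n + 1) by ring, Function.iterate_add_apply,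
              hz, h1]
          have h6' := (hlev _ _ hz1).2
          have h6 : v z < 1 := hlt1 z (by rw [h5]; exact h6')
          rcases hroot z h6 with h7 | h7
          · exact ⟨by rw [h5]; exact h4.le, h4.trans (by rw [← h5]; exact h7)⟩
          · rw [h7, zero_pow (by omega)] at h5
            rw [← h5] at h4
            exact absurd h4 (not_lt.2 (v.nonneg x))
      obtain ⟨k', rfl⟩ : ∃ k', k = k' + 1 := ⟨k - 1, by omega⟩
      obtain ⟨h3, h4⟩ := hcmp k' y h2
      have hxy : ∀ ξ : K, ξ ^ d = 1 → v (x - ξ * y) = v y := by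
        intro ξ hξ
        have h5 : v (ξ * y) = v y := by rw [map_mul, v_root v hd0 hξ, one_mul]
        rw [v_sub_of_lt' v hv (by rw [h5]; exact h4), h5]
      have hyle := le_one_of_good v hv (by omega) hc hy
      refine ⟨fun ξ ξ' hξ hξ' _ _ => ⟨1, one_ne_zero, ?_⟩, fun hx1 => ?_⟩
      · rw [hxy ξ hξ, hxy ξ' hξ']
        simp
      · have hy0 : 0 < v y := lt_of_le_of_lt (v.nonneg x) h4
        rw [map_div₀, div_pow, div_le_iff₀ (by positivity)]
        have h5 : v y ^ d ≤ v y ^ 2 := pow_le_pow_of_le_one hy0.le hyle (by omega)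
        have h6 : v x ≤ v y ^ 2 := h3.trans h5
        rw [sq (v x)]
        exact mul_le_mul_of_nonneg_left h6 (v.nonneg x)

end local_

end Pool.Agent.MP90787a.T
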