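import Pool.Agent.Lib.MP_90787a_nt.T.Defs
import Pool.Agent.Lib.MP_90787a_nt.Places

set_option autoImplicit false

/-!
Heights of preperiodic points of `x ^ d + c`, and preperiodic points whose numerator is large
outside a given finite set of places.
-/

namespace Pool.Agent.MP90787a.T

open NumberField Height

open scoped Real

/-- An orbit along which a quantity increases strictly is not preperiodic. -/
theorem iterate_ne_of_increasing {X : Type} {f : X → X} {u : X → ℝ} {p : X → Prop}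
    (hp : ∀ x, p x → p (f x) ∧ u x < u (f x)) {x : X} (hx : p x) {i j : ℕ} (hij : i < j) :
    f^[i] x ≠ f^[j] x := by
  have hpn : ∀ n, p (f^[n] x) := by
    intro n
    induction n with
    | zero => exact hx
    | succ n ih => rw [Function.iterate_succ_apply']; exact (hp _ ih).1
  have hmono : StrictMono fun n => u (f^[n] x) := by
    refine strictMono_nat_of_lt_succ fun n => ?_
    rw [Function.iterate_succ_apply']
    exact (hp _ (hpn n)).2
  intro h
  have h1 := hmono hij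
  simp only [h, lt_irrefl] at h1

theorem IsPre.map {K : Type} [Field K] {d : ℕ} {c x : K} (h : IsPre d c x) :
    IsPre d c (x ^ d + c) := by
  obtain ⟨i, j, hij, h1⟩ := h
  refine ⟨i, j, hij, ?_⟩
  have e : ∀ (f : K → K) (n : ℕ), f^[n] (f x) = f (f^[n] x) := fun f n => by
    rw [← Function.iterate_succ_apply, Function.iterate_succ_apply']
  have h2 := e (fun y : K => y ^ d + c) i
  have h3 := e (fun y : K => y ^ d + c) j
  exact h2.trans ((congrArg (fun y : K => y ^ d + c) h1).trans h3.symm)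

section Local

variable {K : Type} [Field K] {d : ℕ} {c x : K}

theorem pow_le_of_isPre_nonarch (u : AbsoluteValue K ℝ) (hu : IsNonarchimedean u) (hd : 2 ≤ d)
    (h : IsPre d c x) : u x ^ d ≤ max 1 (u c) := by
  by_contra hcon
  push Not at hcon
  obtain ⟨i, j, hij, hij'⟩ := h
  refine iterate_ne_of_increasing (f := fun y : K => y ^ d + c) (u := fun y => u y)
    (p := fun y => max 1 (u c) < u y ^ d) ?_ hcon hij hij'
  intro y hy
  have h1 : 1 < u y ^ d := (le_max_left _ _).trans_lt hy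
  have h2 : 1 < u y := by
    by_contra h3
    push Not at h3
    exact absurd (pow_le_one₀ (u.nonneg y) h3) (not_le.mpr h1)
  have h3 : u c < u (y ^ d) := by
    rw [map_pow]; exact (le_max_right _ _).trans_lt hy
  have h4 : u (y ^ d + c) = u y ^ d := by
    rw [hu.add_eq_left_of_lt h3, map_pow]
  have h5 : u y < u (y ^ d + c) := by
    rw [h4]
    exact lt_self_pow₀ h2 (by omega)
  refine ⟨?_, h5⟩
  exact hy.trans_le (pow_le_pow_left₀ (u.nonneg y) h5.le d)

theorem pow_le_of_isPre_arch (u : AbsoluteValue K ℝ) (hd : 2 ≤ d)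
    (h : IsPre d c x) : u x ^ d ≤ 2 ^ d * max 1 (u c) := by
  by_contra hcon
  push Not at hcon
  obtain ⟨i, j, hij, hij'⟩ := h
  refine iterate_ne_of_increasing (f := fun y : K => y ^ d + c) (u := fun y => u y)
    (p := fun y => 2 ^ d * max 1 (u c) < u y ^ d) ?_ hcon hij hij'
  intro y hy
  have hm1 : 1 ≤ max 1 (u c) := le_max_left _ _
  have hmc : u c ≤ max 1 (u c) := le_max_right _ _
  have h2d : (0 : ℝ) < 2 ^ d := by positivity
  have h1 : (2 : ℝ) ^ d < u y ^ d := by
    calc (2 : ℝ) ^ d = 2 ^ d * 1 := by ring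
      _ ≤ 2 ^ d * max 1 (u c) := by gcongr
      _ < u y ^ d := hy
  have h2 : 2 < u y := lt_of_pow_lt_pow_left₀ d (u.nonneg y) h1
  have h3 : u c * 2 ^ d < u y ^ d := by
    calc u c * 2 ^ d ≤ max 1 (u c) * 2 ^ d := by gcongr
      _ < u y ^ d := by linarith
  have h4 : u y ^ d ≤ u (y ^ d + c) + u c := by
    have : y ^ d = (y ^ d + c) - c := by ring
    calc u y ^ d = u (y ^ d) := (map_pow _ _ _).symm
      _ = u ((y ^ d + c) - c) := by rw [← this]
      _ ≤ u (y ^ d + c) + u c := u.sub_le_add _ _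
  have h5 : (4 : ℝ) ≤ 2 ^ d := by
    calc (4 : ℝ) = 2 ^ 2 := by norm_num
      _ ≤ 2 ^ d := pow_le_pow_right₀ (by norm_num) hd
  have h6 : 2 * u y ≤ u y ^ d := by
    calc 2 * u y ≤ u y * u y := by nlinarith
      _ = u y ^ 2 := by ring
      _ ≤ u y ^ d := pow_le_pow_right₀ (by linarith) hd
  have h7 : u c * 4 ≤ u c * 2 ^ d := by
    have := u.nonneg c
    gcongr
  have h8 : u y < u (y ^ d + c) := by linarith
  refine ⟨?_, h8⟩
  exact hy.trans_le (pow_le_pow_left₀ (u.nonneg y) h8.le d)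

theorem log_max_one {t : ℝ} (ht : 0 ≤ t) : Real.log (max 1 t) = log⁺ t :=
  (Real.posLog_eq_log_max_one ht).symm

theorem posLog_le_nonarch (u : AbsoluteValue K ℝ) (hu : IsNonarchimedean u) (hd : 2 ≤ d)
    (h : IsPre d c x) : log⁺ (u x) ≤ log⁺ (u c) / d := by
  have h1 := pow_le_of_isPre_nonarch u hu hd h
  have hd0 : (0 : ℝ) < d := by exact_mod_cast (by omega : 0 < d)
  rw [le_div_iff₀ hd0, mul_comm, ← Real.posLog_pow]
  calc log⁺ (u x ^ d) ≤ log⁺ (max 1 (u c)) := Real.posLog_le_posLog (by have := u.nonneg x; positivity) h1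
    _ = log⁺ (u c) := by
      rw [Real.posLog_eq_log, log_max_one (u.nonneg c)]
      rw [abs_of_pos (by positivity)]
      exact le_max_left _ _

theorem posLog_le_arch (u : AbsoluteValue K ℝ) (hd : 2 ≤ d)
    (h : IsPre d c x) : log⁺ (u x) ≤ log⁺ (u c) / d + Real.log 2 := by
  have h1 := pow_le_of_isPre_arch u hd h
  have hd0 : (0 : ℝ) < d := by exact_mod_cast (by omega : 0 < d)
  have h2 : (d : ℝ) * log⁺ (u x) ≤ d * Real.log 2 + log⁺ (u c) := by
    rw [← Real.posLog_pow]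
    calc log⁺ (u x ^ d) ≤ log⁺ (2 ^ d * max 1 (u c)) :=
          Real.posLog_le_posLog (by have := u.nonneg x; positivity) h1
      _ ≤ log⁺ ((2 : ℝ) ^ d) + log⁺ (max 1 (u c)) := Real.posLog_mul
      _ = d * Real.log 2 + log⁺ (u c) := by
        rw [Real.posLog_pow, Real.posLog_eq_log (x := max 1 (u c)), log_max_one (u.nonneg c),
          Real.posLog_eq_log (x := 2)]
        · norm_num
        · rw [abs_of_pos (by positivity)]
          exact le_max_left _ _
  have h3 : log⁺ (u c) / d + Real.log 2 = (d * Real.log 2 + log⁺ (u c)) / d := by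
    field_simp
    ring
  rw [h3, le_div_iff₀ hd0]
  linarith

end Local

section Global

variable {L : Type} [Field L] [NumberField L]

/-- The height as a finite sum. -/
theorem logHeight₁_eq_sum (z : L) (F : Finset (FinitePlace L)) (hF : ∀ v, v ∉ F → v z ≤ 1) :
    logHeight₁ z = ∑ v : InfinitePlace L, v.mult * log⁺ (v z) + ∑ v ∈ F, log⁺ (v z) := by
  rw [NumberField.logHeight₁_eq]
  congr 1
  refine finsum_eq_sum_of_support_subset _ ?_
  intro v hv
  by_contra hvF
  apply hv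
  rw [Real.posLog_eq_zero_iff, abs_of_nonneg (apply_nonneg v z)]
  exact hF v hvF

/-- The sum of the multiplicities of the infinite places. -/
noncomputable def wt (L : Type) [Field L] [NumberField L] : ℝ :=
  ∑ v : InfinitePlace L, (v.mult : ℝ)

theorem wt_nonneg (L : Type) [Field L] [NumberField L] : 0 ≤ wt L :=
  Finset.sum_nonneg fun v _ => by positivity

/-- Comparison of heights place by place. -/
theorem logHeight₁_le_of_local {z c : L} {a b : ℝ}
    (hinf : ∀ v : InfinitePlace L, log⁺ (v z) ≤ a * log⁺ (v c) + b)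
    (hfin : ∀ v : FinitePlace L, log⁺ (v z) ≤ a * log⁺ (v c)) :
    logHeight₁ z ≤ a * logHeight₁ c + b * wt L := by
  classical
  obtain ⟨F, hF⟩ := UBC90787a.exists_finset_places ({z, c} : Finset L)
  have hz : ∀ v, v ∉ F → v z ≤ 1 := by
    intro v hv
    by_cases h0 : z = 0
    · rw [h0, map_zero]; exact zero_le_one
    · exact (hF v hv z (by simp) h0).le
  have hc : ∀ v, v ∉ F → v c ≤ 1 := by
    intro v hv
    by_cases h0 : c = 0
    · rw [h0, map_zero]; exact zero_le_one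
    · exact (hF v hv c (by simp) h0).le
  rw [logHeight₁_eq_sum z F hz, logHeight₁_eq_sum c F hc]
  have h1 : ∑ v : InfinitePlace L, v.mult * log⁺ (v z) ≤
      a * ∑ v : InfinitePlace L, v.mult * log⁺ (v c) + b * wt L := by
    rw [wt, Finset.mul_sum, Finset.mul_sum, ← Finset.sum_add_distrib]
    refine Finset.sum_le_sum fun v _ => ?_
    calc (v.mult : ℝ) * log⁺ (v z) ≤ v.mult * (a * log⁺ (v c) + b) := by
          gcongr; exact hinf v
      _ = a * (v.mult * log⁺ (v c)) + b * v.mult := by ring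
  have h2 : ∑ v ∈ F, log⁺ (v z) ≤ a * ∑ v ∈ F, log⁺ (v c) := by
    rw [Finset.mul_sum]
    exact Finset.sum_le_sum fun v _ => hfin v
  linarith

theorem height_le_aux {d : ℕ} (hd : 2 ≤ d) {c x : L} (h : IsPre d c x) :
    logHeight₁ x ≤ logHeight₁ c / d + Real.log 2 * wt L := by
  have h1 := logHeight₁_le_of_local (z := x) (c := c) (a := 1 / d) (b := Real.log 2)
    (fun v => by
      have := posLog_le_arch v.1 hd h
      rw [InfinitePlace.coe_apply, InfinitePlace.coe_apply]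
      calc log⁺ (v.1 x) ≤ log⁺ (v.1 c) / d + Real.log 2 := this
        _ = 1 / d * log⁺ (v.1 c) + Real.log 2 := by ring)
    (fun v => by
      have := posLog_le_nonarch v.1 (fun x y => FinitePlace.add_le v x y) hd h
      rw [FinitePlace.coe_apply, FinitePlace.coe_apply]
      calc log⁺ (v.1 x) ≤ log⁺ (v.1 c) / d := this
        _ = 1 / d * log⁺ (v.1 c) := by ring)
  calc logHeight₁ x ≤ 1 / d * logHeight₁ c + Real.log 2 * wt L := h1
    _ = logHeight₁ c / d + Real.log 2 * wt L := by ring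

end Global

theorem height_le (L : Type) [Field L] [NumberField L] (d : ℕ) (hd : 2 ≤ d) :
    ∃ C : ℝ, ∀ c x : L, IsPre d c x → logHeight₁ x ≤ logHeight₁ c / d + C :=
  ⟨Real.log 2 * wt L, fun _ _ h => height_le_aux hd h⟩

/-! ### Points with large numerator -/

/-- Local Liouville inequality. -/
theorem liouville_local {K : Type} [Field K] (u : AbsoluteValue K ℝ) {d : ℕ} {x y : K}
    (hx : x ≠ 0) (hy : y ≠ 0) (hΔ : x ^ d - y ^ d ≠ 0) :
    d * min (log⁺ (u x)⁻¹) (log⁺ (u y)⁻¹) - Real.log 2 ≤ log⁺ (u (x ^ d - y ^ d))⁻¹ := by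
  have hux : 0 < u x := u.pos hx
  have huy : 0 < u y := u.pos hy
  have huΔ : 0 < u (x ^ d - y ^ d) := u.pos hΔ
  set m : ℝ := max (u x) (u y) with hm
  have hm0 : 0 < m := lt_max_of_lt_left hux
  have h1 : u (x ^ d - y ^ d) ≤ 2 * m ^ d := by
    calc u (x ^ d - y ^ d) ≤ u (x ^ d) + u (y ^ d) := u.sub_le_add _ _
      _ = u x ^ d + u y ^ d := by rw [map_pow, map_pow]
      _ ≤ m ^ d + m ^ d := add_le_add (pow_le_pow_left₀ hux.le (le_max_left _ _) d)
          (pow_le_pow_left₀ huy.le (le_max_right _ _) d)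
      _ = 2 * m ^ d := by ring
  have h2 : min (log⁺ (u x)⁻¹) (log⁺ (u y)⁻¹) ≤ log⁺ m⁻¹ := by
    rcases max_choice (u x) (u y) with h | h
    · rw [hm, h]; exact min_le_left _ _
    · rw [hm, h]; exact min_le_right _ _
  have h3 : (d : ℝ) * log⁺ m⁻¹ ≤ Real.log 2 + log⁺ (u (x ^ d - y ^ d))⁻¹ := by
    rw [← Real.posLog_pow]
    have h4 : m⁻¹ ^ d ≤ 2 * (u (x ^ d - y ^ d))⁻¹ := by
      rw [inv_pow, ← div_eq_mul_inv, le_div_iff₀ huΔ, inv_mul_le_iff₀ (by positivity)]
      linarith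
    calc log⁺ (m⁻¹ ^ d) ≤ log⁺ (2 * (u (x ^ d - y ^ d))⁻¹) :=
          Real.posLog_le_posLog (by positivity) h4
      _ ≤ log⁺ 2 + log⁺ (u (x ^ d - y ^ d))⁻¹ := Real.posLog_mul
      _ = Real.log 2 + log⁺ (u (x ^ d - y ^ d))⁻¹ := by
          rw [Real.posLog_eq_log (x := 2) (by norm_num)]
  have h5 : (d : ℝ) * min (log⁺ (u x)⁻¹) (log⁺ (u y)⁻¹) ≤ d * log⁺ m⁻¹ := by gcongr
  linarith

section Big

variable {L : Type} [Field L] [NumberField L]

/-- The part of the height of `x⁻¹` at the infinite places and at `S`. -/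
noncomputable def lam (S : Finset (FinitePlace L)) (x : L) : ℝ :=
  ∑ v : InfinitePlace L, v.mult * log⁺ (v x)⁻¹ + ∑ v ∈ S, log⁺ (v x)⁻¹

theorem exists_split (S : Finset (FinitePlace L)) {x : L} (hx : x ≠ 0) :
    ∃ F : Finset (FinitePlace L), (∀ v ∈ F, v ∉ S ∧ v x < 1) ∧
      logHeight₁ x = lam S x + ∑ v ∈ F, -Real.log (v x) := by
  classical
  obtain ⟨F₀, hF₀⟩ := UBC90787a.exists_finset_places ({x} : Finset L)
  set Fn : Finset (FinitePlace L) := F₀ ∪ S with hFn
  refine ⟨(Fn \ S).filter (fun v => v x < 1), ?_, ?_⟩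
  · intro v hv
    rw [Finset.mem_filter, Finset.mem_sdiff] at hv
    exact ⟨hv.1.2, hv.2⟩
  · have h1 : logHeight₁ x = ∑ v : InfinitePlace L, v.mult * log⁺ (v x)⁻¹ +
        ∑ v ∈ Fn, log⁺ (v x)⁻¹ := by
      rw [← logHeight₁_inv, logHeight₁_eq_sum x⁻¹ Fn]
      · simp only [map_inv₀]
      · intro v hv
        have hv' : v ∉ F₀ := fun h => hv (Finset.mem_union_left _ h)
        rw [map_inv₀, hF₀ v hv' x (by simp) hx, inv_one]
    have h2 : ∑ v ∈ Fn, log⁺ (v x)⁻¹ = ∑ v ∈ Fn \ S, log⁺ (v x)⁻¹ + ∑ v ∈ S, log⁺ (v x)⁻¹ :=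
      (Finset.sum_sdiff Finset.subset_union_right).symm
    have h3 : ∑ v ∈ Fn \ S, log⁺ (v x)⁻¹ =
        ∑ v ∈ (Fn \ S).filter (fun v => v x < 1), -Real.log (v x) := by
      rw [Finset.sum_filter]
      refine Finset.sum_congr rfl fun v _ => ?_
      have hv0 : 0 < v x := FinitePlace.pos_iff.mpr hx
      split_ifs with h
      · rw [Real.posLog_eq_log, Real.log_inv]
        rw [abs_of_pos (by positivity)]
        exact (one_le_inv₀ hv0).mpr h.le
      · rw [Real.posLog_eq_zero_iff, abs_of_pos (by positivity)]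
        push Not at h
        exact inv_le_one_of_one_le₀ h
    rw [h1, h2, h3, lam]
    ring

theorem lam_le (S : Finset (FinitePlace L)) {x : L} (hx : x ≠ 0) : lam S x ≤ logHeight₁ x := by
  obtain ⟨F, hF, h⟩ := exists_split S hx
  have : 0 ≤ ∑ v ∈ F, -Real.log (v x) := by
    refine Finset.sum_nonneg fun v hv => ?_
    have h1 := Real.log_nonpos (apply_nonneg v x) (hF v hv).2.le
    linarith
  linarith

theorem ell_inf_le (S : Finset (FinitePlace L)) {x : L} (hx : x ≠ 0) (v : InfinitePlace L) :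
    log⁺ (v x)⁻¹ ≤ logHeight₁ x := by
  refine le_trans ?_ (lam_le S hx)
  have h1 : (1 : ℝ) ≤ v.mult := by exact_mod_cast v.mult_pos
  have h2 : 0 ≤ log⁺ (v x)⁻¹ := Real.posLog_nonneg
  have h3 : (v.mult : ℝ) * log⁺ (v x)⁻¹ ≤ ∑ v : InfinitePlace L, v.mult * log⁺ (v x)⁻¹ :=
    Finset.single_le_sum (f := fun v : InfinitePlace L => (v.mult : ℝ) * log⁺ (v x)⁻¹)
      (fun w _ => by have : 0 ≤ log⁺ (w x)⁻¹ := Real.posLog_nonneg
                     positivity) (Finset.mem_univ v)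
  have h4 : 0 ≤ ∑ v ∈ S, log⁺ (v x)⁻¹ := Finset.sum_nonneg fun _ _ => Real.posLog_nonneg
  rw [lam]
  nlinarith

theorem ell_fin_le (S : Finset (FinitePlace L)) {x : L} (hx : x ≠ 0) {v : FinitePlace L}
    (hv : v ∈ S) : log⁺ (v x)⁻¹ ≤ logHeight₁ x := by
  refine le_trans ?_ (lam_le S hx)
  have h3 : log⁺ (v x)⁻¹ ≤ ∑ v ∈ S, log⁺ (v x)⁻¹ :=
    Finset.single_le_sum (f := fun v : FinitePlace L => log⁺ (v x)⁻¹)
      (fun w _ => Real.posLog_nonneg) hv
  have h4 : 0 ≤ ∑ v : InfinitePlace L, v.mult * log⁺ (v x)⁻¹ :=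
    Finset.sum_nonneg fun w _ => by
      have : 0 ≤ log⁺ (w x)⁻¹ := Real.posLog_nonneg
      positivity
  rw [lam]
  linarith

/-- If the local terms of `x` and `y` nearly agree, `lam S x` is small. -/
theorem lam_le_of_close (S : Finset (FinitePlace L)) {d : ℕ} (hd : 2 ≤ d) {x y : L} (hx : x ≠ 0)
    (hy : y ≠ 0) (hΔ : x ^ d - y ^ d ≠ 0) {η : ℝ}
    (hinf : ∀ v : InfinitePlace L, log⁺ (v x)⁻¹ ≤ log⁺ (v y)⁻¹ + η)
    (hfin : ∀ v ∈ S, log⁺ (v x)⁻¹ ≤ log⁺ (v y)⁻¹ + η) (hη : 0 ≤ η) :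
    lam S x ≤ (logHeight₁ (x ^ d - y ^ d) + Real.log 2 * (wt L + S.card)) / d +
      η * (wt L + S.card) := by
  have hd0 : (0 : ℝ) < d := by exact_mod_cast (by omega : 0 < d)
  have hlog2 : 0 ≤ Real.log 2 := Real.log_nonneg (by norm_num)
  have key : ∀ a b e : ℝ, 0 ≤ b → a ≤ b + η → d * min a b - Real.log 2 ≤ e →
      a ≤ (e + Real.log 2) / d + η := by
    intro a b e hb hab he
    have h1 : a ≤ min a b + η := by
      rcases min_choice a b with h | h
      · rw [h]; linarith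
      · rw [h]; exact hab
    have h2 : min a b ≤ (e + Real.log 2) / d := by
      rw [le_div_iff₀ hd0]; linarith
    linarith
  have h1 : ∀ v : InfinitePlace L, log⁺ (v x)⁻¹ ≤
      (log⁺ (v (x ^ d - y ^ d))⁻¹ + Real.log 2) / d + η := fun v =>
    key _ _ _ Real.posLog_nonneg (hinf v) (liouville_local v.1 hx hy hΔ)
  have h2 : ∀ v ∈ S, log⁺ (v x)⁻¹ ≤
      (log⁺ (v (x ^ d - y ^ d))⁻¹ + Real.log 2) / d + η := fun v hv =>
    key _ _ _ Real.posLog_nonneg (hfin v hv) (liouville_local v.1 hx hy hΔ)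
  have h3 : ∑ v : InfinitePlace L, v.mult * log⁺ (v x)⁻¹ ≤
      (∑ v : InfinitePlace L, v.mult * log⁺ (v (x ^ d - y ^ d))⁻¹) / d +
        (Real.log 2 / d + η) * wt L := by
    rw [wt, Finset.sum_div, Finset.mul_sum, ← Finset.sum_add_distrib]
    refine Finset.sum_le_sum fun v _ => ?_
    calc (v.mult : ℝ) * log⁺ (v x)⁻¹ ≤
          v.mult * ((log⁺ (v (x ^ d - y ^ d))⁻¹ + Real.log 2) / d + η) := by
          gcongr; exact h1 v
      _ = _ := by ring
  have h4 : ∑ v ∈ S, log⁺ (v x)⁻¹ ≤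
      (∑ v ∈ S, log⁺ (v (x ^ d - y ^ d))⁻¹) / d + (Real.log 2 / d + η) * S.card := by
    have e1 : (Real.log 2 / d + η) * S.card = ∑ v ∈ S, (Real.log 2 / d + η) := by
      rw [Finset.sum_const, nsmul_eq_mul]; ring
    rw [e1, Finset.sum_div, ← Finset.sum_add_distrib]
    refine Finset.sum_le_sum fun v hv => ?_
    calc log⁺ (v x)⁻¹ ≤ (log⁺ (v (x ^ d - y ^ d))⁻¹ + Real.log 2) / d + η := h2 v hv
      _ = _ := by ring
  have h5 := lam_le S hΔ
  rw [lam] at h5
  calc lam S x = ∑ v : InfinitePlace L, v.mult * log⁺ (v x)⁻¹ + ∑ v ∈ S, log⁺ (v x)⁻¹ := rfl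
    _ ≤ ((∑ v : InfinitePlace L, v.mult * log⁺ (v (x ^ d - y ^ d))⁻¹) / d +
        (Real.log 2 / d + η) * wt L) + ((∑ v ∈ S, log⁺ (v (x ^ d - y ^ d))⁻¹) / d +
        (Real.log 2 / d + η) * S.card) := add_le_add h3 h4
    _ = (∑ v : InfinitePlace L, v.mult * log⁺ (v (x ^ d - y ^ d))⁻¹ +
        ∑ v ∈ S, log⁺ (v (x ^ d - y ^ d))⁻¹) / d + (Real.log 2 / d + η) * (wt L + S.card) := by
      ring
    _ ≤ logHeight₁ (x ^ d - y ^ d) / d + (Real.log 2 / d + η) * (wt L + S.card) := by gcongr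
    _ = _ := by ring

/-- The height of a difference of images of preperiodic points. -/
theorem height_sub_le {d : ℕ} (hd : 2 ≤ d) {c x y : L} (hx : IsPre d c x) (hy : IsPre d c y) :
    logHeight₁ (x ^ d - y ^ d) ≤ logHeight₁ c / d + 2 * Real.log 2 * wt L := by
  have hfx := hx.map
  have hfy := hy.map
  have e1 : x ^ d - y ^ d = (x ^ d + c) - (y ^ d + c) := by ring
  have hlog2 : 0 ≤ Real.log 2 := Real.log_nonneg (by norm_num)
  rw [e1]
  have h1 := logHeight₁_le_of_local (z := (x ^ d + c) - (y ^ d + c)) (c := c) (a := 1 / d)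
    (b := 2 * Real.log 2)
    (fun v => by
      have a1 := posLog_le_arch v.1 hd hfx
      have a2 := posLog_le_arch v.1 hd hfy
      rw [InfinitePlace.coe_apply, InfinitePlace.coe_apply]
      set p := v.1 (x ^ d + c) with hp
      set q := v.1 (y ^ d + c) with hq
      have hp0 : 0 ≤ p := v.1.nonneg _
      have hq0 : 0 ≤ q := v.1.nonneg _
      have a3 : v.1 (x ^ d + c - (y ^ d + c)) ≤ 2 * max p q := by
        calc v.1 (x ^ d + c - (y ^ d + c)) ≤ p + q := v.1.sub_le_add _ _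
          _ ≤ max p q + max p q := add_le_add (le_max_left _ _) (le_max_right _ _)
          _ = 2 * max p q := by ring
      have a4 : log⁺ (max p q) ≤ log⁺ (v.1 c) / d + Real.log 2 := by
        rcases max_choice p q with h | h
        · rw [h]; exact a1
        · rw [h]; exact a2
      calc log⁺ (v.1 (x ^ d + c - (y ^ d + c))) ≤ log⁺ (2 * max p q) :=
            Real.posLog_le_posLog (v.1.nonneg _) a3
        _ ≤ log⁺ 2 + log⁺ (max p q) := Real.posLog_mul
        _ ≤ Real.log 2 + (log⁺ (v.1 c) / d + Real.log 2) := by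
            rw [Real.posLog_eq_log (x := 2) (by norm_num)]
            gcongr
        _ = 1 / d * log⁺ (v.1 c) + 2 * Real.log 2 := by ring)
    (fun v => by
      have hna : IsNonarchimedean v.1 := fun x y => FinitePlace.add_le v x y
      have a1 := posLog_le_nonarch v.1 hna hd hfx
      have a2 := posLog_le_nonarch v.1 hna hd hfy
      rw [FinitePlace.coe_apply, FinitePlace.coe_apply]
      set p := v.1 (x ^ d + c) with hp
      set q := v.1 (y ^ d + c) with hq
      have a3 : v.1 (x ^ d + c - (y ^ d + c)) ≤ max p q := by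
        rw [sub_eq_add_neg]
        refine (hna _ _).trans ?_
        rw [v.1.map_neg]
      have a4 : log⁺ (max p q) ≤ log⁺ (v.1 c) / d := by
        rcases max_choice p q with h | h
        · rw [h]; exact a1
        · rw [h]; exact a2
      calc log⁺ (v.1 (x ^ d + c - (y ^ d + c))) ≤ log⁺ (max p q) :=
            Real.posLog_le_posLog (v.1.nonneg _) a3
        _ ≤ log⁺ (v.1 c) / d := a4
        _ = 1 / d * log⁺ (v.1 c) := by ring)
  calc logHeight₁ ((x ^ d + c) - (y ^ d + c)) ≤ 1 / d * logHeight₁ c + 2 * Real.log 2 * wt L := h1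
    _ = _ := by ring

theorem totalWeight_eq_wt : (totalWeight L : ℝ) = wt L := by
  rw [totalWeight_eq_sum_mult, wt]
  push_cast
  rfl

/-- Lower bound for the height of a preperiodic point. -/
theorem height_ge {d : ℕ} (hd : 2 ≤ d) {c x : L} (hx : IsPre d c x) :
    (d - 1) / d ^ 2 * logHeight₁ c - 2 * (Real.log 2 * wt L) / d ≤ logHeight₁ x := by
  have hd0 : (0 : ℝ) < d := by exact_mod_cast (by omega : 0 < d)
  have h1 := height_le_aux hd hx.map
  have h2 := logHeight₁_sub_le (x ^ d + c) (x ^ d)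
  have e1 : x ^ d + c - x ^ d = c := by ring
  rw [e1, logHeight₁_pow, totalWeight_eq_wt] at h2
  have h3 : logHeight₁ c ≤ logHeight₁ c / d + 2 * (Real.log 2 * wt L) + d * logHeight₁ x := by
    linarith
  have h4 : (d - 1) / d * logHeight₁ c - 2 * (Real.log 2 * wt L) ≤ d * logHeight₁ x := by
    have e2 : (d - 1) / d * logHeight₁ c = logHeight₁ c - logHeight₁ c / d := by
      field_simp
    rw [e2]; linarith
  have e3 : (d - 1) / d ^ 2 * logHeight₁ c - 2 * (Real.log 2 * wt L) / d =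
      ((d - 1) / d * logHeight₁ c - 2 * (Real.log 2 * wt L)) / d := by
    field_simp
  rw [e3, div_le_iff₀ hd0]
  linarith

end Big

/-- If the truncated floors of `a T / M` and `b T / M` agree then `a ≤ b + M / T`. -/
theorem close_of_floor {a b M : ℝ} {T : ℕ} (hT : 0 < T) (hM : 0 < M) (ha : a ≤ M) (hb0 : 0 ≤ b)
    (hb : b ≤ M) (h : min ⌊a * T / M⌋₊ T = min ⌊b * T / M⌋₊ T) : a ≤ b + M / T := by
  have hT' : (0 : ℝ) < T := by exact_mod_cast hT
  have hfl : ∀ t : ℝ, t ≤ M → ⌊t * T / M⌋₊ ≤ T := by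
    intro t ht
    apply Nat.floor_le_of_le
    rw [div_le_iff₀ hM]
    nlinarith
  rw [min_eq_left (hfl a ha), min_eq_left (hfl b hb)] at h
  have h1 : a * T / M < ⌊a * T / M⌋₊ + 1 := Nat.lt_floor_add_one _
  have h2 : (⌊b * T / M⌋₊ : ℝ) ≤ b * T / M := Nat.floor_le (by positivity)
  rw [h] at h1
  have h3 : a * T / M < b * T / M + 1 := by linarith
  have h4 : a * T < b * T + M := by
    have e1 : b * T / M + 1 = (b * T + M) / M := by field_simp
    rw [e1, div_lt_div_iff_of_pos_right hM] at h3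
    exact h3
  have h5 : b + M / T = (b * T + M) / T := by field_simp
  rw [h5, le_div_iff₀ hT']
  exact h4.le

theorem exists_big_num (L : Type) [Field L] [NumberField L] (d : ℕ) (hd : 4 ≤ d)
    (S : Finset (FinitePlace L)) :
    ∃ (κ H₀ : ℝ) (N : ℕ), 0 < κ ∧ ∀ c : L, H₀ ≤ logHeight₁ c →
      ∀ Z : Finset L, (∀ z ∈ Z, z ≠ 0 ∧ IsPre d c z) →
        Set.InjOn (fun y : L => y ^ d + c) Z → N < Z.card →
        ∃ x ∈ Z, ∃ F : Finset (FinitePlace L), (∀ v ∈ F, v ∉ S ∧ v x < 1) ∧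
          κ * logHeight₁ c ≤ ∑ v ∈ F, -Real.log (v x) := by
  classical
  have hd2 : 2 ≤ d := by omega
  have hdR : (4 : ℝ) ≤ d := by exact_mod_cast hd
  have hd0 : (0 : ℝ) < d := by linarith
  have hlog2 : 0 ≤ Real.log 2 := Real.log_nonneg (by norm_num)
  have hwt := wt_nonneg L
  set w' : ℝ := wt L + S.card with hw'
  have hw'0 : 0 ≤ w' := by positivity
  set κ : ℝ := (d - 2) / (4 * d ^ 2) with hκ
  have hκ0 : 0 < κ := by
    rw [hκ]
    have : (0 : ℝ) < d - 2 := by linarith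
    positivity
  obtain ⟨T, hT⟩ := exists_nat_gt (max 0 (w' / (2 * κ)))
  have hT0' : (0 : ℝ) < T := (le_max_left _ _).trans_lt hT
  have hT0 : 0 < T := by exact_mod_cast hT0'
  have hTw : w' / T ≤ 2 * κ := by
    have h1 : w' / (2 * κ) < T := (le_max_right _ _).trans_lt hT
    rw [div_lt_iff₀ (by positivity)] at h1
    rw [div_le_iff₀ hT0']
    linarith
  set C₁ : ℝ := Real.log 2 * wt L with hC₁
  have hC₁0 : 0 ≤ C₁ := by positivity
  set E : ℝ := (4 * C₁ + Real.log 2 * w') / d with hE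
  have hE0 : 0 ≤ E := by positivity
  set H₀ : ℝ := max 1 (max (2 * C₁) (E / κ)) with hH₀
  refine ⟨κ, H₀, Fintype.card ((InfinitePlace L → Fin (T + 1)) × (S → Fin (T + 1))), hκ0, ?_⟩
  intro c hc Z hZ hinj hcard
  set M : ℝ := logHeight₁ c with hM
  have hM1 : 1 ≤ M := (le_max_left _ _).trans hc
  have hM0 : 0 < M := by linarith
  have hMC : 2 * C₁ ≤ M := ((le_max_left _ _).trans (le_max_right _ _)).trans hc
  have hME : E ≤ κ * M := by
    have h1 : E / κ ≤ M := ((le_max_right _ _).trans (le_max_right _ _)).trans hc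
    rw [div_le_iff₀ hκ0] at h1
    linarith
  have hxM : ∀ x ∈ Z, logHeight₁ x ≤ M := by
    intro x hx
    have h1 := height_le_aux hd2 (hZ x hx).2
    have h2 : M / d ≤ M / 2 := by
      apply div_le_div_of_nonneg_left hM0.le (by norm_num) (by linarith)
    change logHeight₁ x ≤ M / d + C₁ at h1
    linarith
  set g : L → (InfinitePlace L → Fin (T + 1)) × (S → Fin (T + 1)) := fun x =>
    (fun v => ⟨min ⌊log⁺ (v x)⁻¹ * T / M⌋₊ T, Nat.lt_succ_of_le (min_le_right _ _)⟩,
     fun v => ⟨min ⌊log⁺ (v.1 x)⁻¹ * T / M⌋₊ T, Nat.lt_succ_of_le (min_le_right _ _)⟩) with hg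
  obtain ⟨x, hx, y, hy, hxy, hgxy⟩ := Finset.exists_ne_map_eq_of_card_lt_of_maps_to
    (s := Z) (t := Finset.univ) (f := g) (by rw [Finset.card_univ]; exact hcard)
    (fun _ _ => Finset.mem_univ _)
  have hx0 := (hZ x hx).1
  have hy0 := (hZ y hy).1
  have hΔ : x ^ d - y ^ d ≠ 0 := by
    intro h
    apply hxy
    apply hinj hx hy
    change x ^ d + c = y ^ d + c
    rw [sub_eq_zero.mp h]
  have hinf : ∀ v : InfinitePlace L, log⁺ (v x)⁻¹ ≤ log⁺ (v y)⁻¹ + M / T := by
    intro v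
    have h1 := congrFun (congrArg Prod.fst hgxy) v
    simp only [hg, Fin.mk.injEq] at h1
    exact close_of_floor hT0 hM0 ((ell_inf_le S hx0 v).trans (hxM x hx)) Real.posLog_nonneg
      ((ell_inf_le S hy0 v).trans (hxM y hy)) h1
  have hfin : ∀ v ∈ S, log⁺ (v x)⁻¹ ≤ log⁺ (v y)⁻¹ + M / T := by
    intro v hv
    have h1 := congrFun (congrArg Prod.snd hgxy) ⟨v, hv⟩
    simp only [hg, Fin.mk.injEq] at h1
    exact close_of_floor hT0 hM0 ((ell_fin_le S hx0 hv).trans (hxM x hx)) Real.posLog_nonneg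
      ((ell_fin_le S hy0 hv).trans (hxM y hy)) h1
  have hlam := lam_le_of_close S hd2 hx0 hy0 hΔ hinf hfin (by positivity)
  have hsub := height_sub_le hd2 (hZ x hx).2 (hZ y hy).2
  have hge := height_ge hd2 (hZ x hx).2
  obtain ⟨F, hF, hsplit⟩ := exists_split S hx0
  refine ⟨x, hx, F, hF, ?_⟩
  have h1 : ∑ v ∈ F, -Real.log (v x) = logHeight₁ x - lam S x := by linarith
  rw [h1]
  have h2 : lam S x ≤ (M / d + 2 * C₁ + Real.log 2 * w') / d + w' / T * M := by
    calc lam S x ≤ (logHeight₁ (x ^ d - y ^ d) + Real.log 2 * w') / d + M / T * w' := hlam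
      _ ≤ (M / d + 2 * C₁ + Real.log 2 * w') / d + M / T * w' := by
          gcongr
          calc logHeight₁ (x ^ d - y ^ d) ≤ M / d + 2 * Real.log 2 * wt L := hsub
            _ = M / d + 2 * C₁ := by rw [hC₁]; ring
      _ = _ := by ring
  have h3 : w' / T * M ≤ 2 * κ * M := by gcongr
  have h4 : (d - 1) / d ^ 2 * M - 2 * C₁ / d ≤ logHeight₁ x := hge
  have h5 : (M / d + 2 * C₁ + Real.log 2 * w') / d = M / d ^ 2 + (2 * C₁ + Real.log 2 * w') / d := by
    field_simp
    ring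
  have h6 : (d - 1) / d ^ 2 * M - M / d ^ 2 = 4 * κ * M := by
    rw [hκ]; field_simp; ring
  have h7 : 2 * C₁ / d + (2 * C₁ + Real.log 2 * w') / d = E := by
    rw [hE]; ring
  rw [h5] at h2
  linarith

end Pool.Agent.MP90787a.T
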