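import Mathlib

set_option autoImplicit false

/-!
Number fields containing roots of given polynomials.
-/

namespace Pool.Agent.MP90787a.T.Ext

open Polynomial

theorem exists_ext (K : Type) [Field K] [NumberField K] (P : Finset K[X])
    (hP : ∀ p ∈ P, p.degree ≠ 0 ∧ p ≠ 0) :
    ∃ (L : Type) (_ : Field L) (_ : NumberField L) (φ : K →+* L),
      ∀ p ∈ P, ∃ r : L, eval₂ φ r p = 0 := by
  classical
  set q : K[X] := ∏ p ∈ P, p with hq
  have hq0 : q ≠ 0 := Finset.prod_ne_zero_iff.2 fun p hp => (hP p hp).2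
  have hchar : CharZero q.SplittingField := charZero_of_injective_algebraMap
    (algebraMap K q.SplittingField).injective
  have hfin : FiniteDimensional ℚ q.SplittingField := FiniteDimensional.trans ℚ K q.SplittingField
  refine ⟨q.SplittingField, inferInstance, ⟨⟩, algebraMap K q.SplittingField, ?_⟩
  intro p hp
  have hs : (q.map (algebraMap K q.SplittingField)).Splits := SplittingField.splits q
  have hdvd : p.map (algebraMap K q.SplittingField) ∣ q.map (algebraMap K q.SplittingField) :=
    Polynomial.map_dvd _ (Finset.dvd_prod_of_mem _ hp)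
  have hne : q.map (algebraMap K q.SplittingField) ≠ 0 :=
    (Polynomial.map_ne_zero_iff (algebraMap K q.SplittingField).injective).2 hq0
  have hs' := hs.of_dvd hne hdvd
  obtain ⟨r, hr⟩ := hs'.exists_eval_eq_zero (by
    rw [degree_map]
    exact (hP p hp).1)
  exact ⟨r, by rwa [eval_map] at hr⟩

/-- A number field extension with a primitive `d`-th root of unity. -/
theorem exists_ext_primitive (K : Type) [Field K] [NumberField K] (d : ℕ) (hd : 0 < d) :
    ∃ (L : Type) (_ : Field L) (_ : NumberField L) (_ : K →+* L) (ω : L), IsPrimitiveRoot ω d := by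
  obtain ⟨L, hL, hL', φ, h⟩ := exists_ext K {cyclotomic d K} (by
    intro p hp
    rw [Finset.mem_singleton] at hp
    subst hp
    refine ⟨?_, cyclotomic_ne_zero d K⟩
    rw [degree_cyclotomic]
    have := Nat.totient_pos.2 hd
    exact_mod_cast this.ne')
  obtain ⟨r, hr⟩ := h _ (Finset.mem_singleton_self _)
  refine ⟨L, hL, hL', φ, r, ?_⟩
  have : NeZero (d : L) := ⟨by exact_mod_cast hd.ne'⟩
  rw [← eval_map, map_cyclotomic] at hr
  exact isRoot_cyclotomic_iff.1 hr

/-- Adjoining `n`-th roots of finitely many elements. -/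
theorem exists_ext_roots (K : Type) [Field K] [NumberField K] (n : ℕ) (hn : 0 < n)
    (T : Finset K) :
    ∃ (L : Type) (_ : Field L) (_ : NumberField L) (φ : K →+* L),
      ∀ t ∈ T, ∃ u : L, u ^ n = φ t := by
  classical
  obtain ⟨L, hL, hL', φ, h⟩ := exists_ext K (T.image fun t => X ^ n - C t) (by
    intro p hp
    obtain ⟨t, _, rfl⟩ := Finset.mem_image.1 hp
    refine ⟨?_, X_pow_sub_C_ne_zero hn t⟩
    rw [degree_X_pow_sub_C hn]
    exact_mod_cast hn.ne')
  refine ⟨L, hL, hL', φ, fun t ht => ?_⟩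
  obtain ⟨r, hr⟩ := h (X ^ n - C t) (Finset.mem_image_of_mem _ ht)
  refine ⟨r, ?_⟩
  rw [eval₂_sub, eval₂_pow, eval₂_X, eval₂_C, sub_eq_zero] at hr
  exact hr

end Pool.Agent.MP90787a.T.Ext
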