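import Pool.Agent.Lib.MP_90787a_nt.T.Defs
import Pool.Agent.Lib.MP_90787a_nt.Places

set_option autoImplicit false

/-!
Points on elliptic curves from square values of a product of four linear forms, and the kissing
bound for them.
-/

namespace Pool.Agent.MP90787a.T

open NumberField Height Real

section general

variable {L : Type} [Field L] [NumberField L]

lemma v_add_le (v : FinitePlace L) (x y : L) : v (x + y) ≤ max (v x) (v y) := by
  obtain ⟨L', _, _, _, ι, hι⟩ := UBC90787a.exists_ultra_field v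
  rw [← hι, ← hι, ← hι, map_add]
  exact IsUltrametricDist.norm_add_le_max _ _

lemma v_neg (v : FinitePlace L) (x : L) : v (-x) = v x := by
  obtain ⟨L', _, _, _, ι, hι⟩ := UBC90787a.exists_ultra_field v
  rw [← hι, ← hι, map_neg, norm_neg]

lemma v_sub_le (v : FinitePlace L) (x y : L) : v (x - y) ≤ max (v x) (v y) := by
  rw [sub_eq_add_neg, ← v_neg v y]
  exact v_add_le v x (-y)

lemma v_pos (v : FinitePlace L) {x : L} (hx : x ≠ 0) : 0 < v x := FinitePlace.pos_iff.mpr hx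

lemma v_nonneg (v : FinitePlace L) (x : L) : 0 ≤ v x := by
  obtain ⟨L', _, _, _, ι, hι⟩ := UBC90787a.exists_ultra_field v
  rw [← hι]
  exact norm_nonneg _

/-- If `v b < v a` then `v (a + b) = v a`. -/
lemma v_add_eq (v : FinitePlace L) {a b : L} (h : v b < v a) : v (a + b) = v a := by
  apply le_antisymm
  · exact (v_add_le v a b).trans (max_le le_rfl h.le)
  · have h1 := v_sub_le v (a + b) b
    rw [add_sub_cancel_right] at h1
    rcases le_max_iff.mp h1 with h2 | h2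
    · exact h2
    · exact absurd h (not_lt.mpr h2)

lemma v_sub_eq (v : FinitePlace L) {a b : L} (h : v b < v a) : v (a - b) = v a := by
  rw [sub_eq_add_neg]
  exact v_add_eq v (by rwa [v_neg])

lemma v_sub_comm (v : FinitePlace L) (a b : L) : v (a - b) = v (b - a) := by
  rw [← v_neg v (a - b), neg_sub]

lemma sum_posLog_le (z : L) (F : Finset (FinitePlace L)) :
    ∑ v ∈ F, log⁺ (v z) ≤ logHeight₁ z := by
  classical
  rw [NumberField.logHeight₁_eq]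
  have hfin : (Function.support fun v : FinitePlace L => log⁺ (v z)).Finite := by
    by_cases hz : z = 0
    · subst hz
      refine Set.Finite.subset Set.finite_empty ?_
      intro v hv
      exact absurd (by simp) hv
    · refine (FinitePlace.hasFiniteMulSupport hz).subset ?_
      intro v hv hv1
      apply hv
      have h1 : v z = 1 := hv1
      simp [h1]
  have h1 : ∑ᶠ v : FinitePlace L, log⁺ (v z) = ∑ v ∈ hfin.toFinset ∪ F, log⁺ (v z) := by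
    refine finsum_eq_sum_of_support_subset _ ?_
    intro v hv
    rw [Finset.coe_union]
    exact Or.inl (by simpa using hv)
  rw [h1]
  have h2 : ∑ v ∈ F, log⁺ (v z) ≤ ∑ v ∈ hfin.toFinset ∪ F, log⁺ (v z) :=
    Finset.sum_le_sum_of_subset_of_nonneg Finset.subset_union_right
      (fun v _ _ => Real.posLog_nonneg)
  have h3 : 0 ≤ ∑ v : InfinitePlace L, (v.mult : ℝ) * log⁺ (v z) :=
    Finset.sum_nonneg fun v _ => mul_nonneg (Nat.cast_nonneg _) Real.posLog_nonneg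
  linarith

lemma nh_some {W : WeierstrassCurve.Affine L} {x y : L} (h : W.Nonsingular x y) :
    nh (WeierstrassCurve.Affine.Point.some x y h) = logHeight₁ x := by
  rw [nh, WeierstrassCurve.Affine.Point.xRep_some, logHeight₁_eq_logHeight]

lemma nh_nonneg {W : WeierstrassCurve.Affine L} (P : W.Point) : 0 ≤ nh P :=
  logHeight_nonneg _

/-- Local contribution to the naive height. -/
noncomputable def psi {W : WeierstrassCurve.Affine L} (v : FinitePlace L) : W.Point → ℝ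
  | 0 => 0
  | .some x _ _ => log⁺ (v x)

lemma psi_nonneg {W : WeierstrassCurve.Affine L} (v : FinitePlace L) (P : W.Point) :
    0 ≤ psi v P := by
  cases P with
  | zero => exact le_rfl
  | some x y h => exact Real.posLog_nonneg

lemma sum_psi_le {W : WeierstrassCurve.Affine L} (F : Finset (FinitePlace L)) (P : W.Point) :
    ∑ v ∈ F, psi v P ≤ nh P := by
  cases P with
  | zero =>
    have : ∑ v ∈ F, psi v (WeierstrassCurve.Affine.Point.zero : W.Point) = 0 :=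
      Finset.sum_eq_zero fun v _ => rfl
    rw [this]
    exact nh_nonneg _
  | some x y h =>
    rw [nh_some]
    exact sum_posLog_le x F

/-- The counting step of the kissing argument. -/
theorem kiss_count [DecidableEq L] {W : WeierstrassCurve.Affine L} (B : Finset W.Point)
    (F : Finset (FinitePlace L)) (f : FinitePlace L → ℝ) (c : ℝ)
    (hf : ∀ v ∈ F, ∃ P ∈ B, ∃ Q ∈ B, f v ≤ psi v (P - Q))
    (hc : ∀ P ∈ B, ∀ Q ∈ B, nh (P - Q) ≤ c) :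
    ∑ v ∈ F, f v ≤ (B.card : ℝ) ^ 2 * c := by
  have h1 : ∀ v ∈ F, f v ≤ ∑ p ∈ B ×ˢ B, psi v (p.1 - p.2) := by
    intro v hv
    obtain ⟨P, hP, Q, hQ, h⟩ := hf v hv
    refine h.trans ?_
    exact Finset.single_le_sum (f := fun p : W.Point × W.Point => psi v (p.1 - p.2))
      (fun p _ => psi_nonneg v _) (Finset.mk_mem_product hP hQ)
  refine (Finset.sum_le_sum h1).trans ?_
  rw [Finset.sum_comm]
  have h2 : ∀ p ∈ B ×ˢ B, ∑ v ∈ F, psi v (p.1 - p.2) ≤ c := by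
    intro p hp
    rw [Finset.mem_product] at hp
    exact (sum_psi_le F _).trans (hc _ hp.1 _ hp.2)
  refine (Finset.sum_le_sum h2).trans ?_
  rw [Finset.sum_const, Finset.card_product, nsmul_eq_mul]
  push_cast
  rw [pow_two]

omit [NumberField L] in
/-- The `x`-coordinate of a difference on `y² = (x-e₁)(x-e₂)(x-e₃)`. -/
theorem WE_sub [DecidableEq L] {e₁ e₂ e₃ x₁ y₁ x₂ y₂ : L}
    (h₁ : (WE e₁ e₂ e₃).toAffine.Nonsingular x₁ y₁)
    (h₂ : (WE e₁ e₂ e₃).toAffine.Nonsingular x₂ y₂) (hx : x₁ ≠ x₂) :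
    ∃ (y : L) (h : (WE e₁ e₂ e₃).toAffine.Nonsingular
      (((y₁ + y₂) / (x₁ - x₂)) ^ 2 + (e₁ + e₂ + e₃) - x₁ - x₂) y),
      WeierstrassCurve.Affine.Point.some x₁ y₁ h₁ - WeierstrassCurve.Affine.Point.some x₂ y₂ h₂ =
        WeierstrassCurve.Affine.Point.some _ y h := by
  have h3 : (WE e₁ e₂ e₃).toAffine.addX x₁ x₂ ((WE e₁ e₂ e₃).toAffine.slope x₁ x₂ y₁
      ((WE e₁ e₂ e₃).toAffine.negY x₂ y₂)) =
      ((y₁ + y₂) / (x₁ - x₂)) ^ 2 + (e₁ + e₂ + e₃) - x₁ - x₂ := by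
    rw [WeierstrassCurve.Affine.slope_of_X_ne hx, WeierstrassCurve.Affine.addX,
      WeierstrassCurve.Affine.negY]
    simp only [WE]
    ring
  have h4 : WeierstrassCurve.Affine.Point.some x₁ y₁ h₁ -
      WeierstrassCurve.Affine.Point.some x₂ y₂ h₂ = WeierstrassCurve.Affine.Point.some _ _
        (WeierstrassCurve.Affine.nonsingular_add h₁
          ((WeierstrassCurve.Affine.nonsingular_neg ..).mpr h₂) fun hxy => hx hxy.left) := by
    rw [sub_eq_add_neg (WeierstrassCurve.Affine.Point.some x₁ y₁ h₁),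
      WeierstrassCurve.Affine.Point.neg_some, WeierstrassCurve.Affine.Point.add_of_X_ne hx]
  rw [← h3]
  exact ⟨_, _, h4⟩

lemma WE_nonsing {e₁ e₂ e₃ x y : L} (h : y ^ 2 = (x - e₁) * (x - e₂) * (x - e₃)) (hy : y ≠ 0) :
    (WE e₁ e₂ e₃).toAffine.Nonsingular x y := by
  rw [WeierstrassCurve.Affine.nonsingular_iff']
  constructor
  · rw [WeierstrassCurve.Affine.equation_iff]
    simp only [WE]
    linear_combination h
  · right
    simp only [WE]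
    simpa using hy

/-- Local lower bound for the height of a difference. -/
theorem psi_ge [DecidableEq L] (v : FinitePlace L) {e₁ e₂ e₃ x₁ y₁ x₂ y₂ : L} {r : ℝ}
    (h₁ : (WE e₁ e₂ e₃).toAffine.Nonsingular x₁ y₁)
    (h₂ : (WE e₁ e₂ e₃).toAffine.Nonsingular x₂ y₂) (hx : x₁ ≠ x₂)
    (hX : v (x₁ - x₂) ^ 2 ≤ r) (hr : r < 1) (hY : v (y₁ + y₂) = 1)
    (he : v (e₁ + e₂ + e₃) ≤ 1) (hx₁ : v x₁ ≤ 1) (hx₂ : v x₂ ≤ 1) :
    -Real.log r ≤ psi v (WeierstrassCurve.Affine.Point.some x₁ y₁ h₁ -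
      WeierstrassCurve.Affine.Point.some x₂ y₂ h₂) := by
  obtain ⟨y, h, heq⟩ := WE_sub h₁ h₂ hx
  rw [heq]
  change -Real.log r ≤ log⁺ (v (((y₁ + y₂) / (x₁ - x₂)) ^ 2 + (e₁ + e₂ + e₃) - x₁ - x₂))
  have hpos : 0 < v (x₁ - x₂) := v_pos v (sub_ne_zero.mpr hx)
  have hpos2 : 0 < v (x₁ - x₂) ^ 2 := by positivity
  have hu : v (((y₁ + y₂) / (x₁ - x₂)) ^ 2) = (v (x₁ - x₂) ^ 2)⁻¹ := by
    rw [map_pow, map_div₀, hY, one_div, inv_pow]
  have hu1 : 1 < v (((y₁ + y₂) / (x₁ - x₂)) ^ 2) := by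
    rw [hu]
    exact (one_lt_inv₀ hpos2).mpr (lt_of_le_of_lt hX hr)
  have hs : v (e₁ + e₂ + e₃ - x₁ - x₂) ≤ 1 :=
    (v_sub_le v _ _).trans (max_le ((v_sub_le v _ _).trans (max_le he hx₁)) hx₂)
  have hz : v (((y₁ + y₂) / (x₁ - x₂)) ^ 2 + (e₁ + e₂ + e₃) - x₁ - x₂) =
      (v (x₁ - x₂) ^ 2)⁻¹ := by
    rw [← hu, show ((y₁ + y₂) / (x₁ - x₂)) ^ 2 + (e₁ + e₂ + e₃) - x₁ - x₂ =
      ((y₁ + y₂) / (x₁ - x₂)) ^ 2 + (e₁ + e₂ + e₃ - x₁ - x₂) by ring]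
    exact v_add_eq v (lt_of_le_of_lt hs hu1)
  rw [hz]
  have h5 : Real.log (v (x₁ - x₂) ^ 2)⁻¹ ≤ log⁺ (v (x₁ - x₂) ^ 2)⁻¹ := by
    rw [Real.posLog]
    exact le_max_right _ _
  refine le_trans ?_ h5
  rw [Real.log_inv]
  have := Real.log_le_log hpos2 hX
  linarith

end general

section sq

variable {L : Type} [Field L] [NumberField L]

omit [NumberField L] in
lemma sq_curve (b₀ b₁ b₂ b₃ t w : L) (h : t - b₃ ≠ 0)
    (hw : (t - b₀) * (t - b₁) * (t - b₂) * (t - b₃) = w ^ 2) :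
    ((b₃ - b₀) * (b₃ - b₁) * (b₃ - b₂) * w / (t - b₃) ^ 2) ^ 2 =
      ((b₃ - b₀) * (b₃ - b₁) * (b₃ - b₂) / (t - b₃) - -((b₃ - b₁) * (b₃ - b₂))) *
      ((b₃ - b₀) * (b₃ - b₁) * (b₃ - b₂) / (t - b₃) - -((b₃ - b₀) * (b₃ - b₂))) *
      ((b₃ - b₀) * (b₃ - b₁) * (b₃ - b₂) / (t - b₃) - -((b₃ - b₀) * (b₃ - b₁))) := by
  have h4 : (t - b₃) ^ 4 ≠ 0 := pow_ne_zero 4 h
  field_simp
  linear_combination (-(b₃ - b₀) ^ 2 * (b₃ - b₁) ^ 2 * (b₃ - b₂) ^ 2) * hw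

lemma le1_add (v : FinitePlace L) {a b : L} (ha : v a ≤ 1) (hb : v b ≤ 1) : v (a + b) ≤ 1 :=
  (v_add_le v a b).trans (max_le ha hb)

lemma le1_sub (v : FinitePlace L) {a b : L} (ha : v a ≤ 1) (hb : v b ≤ 1) : v (a - b) ≤ 1 :=
  (v_sub_le v a b).trans (max_le ha hb)

lemma le1_mul (v : FinitePlace L) {a b : L} (ha : v a ≤ 1) (hb : v b ≤ 1) : v (a * b) ≤ 1 := by
  rw [map_mul]
  exact mul_le_one₀ ha (v_nonneg v b) hb

lemma lt1_mul (v : FinitePlace L) {a b : L} (ha : v a < 1) (hb : v b ≤ 1) : v (a * b) < 1 := by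
  rw [map_mul]
  exact mul_lt_one_of_nonneg_of_lt_one_left (v_nonneg v a) ha hb

lemma lt1_add (v : FinitePlace L) {a b : L} (ha : v a < 1) (hb : v b < 1) : v (a + b) < 1 :=
  lt_of_le_of_lt (v_add_le v a b) (max_lt ha hb)

lemma lt1_sub (v : FinitePlace L) {a b : L} (ha : v a < 1) (hb : v b < 1) : v (a - b) < 1 :=
  lt_of_le_of_lt (v_sub_le v a b) (max_lt ha hb)

lemma sq_pair (v : FinitePlace L) {e₁ e₂ e₃ X₁ Y₁ X₂ Y₂ : L}
    (h₁ : Y₁ ^ 2 = (X₁ - e₁) * (X₁ - e₂) * (X₁ - e₃))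
    (h₂ : Y₂ ^ 2 = (X₂ - e₁) * (X₂ - e₂) * (X₂ - e₃))
    (he₁ : v e₁ ≤ 1) (he₂ : v e₂ ≤ 1) (he₃ : v e₃ ≤ 1) (hx₁ : v X₁ ≤ 1) (hx₂ : v X₂ ≤ 1)
    (hX : v (X₁ - X₂) < 1) : v (Y₁ - Y₂) < 1 ∨ v (Y₁ + Y₂) < 1 := by
  by_contra hcon
  push Not at hcon
  obtain ⟨h3, h4⟩ := hcon
  have h5 : (Y₁ - Y₂) * (Y₁ + Y₂) = (X₁ - X₂) * (X₁ * X₁ + X₁ * X₂ + X₂ * X₂ -
      (e₁ + e₂ + e₃) * (X₁ + X₂) + (e₁ * e₂ + e₁ * e₃ + e₂ * e₃)) := by
    linear_combination h₁ - h₂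
  have h6 : v ((Y₁ - Y₂) * (Y₁ + Y₂)) < 1 := by
    rw [h5]
    refine lt1_mul v hX ?_
    refine le1_add v (le1_sub v (le1_add v (le1_add v (le1_mul v hx₁ hx₁) (le1_mul v hx₁ hx₂))
      (le1_mul v hx₂ hx₂)) (le1_mul v (le1_add v (le1_add v he₁ he₂) he₃)
      (le1_add v hx₁ hx₂))) ?_
    exact le1_add v (le1_add v (le1_mul v he₁ he₂) (le1_mul v he₁ he₃)) (le1_mul v he₂ he₃)
  rw [map_mul] at h6
  have h7 : 1 ≤ v (Y₁ - Y₂) * v (Y₁ + Y₂) := one_le_mul_of_one_le_of_one_le h3 h4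
  linarith

lemma v_sum_eq_one (v : FinitePlace L) (h2 : v (2 : L) = 1) {Y₁ Y₂ : L} (hY : v Y₁ = 1)
    (h : v (Y₁ - Y₂) < 1) : v (Y₁ + Y₂) = 1 := by
  have h3 : v (2 * Y₁) = 1 := by rw [map_mul, h2, hY, one_mul]
  have h4 : Y₁ + Y₂ = 2 * Y₁ - (Y₁ - Y₂) := by ring
  rw [h4, v_sub_eq v (by rw [h3]; exact h), h3]

/-- Among three points with close `x`-coordinates two have close `y`-coordinates. -/
lemma sq_three (v : FinitePlace L) {Y₁ Y₂ Y₃ : L}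
    (h₁₂ : v (Y₁ - Y₂) < 1 ∨ v (Y₁ + Y₂) < 1) (h₁₃ : v (Y₁ - Y₃) < 1 ∨ v (Y₁ + Y₃) < 1) :
    v (Y₁ - Y₂) < 1 ∨ v (Y₁ - Y₃) < 1 ∨ v (Y₂ - Y₃) < 1 := by
  rcases h₁₂ with h | h
  · exact Or.inl h
  · rcases h₁₃ with h' | h'
    · exact Or.inr (Or.inl h')
    · refine Or.inr (Or.inr ?_)
      have h4 : Y₂ - Y₃ = (Y₁ + Y₂) - (Y₁ + Y₃) := by ring
      rw [h4]
      exact lt1_sub v h h'

/-- The point attached to a square value. -/
def Rel (b₀ b₁ b₂ b₃ t : L) (P : (WE (-((b₃ - b₁) * (b₃ - b₂))) (-((b₃ - b₀) * (b₃ - b₂)))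
    (-((b₃ - b₀) * (b₃ - b₁)))).toAffine.Point) : Prop :=
  t - b₃ ≠ 0 ∧ ∃ w : L, w ≠ 0 ∧ (t - b₀) * (t - b₁) * (t - b₂) * (t - b₃) = w ^ 2 ∧
    ∃ h, P = WeierstrassCurve.Affine.Point.some ((b₃ - b₀) * (b₃ - b₁) * (b₃ - b₂) / (t - b₃))
      ((b₃ - b₀) * (b₃ - b₁) * (b₃ - b₂) * w / (t - b₃) ^ 2) h

lemma exists_rel {b₀ b₁ b₂ b₃ t w : L} (h30 : b₃ - b₀ ≠ 0) (h31 : b₃ - b₁ ≠ 0)
    (h32 : b₃ - b₂ ≠ 0) (hw : w ≠ 0)
    (h : (t - b₀) * (t - b₁) * (t - b₂) * (t - b₃) = w ^ 2) : ∃ P, Rel b₀ b₁ b₂ b₃ t P := by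
  have h1 : t - b₃ ≠ 0 := by
    rintro h0
    rw [h0, mul_zero] at h
    exact hw (pow_eq_zero_iff two_ne_zero |>.mp h.symm)
  have h2 := sq_curve b₀ b₁ b₂ b₃ t w h1 h
  have h3 : (b₃ - b₀) * (b₃ - b₁) * (b₃ - b₂) * w / (t - b₃) ^ 2 ≠ 0 :=
    div_ne_zero (mul_ne_zero (mul_ne_zero (mul_ne_zero h30 h31) h32) hw) (pow_ne_zero 2 h1)
  exact ⟨_, h1, w, hw, h, WE_nonsing h2 h3, rfl⟩

/-- The local estimate for two of three points. -/
lemma rel_local [DecidableEq L] (v : FinitePlace L) {b₀ b₁ b₂ b₃ : L} (h2 : v (2 : L) = 1)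
    (hb₀ : v b₀ = 1) (hb₁ : v b₁ = 1) (hb₂ : v b₂ = 1) (hb₃ : v b₃ = 1)
    (h30 : v (b₃ - b₀) = 1) (h31 : v (b₃ - b₁) = 1) (h32 : v (b₃ - b₂) = 1)
    {r : ℝ} (hr : r < 1) {t : Fin 3 → L} (ht : Function.Injective t)
    (htr : ∀ i, v (t i) ^ 2 ≤ r) {P : Fin 3 → (WE (-((b₃ - b₁) * (b₃ - b₂)))
      (-((b₃ - b₀) * (b₃ - b₂))) (-((b₃ - b₀) * (b₃ - b₁)))).toAffine.Point}
    (hP : ∀ i, Rel b₀ b₁ b₂ b₃ (t i) (P i)) :
    ∃ i j, -Real.log r ≤ psi v (P i - P j) := by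
  classical
  have ht1 : ∀ i, v (t i) < 1 := by
    intro i
    by_contra hcon
    push Not at hcon
    have := one_le_pow₀ hcon (n := 2)
    linarith [htr i]
  have hsub : ∀ (b : L), v b = 1 → ∀ i, v (t i - b) = 1 := by
    intro b hb i
    rw [v_sub_comm, v_sub_eq v (by rw [hb]; exact ht1 i), hb]
  have hA : v ((b₃ - b₀) * (b₃ - b₁) * (b₃ - b₂)) = 1 := by
    rw [map_mul, map_mul, h30, h31, h32, one_mul, one_mul]
  have hA0 : (b₃ - b₀) * (b₃ - b₁) * (b₃ - b₂) ≠ 0 := by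
    intro h
    rw [h, map_zero] at hA
    exact zero_ne_one hA
  have he₁ : v (-((b₃ - b₁) * (b₃ - b₂))) ≤ 1 := by rw [v_neg, map_mul, h31, h32, one_mul]
  have he₂ : v (-((b₃ - b₀) * (b₃ - b₂))) ≤ 1 := by rw [v_neg, map_mul, h30, h32, one_mul]
  have he₃ : v (-((b₃ - b₀) * (b₃ - b₁))) ≤ 1 := by rw [v_neg, map_mul, h30, h31, one_mul]
  choose h3 w hw hw2 hns hPe using hP
  set X : Fin 3 → L := fun i => (b₃ - b₀) * (b₃ - b₁) * (b₃ - b₂) / (t i - b₃) with hXdef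
  set Y : Fin 3 → L := fun i => (b₃ - b₀) * (b₃ - b₁) * (b₃ - b₂) * w i / (t i - b₃) ^ 2
    with hYdef
  have hvw : ∀ i, v (w i) = 1 := by
    intro i
    have h4 := congrArg v (hw2 i)
    rw [map_mul, map_mul, map_mul, hsub b₀ hb₀, hsub b₁ hb₁, hsub b₂ hb₂, hsub b₃ hb₃, map_pow,
      one_mul, one_mul, one_mul] at h4
    exact (pow_eq_one_iff_of_nonneg (v_nonneg v _) two_ne_zero).mp h4.symm
  have hvX : ∀ i, v (X i) = 1 := by
    intro i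
    rw [hXdef]
    simp only
    rw [map_div₀, hA, hsub b₃ hb₃, div_one]
  have hvY : ∀ i, v (Y i) = 1 := by
    intro i
    rw [hYdef]
    simp only
    rw [map_div₀, map_mul, hA, hvw, map_pow, hsub b₃ hb₃, one_pow, div_one, one_mul]
  have hcur : ∀ i, Y i ^ 2 = (X i - -((b₃ - b₁) * (b₃ - b₂))) * (X i - -((b₃ - b₀) * (b₃ - b₂))) *
      (X i - -((b₃ - b₀) * (b₃ - b₁))) := fun i =>
    sq_curve b₀ b₁ b₂ b₃ (t i) (w i) (h3 i) (hw2 i)
  have hXX : ∀ i j, v (X i - X j) ^ 2 ≤ r := by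
    intro i j
    have h5 : X i - X j = (b₃ - b₀) * (b₃ - b₁) * (b₃ - b₂) * (t j - t i) /
        ((t i - b₃) * (t j - b₃)) := by
      rw [hXdef]
      simp only
      have := h3 i
      have := h3 j
      field_simp
      ring
    have h6 : v (X i - X j) = v (t j - t i) := by
      rw [h5, map_div₀, map_mul, hA, map_mul, hsub b₃ hb₃, hsub b₃ hb₃]
      simp
    rw [h6]
    rcases le_max_iff.mp (v_sub_le v (t j) (t i)) with h7 | h7
    · exact (pow_le_pow_left₀ (v_nonneg v _) h7 2).trans (htr j)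
    · exact (pow_le_pow_left₀ (v_nonneg v _) h7 2).trans (htr i)
  have hXX1 : ∀ i j, v (X i - X j) < 1 := by
    intro i j
    by_contra hcon
    push Not at hcon
    have := one_le_pow₀ hcon (n := 2)
    linarith [hXX i j]
  have hne : ∀ i j, i ≠ j → X i ≠ X j := by
    intro i j hij hX
    apply hij
    apply ht
    rw [hXdef] at hX
    simp only at hX
    rw [div_eq_div_iff (h3 i) (h3 j)] at hX
    have := mul_left_cancel₀ hA0 hX
    linear_combination -this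
  have hpair : ∀ i j, v (Y i - Y j) < 1 ∨ v (Y i + Y j) < 1 := fun i j =>
    sq_pair v (hcur i) (hcur j) he₁ he₂ he₃ (hvX i).le (hvX j).le (hXX1 i j)
  have hfin : ∀ i j, i ≠ j → v (Y i - Y j) < 1 → -Real.log r ≤ psi v (P i - P j) := by
    intro i j hij hY
    rw [hPe i, hPe j]
    exact psi_ge v (hns i) (hns j) (hne i j hij) (hXX i j) hr
      (v_sum_eq_one v h2 (hvY i) hY) (le1_add v (le1_add v he₁ he₂) he₃) (hvX i).le (hvX j).le
  rcases sq_three v (hpair 0 1) (hpair 0 2) with h | h | h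
  · exact ⟨0, 1, hfin 0 1 (by decide) h⟩
  · exact ⟨0, 2, hfin 0 2 (by decide) h⟩
  · exact ⟨1, 2, hfin 1 2 (by decide) h⟩

omit [Field L] [NumberField L] in
lemma inj_three {t₁ t₂ t₃ : L} (d12 : t₁ ≠ t₂) (d13 : t₁ ≠ t₃) (d23 : t₂ ≠ t₃) :
    Function.Injective ![t₁, t₂, t₃] := by
  intro i j hij
  fin_cases i <;> fin_cases j
  · rfl
  · exact absurd hij d12
  · exact absurd hij d13
  · exact absurd hij.symm d12
  · rfl
  · exact absurd hij d23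
  · exact absurd hij.symm d13
  · exact absurd hij.symm d23
  · rfl

/-- The kissing bound for square values of a product of four linear forms. -/
theorem kiss_sq {L : Type} [Field L] [NumberField L] [DecidableEq L]
    (hcov : ∀ e₁ e₂ e₃ : L, e₁ ≠ e₂ → e₁ ≠ e₃ → e₂ ≠ e₃ → CoverProp e₁ e₂ e₃)
    (α : Fin 4 → L) (hα : Function.Injective α) (h0 : ∀ i, α i ≠ 0) :
    Kiss L {t | t ≠ 0 ∧ ∃ w : L, w ≠ 0 ∧ ∏ i, (t - α i) = w ^ 2} := by
  classical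
  obtain ⟨b₀, hb₀⟩ : ∃ b, b = α 0 := ⟨_, rfl⟩
  obtain ⟨b₁, hb₁⟩ : ∃ b, b = α 1 := ⟨_, rfl⟩
  obtain ⟨b₂, hb₂⟩ : ∃ b, b = α 2 := ⟨_, rfl⟩
  obtain ⟨b₃, hb₃⟩ : ∃ b, b = α 3 := ⟨_, rfl⟩
  have n₀ : b₀ ≠ 0 := hb₀ ▸ h0 0
  have n₁ : b₁ ≠ 0 := hb₁ ▸ h0 1
  have n₂ : b₂ ≠ 0 := hb₂ ▸ h0 2
  have n₃ : b₃ ≠ 0 := hb₃ ▸ h0 3
  have n30 : b₃ - b₀ ≠ 0 := by
    rw [hb₃, hb₀]
    exact sub_ne_zero.mpr (hα.ne (by decide))
  have n31 : b₃ - b₁ ≠ 0 := by
    rw [hb₃, hb₁]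
    exact sub_ne_zero.mpr (hα.ne (by decide))
  have n32 : b₃ - b₂ ≠ 0 := by
    rw [hb₃, hb₂]
    exact sub_ne_zero.mpr (hα.ne (by decide))
  have n10 : b₁ - b₀ ≠ 0 := by
    rw [hb₁, hb₀]
    exact sub_ne_zero.mpr (hα.ne (by decide))
  have n20 : b₂ - b₀ ≠ 0 := by
    rw [hb₂, hb₀]
    exact sub_ne_zero.mpr (hα.ne (by decide))
  have n21 : b₂ - b₁ ≠ 0 := by
    rw [hb₂, hb₁]
    exact sub_ne_zero.mpr (hα.ne (by decide))
  obtain ⟨S, hS⟩ := UBC90787a.exists_finset_places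
    ({2, b₀, b₁, b₂, b₃, b₃ - b₀, b₃ - b₁, b₃ - b₂} : Finset L)
  refine ⟨S, fun κ C₁ hκ => ?_⟩
  set c : ℝ := logHeight₁ ((b₃ - b₀) * (b₃ - b₁) * (b₃ - b₂)) + totalWeight L * Real.log 2 +
    logHeight₁ b₃ with hc
  have hc0 : 0 ≤ c := by
    have h1 := zero_le_logHeight₁ ((b₃ - b₀) * (b₃ - b₁) * (b₃ - b₂))
    have h2 := zero_le_logHeight₁ b₃
    have h3 : 0 ≤ totalWeight L * Real.log 2 :=
      mul_nonneg (Nat.cast_nonneg _) (Real.log_nonneg (by norm_num))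
    rw [hc]
    linarith
  have hC : 0 < |C₁| + c + 1 := by positivity
  have hδ : 0 < κ / (20 * (|C₁| + c + 1)) := by positivity
  obtain ⟨N, M₀, hN⟩ := hcov (-((b₃ - b₁) * (b₃ - b₂))) (-((b₃ - b₀) * (b₃ - b₂)))
    (-((b₃ - b₀) * (b₃ - b₁)))
    (fun h => (mul_ne_zero n32 n10) (by linear_combination h))
    (fun h => (mul_ne_zero n31 n20) (by linear_combination h))
    (fun h => (mul_ne_zero n30 n21) (by linear_combination h)) _ 3 hδ
  refine ⟨N, max 1 M₀, fun H hH x₀ A F hF hsum hA => ?_⟩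
  by_contra hcard
  push Not at hcard
  have hH1 : 1 ≤ H := (le_max_left _ _).trans hH
  have hHM : M₀ ≤ H := (le_max_right _ _).trans hH
  have hex : ∀ t ∈ A, ∃ P, Rel b₀ b₁ b₂ b₃ t P := by
    intro t ht
    obtain ⟨⟨_, w, hw, hw2⟩, _, _⟩ := hA t ht
    rw [Fin.prod_univ_four, ← hb₀, ← hb₁, ← hb₂, ← hb₃] at hw2
    exact exists_rel n30 n31 n32 hw hw2
  choose! φ hφ using hex
  have hA0 : (b₃ - b₀) * (b₃ - b₁) * (b₃ - b₂) ≠ 0 := mul_ne_zero (mul_ne_zero n30 n31) n32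
  have hinj : Set.InjOn φ A := by
    intro t ht t' ht' heq
    obtain ⟨h1, w, _, _, _, h2⟩ := hφ t ht
    obtain ⟨h1', w', _, _, _, h2'⟩ := hφ t' ht'
    rw [h2, h2', WeierstrassCurve.Affine.Point.some.injEq] at heq
    have h3 := heq.1
    rw [div_eq_div_iff h1 h1'] at h3
    have := mul_left_cancel₀ hA0 h3
    linear_combination -this
  have hM : M₀ ≤ (|C₁| + c + 1) * H := by
    have : 1 * H ≤ (|C₁| + c + 1) * H := by
      apply mul_le_mul_of_nonneg_right _ (by linarith)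
      have := abs_nonneg C₁
      linarith
    linarith
  have hht : ∀ P ∈ A.image φ, nh P ≤ (|C₁| + c + 1) * H := by
    intro P hP
    obtain ⟨t, ht, rfl⟩ := Finset.mem_image.mp hP
    obtain ⟨h1, w, _, _, _, h2⟩ := hφ t ht
    rw [h2, nh_some, div_eq_mul_inv]
    have h3 := logHeight₁_mul_le ((b₃ - b₀) * (b₃ - b₁) * (b₃ - b₂)) (t - b₃)⁻¹
    rw [logHeight₁_inv] at h3
    have h4 := logHeight₁_sub_le t b₃
    have h5 := (hA t ht).2.1
    have h6 : C₁ * H ≤ |C₁| * H := mul_le_mul_of_nonneg_right (le_abs_self _) (by linarith)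
    have h7 : c * 1 ≤ c * H := mul_le_mul_of_nonneg_left hH1 hc0
    nlinarith
  obtain ⟨B, hBA, hB3, hB⟩ := hN _ hM (A.image φ) hht
    (by rwa [Finset.card_image_of_injOn hinj])
  obtain ⟨P₁, P₂, P₃, h12, h13, h23, hBe⟩ := Finset.card_eq_three.mp hB3
  have hmem : ∀ P ∈ B, ∃ t ∈ A, φ t = P := fun P hP => Finset.mem_image.mp (hBA hP)
  obtain ⟨t₁, ht₁, e₁⟩ := hmem P₁ (by rw [hBe]; simp)
  obtain ⟨t₂, ht₂, e₂⟩ := hmem P₂ (by rw [hBe]; simp)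
  obtain ⟨t₃, ht₃, e₃⟩ := hmem P₃ (by rw [hBe]; simp)
  have hkc := kiss_count B F (fun v => -Real.log (v x₀))
    (κ / (20 * (|C₁| + c + 1)) * ((|C₁| + c + 1) * H)) (fun v hv => ?_) hB
  · rw [hB3] at hkc
    have h8 : κ / (20 * (|C₁| + c + 1)) * ((|C₁| + c + 1) * H) = κ / 20 * H := by
      field_simp
    rw [h8] at hkc
    have h9 : 0 < κ * H := by positivity
    push_cast at hkc
    nlinarith
  · obtain ⟨hvS, hvx⟩ := hF v hv
    have hg := hS v hvS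
    have hloc := rel_local v (b₀ := b₀) (b₁ := b₁) (b₂ := b₂) (b₃ := b₃)
      (hg 2 (by simp) two_ne_zero) (hg b₀ (by simp) n₀) (hg b₁ (by simp) n₁)
      (hg b₂ (by simp) n₂) (hg b₃ (by simp) n₃) (hg _ (by simp) n30) (hg _ (by simp) n31)
      (hg _ (by simp) n32) hvx (t := ![t₁, t₂, t₃]) ?_ ?_ (P := ![P₁, P₂, P₃]) ?_
    · obtain ⟨i, j, hij⟩ := hloc
      have hin : ∀ i, (![P₁, P₂, P₃] : Fin 3 → _) i ∈ B := by
        intro i
        rw [hBe]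
        fin_cases i <;> simp
      exact ⟨_, hin i, _, hin j, hij⟩
    · have d12 : t₁ ≠ t₂ := fun h => h12 (by rw [← e₁, ← e₂, h])
      have d13 : t₁ ≠ t₃ := fun h => h13 (by rw [← e₁, ← e₃, h])
      have d23 : t₂ ≠ t₃ := fun h => h23 (by rw [← e₂, ← e₃, h])
      exact inj_three d12 d13 d23
    · intro i
      fin_cases i
      · exact (hA t₁ ht₁).2.2 v hv
      · exact (hA t₂ ht₂).2.2 v hv
      · exact (hA t₃ ht₃).2.2 v hv
    · intro i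
      fin_cases i
      · exact e₁ ▸ hφ t₁ ht₁
      · exact e₂ ▸ hφ t₂ ht₂
      · exact e₃ ▸ hφ t₃ ht₃

end sq

end Pool.Agent.MP90787a.T
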