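import Pool.Agent.Lib.MP_90787a_nt.T.Defs

set_option autoImplicit false

/-!
The approximate parallelogram law and the Northcott property for the naive height on
Weierstrass curves over number fields.
-/

namespace Pool.Agent.MP90787a.T

open NumberField Height

section Algebra

open WeierstrassCurve WeierstrassCurve.Affine WeierstrassCurve.Affine.Point

variable {F : Type*} [Field F]

/-- The three coordinates of the addition-and-subtraction map. -/
theorem addSubMap_eval (W : WeierstrassCurve F) (s t u : F) :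
    (fun i => (W.addSubMap i).eval ![s, t, u]) =
      ![s ^ 2 - W.b₄ * s * u - W.b₆ * t * u - W.b₈ * u ^ 2,
        2 * t * s + W.b₂ * s * u + W.b₄ * t * u + W.b₆ * u ^ 2,
        t ^ 2 - 4 * s * u] := by
  funext i
  fin_cases i <;> simp [addSubMap]

variable [DecidableEq F]

theorem sub_some_eq {W : WeierstrassCurve F} {x₁ x₂ y₁ y₂ : F}
    (h₁ : W.toAffine.Nonsingular x₁ y₁) (h₂ : W.toAffine.Nonsingular x₂ y₂) :
    some _ _ h₁ - some _ _ h₂ =
      some _ _ h₁ + some _ _ ((nonsingular_neg ..).mpr h₂) := by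
  rw [sub_eq_add_neg, neg_some]

/-- The generic case. -/
theorem claim_ne {W : WeierstrassCurve F} {x₁ x₂ y₁ y₂ : F}
    (h₁ : W.toAffine.Nonsingular x₁ y₁) (h₂ : W.toAffine.Nonsingular x₂ y₂) (hx : x₁ ≠ x₂) :
    (fun i => (W.addSubMap i).eval ((some _ _ h₁).sym2x (some _ _ h₂))) =
      ((x₁ - x₂) ^ 2) • (some _ _ h₁ + some _ _ h₂).sym2x (some _ _ h₁ - some _ _ h₂) := by
  rw [sub_some_eq, add_of_X_ne hx, add_of_X_ne hx, sym2x_some_some, sym2x_some_some,
    addSubMap_eval, slope_of_X_ne hx, slope_of_X_ne hx]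
  have e₁ := (W.toAffine.equation_iff x₁ y₁).1 h₁.1
  have e₂ := (W.toAffine.equation_iff x₂ y₂).1 h₂.1
  have hd : x₁ - x₂ ≠ 0 := sub_ne_zero.2 hx
  simp only [addX, negY, b₂, b₄, b₆, b₈]
  funext i
  fin_cases i
  · simp
    field_simp
    grind
  · simp
    field_simp
    grind
  · simp
    ring

/-- Doubling a point of order `≠ 2`. -/
theorem claim_self_ne {W : WeierstrassCurve F} {x y : F}
    (h : W.toAffine.Nonsingular x y) (hy : y ≠ W.toAffine.negY x y) :
    (fun i => (W.addSubMap i).eval ((some _ _ h).sym2x (some _ _ h))) =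
      ((y - W.toAffine.negY x y) ^ 2) • (some _ _ h + some _ _ h).sym2x (some _ _ h - some _ _ h) := by
  rw [sub_self, add_self_of_Y_ne hy, sym2x_some_zero, sym2x_some_some,
    addSubMap_eval, slope_of_Y_ne rfl hy]
  have e := (W.toAffine.equation_iff x y).1 h.1
  have hd : y - W.toAffine.negY x y ≠ 0 := sub_ne_zero.2 hy
  obtain ⟨l, hl⟩ : ∃ l, l = (3 * x ^ 2 + 2 * W.toAffine.a₂ * x + W.toAffine.a₄ -
      W.toAffine.a₁ * y) / (y - W.toAffine.negY x y) := ⟨_, rfl⟩
  rw [← hl]
  rw [eq_div_iff hd] at hl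
  simp only [addX, negY, b₂, b₄, b₆, b₈] at hl ⊢
  have key : (y - (-y - W.a₁ * x - W.a₃)) ^ 2 * (l ^ 2 + W.a₁ * l - W.a₂ - x - x) =
      (3 * x ^ 2 + 2 * W.a₂ * x + W.a₄ - W.a₁ * y) ^ 2 + W.a₁ * (3 * x ^ 2 + 2 * W.a₂ * x + W.a₄ -
      W.a₁ * y) * (y - (-y - W.a₁ * x - W.a₃)) - (W.a₂ + x + x) *
        (y - (-y - W.a₁ * x - W.a₃)) ^ 2 := by
    rw [← hl]
    ring
  funext i
  fin_cases i
  · simp
    rw [key]
    grind
  · simp
    grind
  · simp
    ring

variable (W : WeierstrassCurve F) [W.IsElliptic]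

/-- Doubling a point of order `2`. -/
theorem claim_self_eq {x y : F}
    (h : W.toAffine.Nonsingular x y) (hy : y = W.toAffine.negY x y) :
    ∃ c : F, c ≠ 0 ∧ (fun i => (W.addSubMap i).eval ((some _ _ h).sym2x (some _ _ h))) =
      c • (some _ _ h + some _ _ h).sym2x (some _ _ h - some _ _ h) := by
  have hne := addSubMap_ne_zero (W := W) (sym2x_ne_zero (some _ _ h) (some _ _ h))
  rw [sub_self, add_self_of_Y_eq hy, sym2x_zero_zero]
  rw [sym2x_some_some, addSubMap_eval] at hne ⊢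
  have e := (W.toAffine.equation_iff x y).1 h.1
  have e1 : 2 * (x + x) * (x * x) + W.b₂ * (x * x) * 1 + W.b₄ * (x + x) * 1 + W.b₆ * 1 ^ 2 = 0 := by
    simp only [negY] at hy
    simp only [b₂, b₄, b₆]
    grind
  have e2 : (x + x) ^ 2 - 4 * (x * x) * 1 = 0 := by ring
  rw [e1, e2] at hne ⊢
  refine ⟨(x * x) ^ 2 - W.b₄ * (x * x) * 1 - W.b₆ * (x + x) * 1 - W.b₈ * 1 ^ 2,
    fun h0 => hne ?_, ?_⟩
  · rw [h0]
    funext i
    fin_cases i <;> simp
  · funext i
    fin_cases i <;> simp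

/-- The addition-and-subtraction map does what it is claimed to do. -/
theorem claim (P Q : W.toAffine.Point) :
    ∃ c : F, c ≠ 0 ∧ (fun i => (W.addSubMap i).eval (P.sym2x Q)) =
      c • (P + Q).sym2x (P - Q) := by
  have hself : ∀ P : W.toAffine.Point,
      ∃ c : F, c ≠ 0 ∧ (fun i => (W.addSubMap i).eval (P.sym2x P)) =
      c • (P + P).sym2x (P - P) := by
    intro P
    rcases P with _ | ⟨x, y, h⟩
    · refine ⟨1, one_ne_zero, ?_⟩
      rw [← zero_def, sub_self, add_zero, sym2x_zero_zero, addSubMap_eval]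
      funext i
      fin_cases i <;> simp
    · by_cases hy : y = W.toAffine.negY x y
      · exact claim_self_eq W h hy
      · exact ⟨_, pow_ne_zero 2 (sub_ne_zero.2 hy), claim_self_ne h hy⟩
  by_cases h1 : P = Q
  · subst h1
    exact hself P
  by_cases h2 : P = -Q
  · subst h2
    obtain ⟨c, hc, he⟩ := hself Q
    refine ⟨c, hc, ?_⟩
    rw [sym2x_neg_left, he, sub_self, neg_add_cancel, sub_eq_add_neg, ← neg_add,
      sym2x_neg_right, sym2x_comm]
  rcases P with _ | ⟨x₁, y₁, h₁⟩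
  · rw [← zero_def]
    refine ⟨1, one_ne_zero, ?_⟩
    rcases Q with _ | ⟨x₂, y₂, h₂⟩
    · exact absurd rfl h1
    rw [zero_add, zero_sub, sym2x_neg_right, sym2x_zero_some, sym2x_some_some, addSubMap_eval]
    funext i
    fin_cases i <;> simp <;> ring
  rcases Q with _ | ⟨x₂, y₂, h₂⟩
  · rw [← zero_def]
    refine ⟨1, one_ne_zero, ?_⟩
    rw [add_zero, sub_zero, sym2x_some_zero, sym2x_some_some, addSubMap_eval]
    funext i
    fin_cases i <;> simp <;> ring
  have hx : x₁ ≠ x₂ := by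
    intro hx
    rcases X_eq_iff.1 hx with h | h
    · exact h1 h
    · exact h2 h
  exact ⟨_, pow_ne_zero 2 (sub_ne_zero.2 hx), claim_ne h₁ h₂ hx⟩

end Algebra

/-- The approximate parallelogram law for the naive height. -/
theorem parallelogram {L : Type} [Field L] [NumberField L] [DecidableEq L]
    (W : WeierstrassCurve L) [W.IsElliptic] :
    ∃ C : ℝ, ∀ P Q : W.toAffine.Point, |nh (P + Q) + nh (P - Q) - 2 * (nh P + nh Q)| ≤ C := by
  obtain ⟨C₁, h₁⟩ := W.abs_logHeight_addSubMap_sub_two_mul_logHeight_le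
  obtain ⟨C₂, h₂⟩ := abs_logHeight_sym2_sub_le L
  have key : ∀ P Q : W.toAffine.Point, |logHeight (P.sym2x Q) - (nh P + nh Q)| ≤ C₂ := by
    intro P Q
    have h := @h₂ (P.xRep 0) (P.xRep 1) (Q.xRep 0) (Q.xRep 1)
    have e : ∀ R : W.toAffine.Point, ![R.xRep 0, R.xRep 1] = R.xRep := by
      intro R
      funext i
      fin_cases i <;> rfl
    rw [e, e] at h
    exact h (WeierstrassCurve.Affine.Point.xRep_ne_zero P)
      (WeierstrassCurve.Affine.Point.xRep_ne_zero Q)
  refine ⟨C₁ + C₂ + 2 * C₂, fun P Q => ?_⟩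
  obtain ⟨c, hc, he⟩ := claim W P Q
  have k1 := h₁ (P.sym2x Q)
  rw [he, logHeight_smul_eq_logHeight _ hc] at k1
  have k2 := key P Q
  have k3 := key (P + Q) (P - Q)
  rw [abs_le] at *
  constructor <;> linarith [k1.1, k1.2, k2.1, k2.2, k3.1, k3.2]

/-- The Northcott property for the naive height. -/
theorem northcott {L : Type} [Field L] [NumberField L]
    (W : WeierstrassCurve L) (B : ℝ) : {P : W.toAffine.Point | nh P ≤ B}.Finite := by
  classical
  have hfin : {x : L | logHeight₁ x ≤ B}.Finite := NumberField.finite_setOfPred_logHeight₁_le L B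
  have hS : (insert ![1, 0] ((fun x : L => ![x, 1]) '' {x : L | logHeight₁ x ≤ B})).Finite :=
    (hfin.image _).insert _
  refine Set.Finite.of_finite_fibers (fun P : W.toAffine.Point => P.xRep) ?_ ?_
  · refine hS.subset ?_
    rintro _ ⟨P, hP, rfl⟩
    rcases P with _ | ⟨x, y, h⟩
    · left
      exact WeierstrassCurve.Affine.Point.xRep_zero
    · right
      refine ⟨x, ?_, (WeierstrassCurve.Affine.Point.xRep_some h).symm⟩
      have hP' : nh (WeierstrassCurve.Affine.Point.some x y h) ≤ B := hP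
      rw [nh, WeierstrassCurve.Affine.Point.xRep_some, ← logHeight₁_eq_logHeight] at hP'
      exact hP'
  · rintro _ ⟨P, hP, rfl⟩
    refine Set.Finite.subset (Set.toFinite {P, -P}) ?_
    rintro Q ⟨_, hQ⟩
    exact WeierstrassCurve.Affine.Point.xRep_eq_xRep_iff.1 hQ

end Pool.Agent.MP90787a.T
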