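import Pool.Agent.Lib.MP_90787a_nt.T.Defs
import Pool.Agent.Lib.MP_90787a_nt.Places

set_option autoImplicit false

/-!
Points on `y² = x³ - 27/4` from cube values of products of three linear forms.
-/

namespace Pool.Agent.MP90787a.T

open NumberField Height

namespace KissCubeAux

section Local

variable {L : Type} [Field L]

/-- The valuation ring. -/
def vO (v : AbsoluteValue L ℝ) (hv : IsNonarchimedean v) : Subring L where
  carrier := {x | v x ≤ 1}
  mul_mem' := by
    intro a b ha hb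
    show v (a * b) ≤ 1
    rw [map_mul]
    exact mul_le_one₀ ha (v.nonneg b) hb
  one_mem' := by
    show v 1 ≤ 1
    rw [map_one]
  add_mem' := by
    intro a b ha hb
    exact (hv a b).trans (max_le ha hb)
  zero_mem' := by
    show v 0 ≤ 1
    rw [map_zero]; exact zero_le_one
  neg_mem' := by
    intro a ha
    show v (-a) ≤ 1
    rw [v.map_neg]; exact ha

theorem mem_vO {v : AbsoluteValue L ℝ} {hv : IsNonarchimedean v} {x : L} :
    x ∈ vO v hv ↔ v x ≤ 1 := Iff.rfl

theorem v_sub_le {v : AbsoluteValue L ℝ} (hv : IsNonarchimedean v) (a b : L) :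
    v (a - b) ≤ max (v a) (v b) := by
  rw [sub_eq_add_neg, ← v.map_neg b]
  exact hv a (-b)

theorem v_add_eq {v : AbsoluteValue L ℝ} (hv : IsNonarchimedean v) {a b : L} (ha : v a = 1)
    (hb : v b < 1) : v (a + b) = 1 := by
  apply le_antisymm
  · exact (hv a b).trans (max_le ha.le hb.le)
  · have h1 : v a ≤ max (v (a + b)) (v b) := by
      have := v_sub_le hv (a + b) b
      rwa [add_sub_cancel_right] at this
    rcases le_max_iff.mp h1 with h | h
    · rw [← ha]; exact h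
    · rw [ha] at h; exact absurd h (not_le.mpr hb)

theorem v_le_sub {v : AbsoluteValue L ℝ} (hv : IsNonarchimedean v) {a b : L} (h : v b < v a) :
    v a ≤ v (a - b) := by
  have h1 : v a ≤ max (v (a - b)) (v b) := by
    have := hv (a - b) b
    rwa [sub_add_cancel] at this
  rcases le_max_iff.mp h1 with h2 | h2
  · exact h2
  · exact absurd h2 (not_le.mpr h)

/-- Good reduction conditions. -/
structure Loc (v : AbsoluteValue L ℝ) (α β γ : L) : Prop where
  na : IsNonarchimedean v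
  h2 : v 2 = 1
  h3 : v 3 = 1
  ha : v α = 1
  hb : v β = 1
  hc : v γ = 1
  hab : v (α - β) = 1
  hbc : v (β - γ) = 1
  hca : v (γ - α) = 1
  k1 : v (2 * α * β - γ * (α + β)) = 1
  k2 : v (2 * β * γ - α * (β + γ)) = 1
  k3 : v (2 * γ * α - β * (γ + α)) = 1

/-- The three linear forms. -/
def cU (β γ α t : L) : L := (β - γ) * (t - α)

/-- The point attached to `t`. -/
structure Dat (α β γ t s X Y : L) : Prop where
  s0 : s ≠ 0
  hs : (β - γ) * (γ - α) * (α - β) * ((t - α) * (t - β) * (t - γ)) = s ^ 3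
  hX : X * s ^ 2 = cU β γ α t ^ 2 + cU β γ α t * cU γ α β t + cU γ α β t ^ 2
  hY : 2 * Y * s ^ 3 = (cU β γ α t - cU γ α β t) * (cU γ α β t - cU α β γ t) *
    (cU α β γ t - cU β γ α t)

variable {v : AbsoluteValue L ℝ} {α β γ : L}

theorem Loc.mem (h : Loc v α β γ) {x : L} (hx : v x = 1) : x ∈ vO v h.na := hx.le

theorem Loc.v_form (h : Loc v α β γ) {a b t : L} (ha : v a = 1) (hb : v b = 1) (ht : v t < 1) :
    v (a * (t - b)) = 1 := by
  rw [map_mul, ha, one_mul]
  have h1 : t - b = -b + t := by ring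
  rw [h1]
  exact v_add_eq h.na (by rw [v.map_neg]; exact hb) ht

theorem Loc.v_s (h : Loc v α β γ) {t s X Y : L} (hd : Dat α β γ t s X Y) (ht : v t < 1) :
    v s = 1 := by
  have h1 : v s ^ 3 = 1 := by
    rw [← map_pow, ← hd.hs]
    have e1 := h.v_form h.hbc h.ha ht
    have e2 := h.v_form h.hca h.hb ht
    have e3 := h.v_form h.hab h.hc ht
    have e4 : (β - γ) * (γ - α) * (α - β) * ((t - α) * (t - β) * (t - γ)) =
        ((β - γ) * (t - α)) * ((γ - α) * (t - β)) * ((α - β) * (t - γ)) := by ring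
    rw [e4, map_mul, map_mul, e1, e2, e3]; norm_num
  exact (pow_eq_one_iff_of_nonneg (v.nonneg s) (by norm_num)).mp h1

theorem Loc.v_X (h : Loc v α β γ) {t s X Y : L} (hd : Dat α β γ t s X Y) (ht : v t < 1) :
    v X ≤ 1 := by
  have hs := h.v_s hd ht
  have h1 : v (X * s ^ 2) = v X := by rw [map_mul, map_pow, hs]; norm_num
  rw [← h1, hd.hX]
  have e1 : cU β γ α t ∈ vO v h.na := (h.v_form h.hbc h.ha ht).le
  have e2 : cU γ α β t ∈ vO v h.na := (h.v_form h.hca h.hb ht).le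
  exact (vO v h.na).add_mem ((vO v h.na).add_mem ((vO v h.na).pow_mem e1 2)
    ((vO v h.na).mul_mem e1 e2)) ((vO v h.na).pow_mem e2 2)

theorem Loc.v_diff (h : Loc v α β γ) {m k t : L} (hm : v m ≤ 1) (hk : v k = 1) (ht : v t < 1) :
    v (t * m - k) = 1 := by
  have h1 : t * m - k = -k + t * m := by ring
  rw [h1]
  refine v_add_eq h.na (by rw [v.map_neg]; exact hk) ?_
  rw [map_mul]
  calc v t * v m ≤ v t * 1 := mul_le_mul_of_nonneg_left hm (v.nonneg t)
    _ < 1 := by rw [mul_one]; exact ht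

theorem Loc.v_Y (h : Loc v α β γ) {t s X Y : L} (hd : Dat α β γ t s X Y) (ht : v t < 1) :
    v Y = 1 := by
  have hs := h.v_s hd ht
  have h1 : v (2 * Y * s ^ 3) = v Y := by rw [map_mul, map_mul, map_pow, hs, h.h2]; norm_num
  rw [← h1, hd.hY]
  have hα := h.mem h.ha
  have hβ := h.mem h.hb
  have hγ := h.mem h.hc
  have h2 := h.mem h.h2
  have e1 : cU β γ α t - cU γ α β t =
      t * (α + β - 2 * γ) - (2 * α * β - γ * (α + β)) := by unfold cU; ring
  have e2 : cU γ α β t - cU α β γ t =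
      t * (β + γ - 2 * α) - (2 * β * γ - α * (β + γ)) := by unfold cU; ring
  have e3 : cU α β γ t - cU β γ α t =
      t * (γ + α - 2 * β) - (2 * γ * α - β * (γ + α)) := by unfold cU; ring
  rw [e1, e2, e3, map_mul, map_mul]
  have m1 : α + β - 2 * γ ∈ vO v h.na :=
    (vO v h.na).sub_mem ((vO v h.na).add_mem hα hβ) ((vO v h.na).mul_mem h2 hγ)
  have m2 : β + γ - 2 * α ∈ vO v h.na :=
    (vO v h.na).sub_mem ((vO v h.na).add_mem hβ hγ) ((vO v h.na).mul_mem h2 hα)
  have m3 : γ + α - 2 * β ∈ vO v h.na :=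
    (vO v h.na).sub_mem ((vO v h.na).add_mem hγ hα) ((vO v h.na).mul_mem h2 hβ)
  rw [h.v_diff m1 h.k1 ht, h.v_diff m2 h.k2 ht, h.v_diff m3 h.k3 ht]
  norm_num

theorem Loc.v_tt (h : Loc v α β γ) {t t' : L} {e : ℝ} (ht : v t ^ 2 ≤ e) (ht' : v t' ^ 2 ≤ e) :
    v (t - t') ^ 2 ≤ e := by
  have h1 := v_sub_le h.na t t'
  rcases le_max_iff.mp h1 with h2 | h2
  · exact (pow_le_pow_left₀ (v.nonneg _) h2 2).trans ht
  · exact (pow_le_pow_left₀ (v.nonneg _) h2 2).trans ht'

theorem v_lt_one {t : L} {e : ℝ} (he : e < 1) (ht : v t ^ 2 ≤ e) : v t < 1 := by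
  by_contra hc
  push Not at hc
  have := pow_le_pow_left₀ zero_le_one hc 2
  rw [one_pow] at this
  linarith

theorem Loc.v_cube (h : Loc v α β γ) {t s X Y t' s' X' Y' : L} (hd : Dat α β γ t s X Y)
    (hd' : Dat α β γ t' s' X' Y') (ht : v t < 1) (ht' : v t' < 1) :
    v (s ^ 3 - s' ^ 3) ≤ v (t - t') := by
  rw [← hd.hs, ← hd'.hs]
  have hα := h.mem h.ha
  have hβ := h.mem h.hb
  have hγ := h.mem h.hc
  have hab := h.mem h.hab
  have hbc := h.mem h.hbc
  have hca := h.mem h.hca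
  have htm : t ∈ vO v h.na := ht.le
  have htm' : t' ∈ vO v h.na := ht'.le
  have e1 : (β - γ) * (γ - α) * (α - β) * ((t - α) * (t - β) * (t - γ)) -
      (β - γ) * (γ - α) * (α - β) * ((t' - α) * (t' - β) * (t' - γ)) =
      (t - t') * ((β - γ) * (γ - α) * (α - β) * (t * t + t * t' + t' * t' -
        (α + β + γ) * (t + t') + (α * β + β * γ + γ * α))) := by ring
  rw [e1, map_mul]
  have e2 : (β - γ) * (γ - α) * (α - β) * (t * t + t * t' + t' * t' -
        (α + β + γ) * (t + t') + (α * β + β * γ + γ * α)) ∈ vO v h.na := by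
    apply_rules [Subring.add_mem, Subring.mul_mem, Subring.sub_mem]
  calc v (t - t') * _ ≤ v (t - t') * 1 := mul_le_mul_of_nonneg_left e2 (v.nonneg _)
    _ = v (t - t') := mul_one _

theorem Loc.v_ss (h : Loc v α β γ) {t s X Y t' s' X' Y' : L} (hd : Dat α β γ t s X Y)
    (hd' : Dat α β γ t' s' X' Y') (ht : v t < 1) (ht' : v t' < 1) (hss : v (s - s') < 1) :
    v (s - s') ≤ v (t - t') := by
  have hs := h.v_s hd ht
  have hs' := h.v_s hd' ht'
  have e1 : s ^ 3 - s' ^ 3 = (s - s') * (3 * s ^ 2 + (s' - s) * (s' + 2 * s)) := by ring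
  have e2 : v (3 * s ^ 2 + (s' - s) * (s' + 2 * s)) = 1 := by
    refine v_add_eq h.na ?_ ?_
    · rw [map_mul, map_pow, hs, h.h3]; norm_num
    · rw [map_mul, v.map_sub]
      have e3 : s' + 2 * s ∈ vO v h.na :=
        (vO v h.na).add_mem (h.mem hs') ((vO v h.na).mul_mem (h.mem h.h2) (h.mem hs))
      calc v (s - s') * v (s' + 2 * s) ≤ v (s - s') * 1 :=
            mul_le_mul_of_nonneg_left e3 (v.nonneg _)
        _ < 1 := by rw [mul_one]; exact hss
  have e4 := h.v_cube hd hd' ht ht'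
  rw [e1, map_mul, e2, mul_one] at e4
  exact e4

theorem Loc.v_XX (h : Loc v α β γ) {t s X Y t' s' X' Y' : L} (hd : Dat α β γ t s X Y)
    (hd' : Dat α β γ t' s' X' Y') (ht : v t < 1) (ht' : v t' < 1) (hss : v (s - s') < 1) :
    v (X - X') ≤ v (t - t') := by
  have hs := h.v_s hd ht
  have hs' := h.v_s hd' ht'
  have hsm := h.mem hs
  have hsm' := h.mem hs'
  have e0 := h.v_ss hd hd' ht ht' hss
  have e1 : v (X - X') = v ((X - X') * (s ^ 2 * s' ^ 2)) := by
    rw [map_mul (f := v) (X - X'), map_mul, map_pow, map_pow, hs, hs']; norm_num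
  have e2 : (X - X') * (s ^ 2 * s' ^ 2) =
      (t - t') * (((β - γ) * (cU β γ α t + cU β γ α t' + cU γ α β t) +
        (γ - α) * (cU β γ α t' + cU γ α β t + cU γ α β t')) * (s' * s')) +
      (s - s') * (-(X' * (s' * s') * (s' + s))) := by
    have h1 : (X - X') * (s ^ 2 * s' ^ 2) = (X * s ^ 2) * s' ^ 2 - (X' * s' ^ 2) * s ^ 2 := by ring
    have h2 := hd'.hX
    rw [h1, hd.hX]
    have h3 : (X' * s' ^ 2) * s ^ 2 = (X' * s' ^ 2) * s' ^ 2 + (s - s') * (X' * (s' * s') * (s' + s)) := by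
      ring
    rw [h3]
    rw [h2]
    unfold cU
    ring
  have eU : cU β γ α t ∈ vO v h.na := (h.v_form h.hbc h.ha ht).le
  have eV : cU γ α β t ∈ vO v h.na := (h.v_form h.hca h.hb ht).le
  have eU' : cU β γ α t' ∈ vO v h.na := (h.v_form h.hbc h.ha ht').le
  have eV' : cU γ α β t' ∈ vO v h.na := (h.v_form h.hca h.hb ht').le
  have eX' : X' ∈ vO v h.na := h.v_X hd' ht'
  have hbc := h.mem h.hbc
  have hca := h.mem h.hca
  rw [e1, e2]
  refine (h.na _ _).trans (max_le ?_ ?_)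
  · rw [map_mul]
    have e3 : ((β - γ) * (cU β γ α t + cU β γ α t' + cU γ α β t) +
        (γ - α) * (cU β γ α t' + cU γ α β t + cU γ α β t')) * (s' * s') ∈ vO v h.na := by
      apply_rules [Subring.add_mem, Subring.mul_mem, Subring.sub_mem]
    calc v (t - t') * _ ≤ v (t - t') * 1 := mul_le_mul_of_nonneg_left e3 (v.nonneg _)
      _ = v (t - t') := mul_one _
  · rw [map_mul]
    have e3 : -(X' * (s' * s') * (s' + s)) ∈ vO v h.na := by
      apply_rules [Subring.add_mem, Subring.mul_mem, Subring.neg_mem]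
    calc v (s - s') * _ ≤ v (s - s') * 1 := mul_le_mul_of_nonneg_left e3 (v.nonneg _)
      _ = v (s - s') := mul_one _
      _ ≤ v (t - t') := e0

theorem Loc.v_YY (h : Loc v α β γ) {t s X Y t' s' X' Y' : L} (hd : Dat α β γ t s X Y)
    (hd' : Dat α β γ t' s' X' Y') (ht : v t < 1) (ht' : v t' < 1) :
    v (Y - Y') ≤ v (t - t') := by
  have hs := h.v_s hd ht
  have hs' := h.v_s hd' ht'
  have hsm := h.mem hs
  have hsm' := h.mem hs'
  have e0 := h.v_cube hd hd' ht ht'
  have e1 : v (Y - Y') = v ((Y - Y') * (2 * s ^ 3 * s' ^ 3)) := by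
    rw [map_mul (f := v) (Y - Y'), map_mul, map_mul, map_pow, map_pow, hs, hs', h.h2]; norm_num
  set m1 := α + β - 2 * γ with hm1
  set m2 := β + γ - 2 * α with hm2
  set m3 := γ + α - 2 * β with hm3
  set k1 := 2 * α * β - γ * (α + β) with hk1
  set k2 := 2 * β * γ - α * (β + γ) with hk2
  set k3 := 2 * γ * α - β * (γ + α) with hk3
  have r1 : ∀ t, cU β γ α t - cU γ α β t = t * m1 - k1 := by
    intro t; rw [hm1, hk1]; unfold cU; ring
  have r2 : ∀ t, cU γ α β t - cU α β γ t = t * m2 - k2 := by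
    intro t; rw [hm2, hk2]; unfold cU; ring
  have r3 : ∀ t, cU α β γ t - cU β γ α t = t * m3 - k3 := by
    intro t; rw [hm3, hk3]; unfold cU; ring
  have hY := hd.hY
  have hY' := hd'.hY
  rw [r1, r2, r3] at hY hY'
  have e2 : (Y - Y') * (2 * s ^ 3 * s' ^ 3) =
      (t - t') * ((m1 * m2 * m3 * (t * t + t * t' + t' * t') -
        (m1 * m2 * k3 + m1 * k2 * m3 + k1 * m2 * m3) * (t + t') +
        (m1 * k2 * k3 + k1 * m2 * k3 + k1 * k2 * m3)) * (s' * s' * s')) +
      (s ^ 3 - s' ^ 3) * (-(2 * Y' * (s' * s' * s'))) := by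
    have h1 : (Y - Y') * (2 * s ^ 3 * s' ^ 3) =
        (2 * Y * s ^ 3) * s' ^ 3 - (2 * Y' * s' ^ 3) * s' ^ 3 -
          (s ^ 3 - s' ^ 3) * (2 * Y' * (s' * s' * s')) := by ring
    rw [h1, hY, hY']
    ring
  have hα := h.mem h.ha
  have hβ := h.mem h.hb
  have hγ := h.mem h.hc
  have h2 := h.mem h.h2
  have m1m : m1 ∈ vO v h.na :=
    (vO v h.na).sub_mem ((vO v h.na).add_mem hα hβ) ((vO v h.na).mul_mem h2 hγ)
  have m2m : m2 ∈ vO v h.na :=
    (vO v h.na).sub_mem ((vO v h.na).add_mem hβ hγ) ((vO v h.na).mul_mem h2 hα)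
  have m3m : m3 ∈ vO v h.na :=
    (vO v h.na).sub_mem ((vO v h.na).add_mem hγ hα) ((vO v h.na).mul_mem h2 hβ)
  have k1m : k1 ∈ vO v h.na := h.k1.le
  have k2m : k2 ∈ vO v h.na := h.k2.le
  have k3m : k3 ∈ vO v h.na := h.k3.le
  have htm : t ∈ vO v h.na := ht.le
  have htm' : t' ∈ vO v h.na := ht'.le
  have eY' : Y' ∈ vO v h.na := (h.v_Y hd' ht').le
  rw [e1, e2]
  refine (h.na _ _).trans (max_le ?_ ?_)
  · rw [map_mul]
    have e3 : (m1 * m2 * m3 * (t * t + t * t' + t' * t') -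
        (m1 * m2 * k3 + m1 * k2 * m3 + k1 * m2 * m3) * (t + t') +
        (m1 * k2 * k3 + k1 * m2 * k3 + k1 * k2 * m3)) * (s' * s' * s') ∈ vO v h.na := by
      have a1 : m1 * m2 * m3 * (t * t + t * t' + t' * t') ∈ vO v h.na := by
        apply_rules [Subring.add_mem, Subring.mul_mem, Subring.sub_mem]
      have a2 : (m1 * m2 * k3 + m1 * k2 * m3 + k1 * m2 * m3) * (t + t') ∈ vO v h.na := by
        apply_rules [Subring.add_mem, Subring.mul_mem, Subring.sub_mem]
      have a3 : m1 * k2 * k3 + k1 * m2 * k3 + k1 * k2 * m3 ∈ vO v h.na := by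
        apply_rules [Subring.add_mem, Subring.mul_mem, Subring.sub_mem]
      have a4 : s' * s' * s' ∈ vO v h.na := by
        apply_rules [Subring.add_mem, Subring.mul_mem, Subring.sub_mem]
      exact (vO v h.na).mul_mem ((vO v h.na).add_mem ((vO v h.na).sub_mem a1 a2) a3) a4
    calc v (t - t') * _ ≤ v (t - t') * 1 := mul_le_mul_of_nonneg_left e3 (v.nonneg _)
      _ = v (t - t') := mul_one _
  · rw [map_mul]
    have e3 : -(2 * Y' * (s' * s' * s')) ∈ vO v h.na := by
      apply_rules [Subring.add_mem, Subring.mul_mem, Subring.neg_mem]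
    calc v (s ^ 3 - s' ^ 3) * _ ≤ v (s ^ 3 - s' ^ 3) * 1 :=
          mul_le_mul_of_nonneg_left e3 (v.nonneg _)
      _ = v (s ^ 3 - s' ^ 3) := mul_one _
      _ ≤ v (t - t') := e0

/-- The local estimate for the difference of two points. -/
theorem Loc.v_main (h : Loc v α β γ) {t s X Y t' s' X' Y' : L} (hd : Dat α β γ t s X Y)
    (hd' : Dat α β γ t' s' X' Y') {e : ℝ} (he0 : 0 < e) (he : e < 1) (ht : v t ^ 2 ≤ e)
    (ht' : v t' ^ 2 ≤ e) (hss : v (s - s') < 1) (hne : ¬ (X = X' ∧ Y = Y'))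
    (hcurve : Y ^ 2 - X ^ 3 = Y' ^ 2 - X' ^ 3) :
    X ≠ X' ∧ e⁻¹ ≤ v (((Y + Y') / (X - X')) ^ 2 - (X + X')) := by
  have hv1 := v_lt_one he ht
  have hv1' := v_lt_one he ht'
  have htt := h.v_tt ht ht'
  have htt1 := v_lt_one he htt
  have hXX := h.v_XX hd hd' hv1 hv1' hss
  have hYY := h.v_YY hd hd' hv1 hv1'
  have hXX2 : v (X - X') ^ 2 ≤ e := (pow_le_pow_left₀ (v.nonneg _) hXX 2).trans htt
  have hYY1 : v (Y - Y') < 1 := lt_of_le_of_lt hYY htt1
  have hvY := h.v_Y hd hv1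
  have hsum : v (Y + Y') = 1 := by
    have e1 : Y + Y' = 2 * Y + -(Y - Y') := by ring
    rw [e1]
    refine v_add_eq h.na ?_ ?_
    · rw [map_mul, h.h2, hvY]; norm_num
    · rw [v.map_neg]; exact hYY1
  have hXne : X ≠ X' := by
    intro hX
    have hY2 : (Y - Y') * (Y + Y') = 0 := by
      rw [hX] at hcurve
      linear_combination hcurve
    rcases mul_eq_zero.mp hY2 with h1 | h1
    · exact hne ⟨hX, sub_eq_zero.mp h1⟩
    · rw [h1, map_zero] at hsum
      exact absurd hsum (by norm_num)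
  refine ⟨hXne, ?_⟩
  have hXpos : 0 < v (X - X') := v.pos (sub_ne_zero.mpr hXne)
  have hlam : v (((Y + Y') / (X - X')) ^ 2) = (v (X - X') ^ 2)⁻¹ := by
    rw [map_pow, map_div₀, hsum, div_pow, one_pow, one_div]
  have hge : e⁻¹ ≤ v (((Y + Y') / (X - X')) ^ 2) := by
    rw [hlam]
    exact inv_anti₀ (by positivity) hXX2
  have hgt : 1 < v (((Y + Y') / (X - X')) ^ 2) :=
    lt_of_lt_of_le ((one_lt_inv₀ he0).mpr he) hge
  have hXX' : v (X + X') ≤ 1 :=
    (vO v h.na).add_mem (h.v_X hd hv1) (h.v_X hd' hv1')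
  exact hge.trans (v_le_sub h.na (lt_of_le_of_lt hXX' hgt))

/-- Among four units with pairwise congruent cubes two are congruent. -/
theorem four_cubes {v : AbsoluteValue L ℝ} (hv : IsNonarchimedean v) (s : Fin 4 → L)
    (h1 : ∀ i, v (s i) = 1) (h3 : ∀ i j, v (s i ^ 3 - s j ^ 3) < 1) :
    ∃ i j, i ≠ j ∧ v (s i - s j) < 1 := by
  by_contra hc
  push Not at hc
  have hu : ∀ i j, i ≠ j → v (s i - s j) = 1 := by
    intro i j hij
    refine le_antisymm ((v_sub_le hv _ _).trans (max_le (h1 i).le (h1 j).le)) (hc i j hij)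
  have hq : ∀ i j, i ≠ j → v (s i ^ 2 + s i * s j + s j ^ 2) < 1 := by
    intro i j hij
    have e1 : s i ^ 3 - s j ^ 3 = (s i - s j) * (s i ^ 2 + s i * s j + s j ^ 2) := by ring
    have := h3 i j
    rwa [e1, map_mul, hu i j hij, one_mul] at this
  have ht : ∀ i j k, i ≠ j → i ≠ k → j ≠ k → v (s i + s j + s k) < 1 := by
    intro i j k hij hik hjk
    have e1 : (s j - s k) * (s i + s j + s k) =
        (s i ^ 2 + s i * s j + s j ^ 2) - (s i ^ 2 + s i * s k + s k ^ 2) := by ring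
    have e2 : v ((s j - s k) * (s i + s j + s k)) < 1 := by
      rw [e1]
      exact lt_of_le_of_lt (v_sub_le hv _ _) (max_lt (hq i j hij) (hq i k hik))
    rwa [map_mul, hu j k hjk, one_mul] at e2
  have e1 := ht 0 1 2 (by decide) (by decide) (by decide)
  have e2 := ht 0 1 3 (by decide) (by decide) (by decide)
  have e3 : s 2 - s 3 = (s 0 + s 1 + s 2) - (s 0 + s 1 + s 3) := by ring
  have e4 : v (s 2 - s 3) < 1 := by
    rw [e3]
    exact lt_of_le_of_lt (v_sub_le hv _ _) (max_lt e1 e2)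
  rw [hu 2 3 (by decide)] at e4
  exact lt_irrefl _ e4

end Local

section Global

variable {L : Type} [Field L] [NumberField L]

/-- Functions with linearly bounded height. -/
def LB (g : L → L) : Prop :=
  ∃ a c : ℝ, 0 ≤ a ∧ ∀ t, logHeight₁ (g t) ≤ a * logHeight₁ t + c

theorem LB.id : LB (fun t : L => t) := ⟨1, 0, zero_le_one, fun t => by simp⟩

theorem LB.const (b : L) : LB (fun _ : L => b) := ⟨0, logHeight₁ b, le_rfl, fun t => by simp⟩

theorem LB.mul {g h : L → L} (hg : LB g) (hh : LB h) : LB (fun t => g t * h t) := by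
  obtain ⟨a, c, ha, h1⟩ := hg
  obtain ⟨a', c', ha', h2⟩ := hh
  refine ⟨a + a', c + c', add_nonneg ha ha', fun t => ?_⟩
  have := logHeight₁_mul_le (g t) (h t)
  have e1 := h1 t
  have e2 := h2 t
  have e3 : (a + a') * logHeight₁ t = a * logHeight₁ t + a' * logHeight₁ t := by ring
  rw [e3]
  linarith

theorem LB.add {g h : L → L} (hg : LB g) (hh : LB h) : LB (fun t => g t + h t) := by
  obtain ⟨a, c, ha, h1⟩ := hg
  obtain ⟨a', c', ha', h2⟩ := hh
  refine ⟨a + a', totalWeight L * Real.log 2 + c + c', add_nonneg ha ha', fun t => ?_⟩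
  have := logHeight₁_add_le (g t) (h t)
  have e1 := h1 t
  have e2 := h2 t
  have e3 : (a + a') * logHeight₁ t = a * logHeight₁ t + a' * logHeight₁ t := by ring
  rw [e3]
  linarith

theorem LB.sub {g h : L → L} (hg : LB g) (hh : LB h) : LB (fun t => g t - h t) := by
  obtain ⟨a, c, ha, h1⟩ := hg
  obtain ⟨a', c', ha', h2⟩ := hh
  refine ⟨a + a', totalWeight L * Real.log 2 + c + c', add_nonneg ha ha', fun t => ?_⟩
  have := logHeight₁_sub_le (g t) (h t)
  have e1 := h1 t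
  have e2 := h2 t
  have e3 : (a + a') * logHeight₁ t = a * logHeight₁ t + a' * logHeight₁ t := by ring
  rw [e3]
  linarith

theorem LB.pow {g : L → L} (hg : LB g) (n : ℕ) : LB (fun t => g t ^ n) := by
  obtain ⟨a, c, ha, h1⟩ := hg
  refine ⟨n * a, n * c, by positivity, fun t => ?_⟩
  rw [logHeight₁_pow]
  have e1 := mul_le_mul_of_nonneg_left (h1 t) (Nat.cast_nonneg (α := ℝ) n)
  linarith

theorem LB.inv {g : L → L} (hg : LB g) : LB (fun t => (g t)⁻¹) := by
  obtain ⟨a, c, ha, h1⟩ := hg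
  refine ⟨a, c, ha, fun t => ?_⟩
  rw [logHeight₁_inv]
  exact h1 t

/-- Height of the first coordinate. -/
theorem height_X (α β γ : L) : ∃ a c : ℝ, 0 ≤ a ∧ ∀ t s X Y : L, Dat α β γ t s X Y →
    logHeight₁ X ≤ a * logHeight₁ t + c := by
  have hU : ∀ b c a : L, LB (fun t => cU b c a t) := by
    intro b c a
    exact (LB.const (b - c)).mul (LB.id.sub (LB.const a))
  have h1 : LB (fun t : L => (cU β γ α t ^ 2 + cU β γ α t * cU γ α β t + cU γ α β t ^ 2) ^ 3 *
      (((β - γ) * (γ - α) * (α - β) * ((t - α) * (t - β) * (t - γ))) ^ 2)⁻¹) := by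
    refine LB.mul (LB.pow (LB.add (LB.add (LB.pow (hU _ _ _) 2) (LB.mul (hU _ _ _) (hU _ _ _)))
      (LB.pow (hU _ _ _) 2)) 3) (LB.inv (LB.pow ?_ 2))
    exact (LB.const _).mul (((LB.id.sub (LB.const α)).mul (LB.id.sub (LB.const β))).mul
      (LB.id.sub (LB.const γ)))
  obtain ⟨a, c, ha, h2⟩ := h1
  refine ⟨a / 3, c / 3, by positivity, fun t s X Y hd => ?_⟩
  have e1 := h2 t
  beta_reduce at e1
  have e2 : (cU β γ α t ^ 2 + cU β γ α t * cU γ α β t + cU γ α β t ^ 2) ^ 3 *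
      (((β - γ) * (γ - α) * (α - β) * ((t - α) * (t - β) * (t - γ))) ^ 2)⁻¹ = X ^ 3 := by
    rw [hd.hs, ← hd.hX]
    have := hd.s0
    field_simp
  rw [e2, logHeight₁_pow] at e1
  push_cast at e1
  linarith

/-- The height dominates a partial sum of local heights. -/
theorem sum_le_logHeight₁ (z : L) (F : Finset (FinitePlace L)) :
    ∑ v ∈ F, Real.posLog (v z) ≤ logHeight₁ z := by
  rw [NumberField.logHeight₁_eq]
  have h1 : 0 ≤ ∑ v : InfinitePlace L, (v.mult : ℝ) * Real.posLog (v z) :=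
    Finset.sum_nonneg fun v _ => mul_nonneg (Nat.cast_nonneg _) Real.posLog_nonneg
  have h2 : ∑ v ∈ F, Real.posLog (v z) ≤ ∑ᶠ v : FinitePlace L, Real.posLog (v z) := by
    classical
    by_cases hz : z = 0
    · subst hz
      have e1 : ∀ v : FinitePlace L, Real.posLog (v (0 : L)) = 0 := by
        intro v; rw [map_zero]; simp
      simp only [e1, Finset.sum_const_zero, finsum_zero, le_refl]
    · have hfin : (Function.mulSupport fun w : FinitePlace L => w z).Finite :=
        FinitePlace.hasFiniteMulSupport hz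
      rw [finsum_eq_sum_of_support_subset (s := hfin.toFinset ∪ F)]
      · exact Finset.sum_le_sum_of_subset_of_nonneg Finset.subset_union_right
          fun v _ _ => Real.posLog_nonneg
      · intro v hv
        rw [Finset.coe_union]
        left
        rw [Set.Finite.coe_toFinset, Function.mem_mulSupport]
        intro h1
        apply hv
        show Real.posLog (v z) = 0
        rw [h1]; simp
  linarith

/-- First coordinate. -/
noncomputable def xco {W : WeierstrassCurve.Affine L} : W.Point → L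
  | .zero => 0
  | .some x _ _ => x

theorem xco_some {W : WeierstrassCurve.Affine L} {x y : L} (h : W.Nonsingular x y) :
    xco (.some x y h : W.Point) = x := rfl

theorem nh_some {W : WeierstrassCurve.Affine L} {x y : L} (h : W.Nonsingular x y) :
    nh (.some x y h : W.Point) = logHeight₁ x := by
  rw [nh, WeierstrassCurve.Affine.Point.xRep_some, ← logHeight₁_eq_logHeight]

theorem nh_nonneg {W : WeierstrassCurve.Affine L} (P : W.Point) : 0 ≤ nh P := logHeight_nonneg _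

theorem sum_le_nh {W : WeierstrassCurve.Affine L} (P : W.Point) (F : Finset (FinitePlace L)) :
    ∑ v ∈ F, Real.posLog (v (xco P)) ≤ nh P := by
  cases P with
  | zero =>
    have e1 : ∀ v : FinitePlace L, Real.posLog (v (xco (.zero : W.Point))) = 0 := by
      intro v
      show Real.posLog (v (0 : L)) = 0
      rw [map_zero]; simp
    simp only [e1, Finset.sum_const_zero]
    exact nh_nonneg _
  | some x y h =>
    rw [xco_some, nh_some]
    exact sum_le_logHeight₁ x F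

theorem two_ne : (2 : L) ≠ 0 := two_ne_zero
theorem three_ne : (3 : L) ≠ 0 := three_ne_zero

theorem WE_eq {e₁ e₂ e₃ : L} (he1 : e₁ + e₂ + e₃ = 0) (he2 : e₁ * e₂ + e₁ * e₃ + e₂ * e₃ = 0)
    (he3 : e₁ * e₂ * e₃ = 27 / 4) : WE e₁ e₂ e₃ = ⟨0, 0, 0, 0, -(27 / 4)⟩ := by
  rw [WE, he1, he2, he3, neg_zero]

theorem e_distinct {e₁ e₂ e₃ : L} (he1 : e₁ + e₂ + e₃ = 0)
    (he2 : e₁ * e₂ + e₁ * e₃ + e₂ * e₃ = 0) (he3 : e₁ * e₂ * e₃ = 27 / 4) : e₁ ≠ e₂ := by
  rintro rfl
  have h1 : e₃ = -2 * e₁ := by linear_combination he1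
  rw [h1] at he2 he3
  have h2 : e₁ ^ 2 = 0 := by
    have : (3 : L) * e₁ ^ 2 = 0 := by linear_combination -he2
    exact (mul_eq_zero.mp this).resolve_left three_ne
  have h3 : e₁ = 0 := pow_eq_zero_iff (two_ne_zero) |>.mp h2
  rw [h3] at he3
  have h4 : (27 / 4 : L) ≠ 0 := by norm_num
  apply h4
  rw [← he3]; ring

theorem nonsing {e₁ e₂ e₃ : L} (he1 : e₁ + e₂ + e₃ = 0)
    (he2 : e₁ * e₂ + e₁ * e₃ + e₂ * e₃ = 0) (he3 : e₁ * e₂ * e₃ = 27 / 4) {X Y : L}
    (h : Y ^ 2 = X ^ 3 - 27 / 4) : (WE e₁ e₂ e₃).toAffine.Nonsingular X Y := by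
  rw [WE_eq he1 he2 he3, WeierstrassCurve.Affine.nonsingular_iff',
    WeierstrassCurve.Affine.equation_iff']
  refine ⟨by simp only; linear_combination h, ?_⟩
  simp only
  by_contra hc
  push Not at hc
  obtain ⟨h1, h2⟩ := hc
  have h3 : X = 0 := by
    have : (3 : L) * X ^ 2 = 0 := by linear_combination -h1
    exact pow_eq_zero_iff (two_ne_zero) |>.mp ((mul_eq_zero.mp this).resolve_left three_ne)
  have h4 : Y = 0 := by
    have : (2 : L) * Y = 0 := by linear_combination h2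
    exact (mul_eq_zero.mp this).resolve_left two_ne
  rw [h3, h4] at h
  have h5 : (27 / 4 : L) ≠ 0 := by norm_num
  apply h5
  linear_combination h

/-- Existence of the point. -/
theorem exists_dat {α β γ t w : L} (hw : w ≠ 0)
    (h : (β - γ) * (γ - α) * (α - β) * ((t - α) * (t - β) * (t - γ)) = w ^ 3) :
    ∃ s X Y : L, Dat α β γ t s X Y ∧ Y ^ 2 = X ^ 3 - 27 / 4 := by
  have h2 : (2 : L) ≠ 0 := two_ne
  set U := cU β γ α t with hU
  set V := cU γ α β t with hV
  set W := cU α β γ t with hW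
  have hsum : W = -U - V := by rw [hU, hV, hW]; unfold cU; ring
  have hprod : U * V * W = w ^ 3 := by rw [← h, hU, hV, hW]; unfold cU; ring
  refine ⟨w, (U ^ 2 + U * V + V ^ 2) / w ^ 2, (U - V) * (V - W) * (W - U) / (2 * w ^ 3),
    ⟨hw, h, ?_, ?_⟩, ?_⟩
  · show (U ^ 2 + U * V + V ^ 2) / w ^ 2 * w ^ 2 = U ^ 2 + U * V + V ^ 2
    field_simp
  · show 2 * ((U - V) * (V - W) * (W - U) / (2 * w ^ 3)) * w ^ 3 = (U - V) * (V - W) * (W - U)
    field_simp
  · rw [div_pow, div_pow]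
    have e1 : ((U - V) * (V - W) * (W - U)) ^ 2 =
        4 * (U ^ 2 + U * V + V ^ 2) ^ 3 - 27 * (w ^ 3) ^ 2 := by
      rw [← hprod, hsum]; ring
    rw [e1]
    field_simp
    ring

/-- The difference of two points with different first coordinates. -/
theorem xco_sub [DecidableEq L] {e₁ e₂ e₃ : L} (he1 : e₁ + e₂ + e₃ = 0)
    (he2 : e₁ * e₂ + e₁ * e₃ + e₂ * e₃ = 0) (he3 : e₁ * e₂ * e₃ = 27 / 4) {X Y X' Y' : L}
    (h : (WE e₁ e₂ e₃).toAffine.Nonsingular X Y) (h' : (WE e₁ e₂ e₃).toAffine.Nonsingular X' Y')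
    (hX : X ≠ X') :
    xco ((.some X Y h : (WE e₁ e₂ e₃).toAffine.Point) - .some X' Y' h') =
      ((Y + Y') / (X - X')) ^ 2 - (X + X') := by
  rw [sub_eq_add_neg, WeierstrassCurve.Affine.Point.neg_some,
    WeierstrassCurve.Affine.Point.add_of_X_ne hX, xco_some,
    WeierstrassCurve.Affine.slope_of_X_ne hX, WeierstrassCurve.Affine.addX,
    WeierstrassCurve.Affine.negY]
  have ha1 : (WE e₁ e₂ e₃).toAffine.a₁ = 0 := rfl
  have ha3 : (WE e₁ e₂ e₃).toAffine.a₃ = 0 := rfl
  have ha2 : (WE e₁ e₂ e₃).toAffine.a₂ = 0 := by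
    show -(e₁ + e₂ + e₃) = 0
    rw [he1, neg_zero]
  rw [ha1, ha2, ha3]
  ring

/-- At most three values of `t` give the same point. -/
theorem fibre_bound {α β γ : L} (h1 : α ≠ β) (h2 : β ≠ γ) (h3 : γ ≠ α) (X Y : L)
    (B : Finset L) (hB : ∀ t ∈ B, ∃ s, Dat α β γ t s X Y) : B.card ≤ 3 := by
  classical
  open Polynomial in
  set p : L[X] := C (2 * Y) * (C ((β - γ) * (γ - α) * (α - β)) *
    ((Polynomial.X - C α) * (Polynomial.X - C β) * (Polynomial.X - C γ))) -
    (C (β - γ) * (Polynomial.X - C α) - C (γ - α) * (Polynomial.X - C β)) *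
    (C (γ - α) * (Polynomial.X - C β) - C (α - β) * (Polynomial.X - C γ)) *
    (C (α - β) * (Polynomial.X - C γ) - C (β - γ) * (Polynomial.X - C α)) with hp
  have hev : ∀ t, p.eval t = 2 * Y * ((β - γ) * (γ - α) * (α - β) *
      ((t - α) * (t - β) * (t - γ))) - (cU β γ α t - cU γ α β t) * (cU γ α β t - cU α β γ t) *
    (cU α β γ t - cU β γ α t) := by
    intro t
    rw [hp]
    simp only [Polynomial.eval_sub, Polynomial.eval_mul, Polynomial.eval_C, Polynomial.eval_X, cU]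
  have hp0 : p ≠ 0 := by
    intro h0
    have e1 := hev α
    rw [h0, Polynomial.eval_zero] at e1
    have hV : (γ - α) * (α - β) ≠ 0 := mul_ne_zero (sub_ne_zero.mpr h3) (sub_ne_zero.mpr h1)
    have e2 : (2 : L) * ((γ - α) * (α - β)) ^ 3 = 0 := by
      unfold cU at e1
      linear_combination e1
    rcases mul_eq_zero.mp e2 with e3 | e3
    · exact two_ne e3
    · exact hV (pow_eq_zero_iff (three_ne_zero) |>.mp e3)
  have hdeg : p.natDegree ≤ 3 := by
    rw [hp]
    compute_degree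
  have hsub : B ⊆ p.roots.toFinset := by
    intro t ht
    obtain ⟨s, hd⟩ := hB t ht
    rw [Multiset.mem_toFinset, Polynomial.mem_roots hp0, Polynomial.IsRoot.def, hev, hd.hs,
      ← hd.hY]
    ring
  calc B.card ≤ p.roots.toFinset.card := Finset.card_le_card hsub
    _ ≤ Multiset.card p.roots := Multiset.toFinset_card_le _
    _ ≤ p.natDegree := p.card_roots'
    _ ≤ 3 := hdeg

end Global

end KissCubeAux

open KissCubeAux in
theorem kiss_cube {L : Type} [Field L] [NumberField L] [DecidableEq L]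
    (hcov : ∀ e₁ e₂ e₃ : L, e₁ ≠ e₂ → e₁ ≠ e₃ → e₂ ≠ e₃ → CoverProp e₁ e₂ e₃)
    (α β γ : L) (h1 : α ≠ β) (h2 : β ≠ γ) (h3 : γ ≠ α) (hα : α ≠ 0) (hβ : β ≠ 0) (hγ : γ ≠ 0)
    (k1 : 2 * α * β ≠ γ * (α + β)) (k2 : 2 * β * γ ≠ α * (β + γ)) (k3 : 2 * γ * α ≠ β * (γ + α))
    (e₁ e₂ e₃ : L) (he1 : e₁ + e₂ + e₃ = 0) (he2 : e₁ * e₂ + e₁ * e₃ + e₂ * e₃ = 0)
    (he3 : e₁ * e₂ * e₃ = 27 / 4) :
    Kiss L {t | t ≠ 0 ∧ ∃ w : L, w ≠ 0 ∧
      (β - γ) * (γ - α) * (α - β) * ((t - α) * (t - β) * (t - γ)) = w ^ 3} := by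
  classical
  set D : Set L := {t | t ≠ 0 ∧ ∃ w : L, w ≠ 0 ∧
      (β - γ) * (γ - α) * (α - β) * ((t - α) * (t - β) * (t - γ)) = w ^ 3} with hD
  -- the bad places
  obtain ⟨S, hS⟩ := Pool.Agent.UBC90787a.exists_finset_places
    ({2, 3, α, β, γ, α - β, β - γ, γ - α, 2 * α * β - γ * (α + β),
      2 * β * γ - α * (β + γ), 2 * γ * α - β * (γ + α)} : Finset L)
  have hLoc : ∀ v : FinitePlace L, v ∉ S → Loc v.val α β γ := by
    intro v hv
    have key : ∀ x : L, x ∈ ({2, 3, α, β, γ, α - β, β - γ, γ - α, 2 * α * β - γ * (α + β),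
      2 * β * γ - α * (β + γ), 2 * γ * α - β * (γ + α)} : Finset L) → x ≠ 0 → v.val x = 1 :=
      fun x hx hx0 => hS v hv x hx hx0
    refine ⟨fun x y => FinitePlace.add_le v x y, ?_, ?_, ?_, ?_, ?_, ?_, ?_, ?_, ?_, ?_, ?_⟩
    · exact key _ (by simp) two_ne
    · exact key _ (by simp) three_ne
    · exact key _ (by simp) hα
    · exact key _ (by simp) hβ
    · exact key _ (by simp) hγ
    · exact key _ (by simp) (sub_ne_zero.mpr h1)
    · exact key _ (by simp) (sub_ne_zero.mpr h2)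
    · exact key _ (by simp) (sub_ne_zero.mpr h3)
    · exact key _ (by simp) (sub_ne_zero.mpr k1)
    · exact key _ (by simp) (sub_ne_zero.mpr k2)
    · exact key _ (by simp) (sub_ne_zero.mpr k3)
  -- the points
  have hdat : ∀ t ∈ D, ∃ s X Y : L, Dat α β γ t s X Y ∧ Y ^ 2 = X ^ 3 - 27 / 4 := by
    rintro t ⟨-, w, hw, h⟩
    exact exists_dat hw h
  choose! fs fX fY hfd hfc using hdat
  have hns : ∀ t ∈ D, (WE e₁ e₂ e₃).toAffine.Nonsingular (fX t) (fY t) :=
    fun t ht => nonsing he1 he2 he3 (hfc t ht)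
  let pt : L → (WE e₁ e₂ e₃).toAffine.Point := fun t =>
    if h : t ∈ D then .some (fX t) (fY t) (hns t h) else 0
  have hpt : ∀ t (h : t ∈ D), pt t = .some (fX t) (fY t) (hns t h) := fun t h => dif_pos h
  obtain ⟨a, c, ha, hheight⟩ := height_X α β γ
  have hcov' := hcov e₁ e₂ e₃ (e_distinct he1 he2 he3)
    (e_distinct (e₁ := e₁) (e₂ := e₃) (e₃ := e₂) (by linear_combination he1)
      (by linear_combination he2) (by linear_combination he3))
    (e_distinct (e₁ := e₂) (e₂ := e₃) (e₃ := e₁) (by linear_combination he1)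
      (by linear_combination he2) (by linear_combination he3))
  refine ⟨S, fun κ C₁ hκ => ?_⟩
  set Cst : ℝ := a * |C₁| + |c| + 1 with hCst
  have hCst1 : 1 ≤ Cst := by
    have : 0 ≤ a * |C₁| := mul_nonneg ha (abs_nonneg _)
    have := abs_nonneg c
    rw [hCst]; linarith
  obtain ⟨N', M₀, hN'⟩ := hcov' (κ / (17 * Cst)) 4 (by positivity)
  refine ⟨3 * N', max 1 |M₀|, fun H hH x₀ A F hF hsum hA => ?_⟩
  have hH1 : 1 ≤ H := (le_max_left _ _).trans hH
  have hHM : |M₀| ≤ H := (le_max_right _ _).trans hH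
  by_contra hcard
  push Not at hcard
  have hM : M₀ ≤ Cst * H := by
    calc M₀ ≤ |M₀| := le_abs_self _
      _ ≤ H := hHM
      _ = 1 * H := (one_mul H).symm
      _ ≤ Cst * H := mul_le_mul_of_nonneg_right hCst1 (by linarith)
  -- the image
  have himg : N' < (A.image pt).card := by
    have e1 : A.card ≤ 3 * (A.image pt).card := by
      refine Finset.card_le_mul_card_image A 3 ?_
      intro P hP
      obtain ⟨t0, ht0, rfl⟩ := Finset.mem_image.mp hP
      refine fibre_bound h1 h2 h3 (fX t0) (fY t0) _ ?_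
      intro t ht
      obtain ⟨htA, hteq⟩ := Finset.mem_filter.mp ht
      have htD := (hA t htA).1
      have ht0D := (hA t0 ht0).1
      rw [hpt t htD, hpt t0 ht0D] at hteq
      obtain ⟨hx, hy⟩ := WeierstrassCurve.Affine.Point.some.inj hteq
      refine ⟨fs t, ?_⟩
      rw [← hx, ← hy]
      exact hfd t htD
    omega
  have hnh : ∀ P ∈ A.image pt, nh P ≤ Cst * H := by
    intro P hP
    obtain ⟨t, ht, rfl⟩ := Finset.mem_image.mp hP
    obtain ⟨htD, hth, -⟩ := hA t ht
    rw [hpt t htD, nh_some]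
    have e1 := hheight t _ _ _ (hfd t htD)
    have e2 : logHeight₁ t ≤ |C₁| * H :=
      hth.trans (mul_le_mul_of_nonneg_right (le_abs_self _) (by linarith))
    have e3 : a * logHeight₁ t ≤ a * (|C₁| * H) := mul_le_mul_of_nonneg_left e2 ha
    have e4 : c ≤ |c| * H := by
      calc c ≤ |c| := le_abs_self _
        _ = |c| * 1 := (mul_one _).symm
        _ ≤ |c| * H := mul_le_mul_of_nonneg_left hH1 (abs_nonneg _)
    have e5 : Cst * H = a * (|C₁| * H) + |c| * H + H := by rw [hCst]; ring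
    rw [e5]; linarith
  obtain ⟨B, hBA, hB4, hBd⟩ := hN' (Cst * H) hM (A.image pt) hnh himg
  -- four points
  let eqv : Fin 4 ≃ B := (Finset.equivFinOfCardEq hB4).symm
  let P : Fin 4 → (WE e₁ e₂ e₃).toAffine.Point := fun i => (eqv i : _)
  have hPinj : Function.Injective P := fun i j h => eqv.injective (Subtype.ext h)
  have hPB : ∀ i, P i ∈ B := fun i => (eqv i).2
  have hPt : ∀ i, ∃ t ∈ A, pt t = P i := fun i => Finset.mem_image.mp (hBA (hPB i))
  choose t htA htP using hPt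
  have htD : ∀ i, t i ∈ D := fun i => (hA _ (htA i)).1
  -- local estimate
  have hlocal : ∀ v ∈ F, -Real.log (v x₀) ≤
      ∑ p : Fin 4 × Fin 4, Real.posLog (v (xco (P p.1 - P p.2))) := by
    intro v hv
    obtain ⟨hvS, hvx⟩ := hF v hv
    by_cases hx0 : x₀ = 0
    · rw [hx0, map_zero, Real.log_zero, neg_zero]
      exact Finset.sum_nonneg fun _ _ => Real.posLog_nonneg
    · have hvpos : 0 < v x₀ := FinitePlace.pos_iff.mpr hx0
      have hL := hLoc v hvS
      have ht2 : ∀ i, v.val (t i) ^ 2 ≤ v x₀ := fun i => (hA _ (htA i)).2.2 v hv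
      have ht1 : ∀ i, v.val (t i) < 1 := fun i => v_lt_one hvx (ht2 i)
      have hd : ∀ i, Dat α β γ (t i) (fs (t i)) (fX (t i)) (fY (t i)) := fun i => hfd _ (htD i)
      obtain ⟨i, j, hij, hsij⟩ := four_cubes hL.na (fun i => fs (t i))
        (fun i => hL.v_s (hd i) (ht1 i)) (fun i j =>
          lt_of_le_of_lt (hL.v_cube (hd i) (hd j) (ht1 i) (ht1 j))
            (v_lt_one hvx (hL.v_tt (ht2 i) (ht2 j))))
      have hPi : P i = .some (fX (t i)) (fY (t i)) (hns _ (htD i)) := by rw [← htP i]; exact hpt _ (htD i)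
      have hPj : P j = .some (fX (t j)) (fY (t j)) (hns _ (htD j)) := by rw [← htP j]; exact hpt _ (htD j)
      have hne : ¬ (fX (t i) = fX (t j) ∧ fY (t i) = fY (t j)) := by
        rintro ⟨hx, hy⟩
        apply hij
        apply hPinj
        rw [hPi, hPj]
        simp only [hx, hy]
      obtain ⟨hXne, hbig⟩ := hL.v_main (hd i) (hd j) hvpos hvx (ht2 i) (ht2 j) hsij hne
        (by rw [hfc _ (htD i), hfc _ (htD j)]; ring)
      have hx : xco (P i - P j) =
          ((fY (t i) + fY (t j)) / (fX (t i) - fX (t j))) ^ 2 - (fX (t i) + fX (t j)) := by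
        rw [hPi, hPj]
        exact xco_sub he1 he2 he3 _ _ hXne
      have hterm : -Real.log (v x₀) ≤ Real.posLog (v (xco (P i - P j))) := by
        rw [hx]
        calc -Real.log (v x₀) = Real.log ((v x₀)⁻¹) := (Real.log_inv _).symm
          _ ≤ Real.log (v (((fY (t i) + fY (t j)) / (fX (t i) - fX (t j))) ^ 2 -
              (fX (t i) + fX (t j)))) := Real.log_le_log (by positivity) hbig
          _ ≤ _ := le_max_right _ _
      refine hterm.trans ?_
      exact Finset.single_le_sum (f := fun p : Fin 4 × Fin 4 =>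
        Real.posLog (v (xco (P p.1 - P p.2)))) (fun _ _ => Real.posLog_nonneg)
        (Finset.mem_univ (i, j))
  have hlow : κ * H ≤ ∑ p : Fin 4 × Fin 4, nh (P p.1 - P p.2) := by
    calc κ * H ≤ ∑ v ∈ F, -Real.log (v x₀) := hsum
      _ ≤ ∑ v ∈ F, ∑ p : Fin 4 × Fin 4, Real.posLog (v (xco (P p.1 - P p.2))) :=
        Finset.sum_le_sum hlocal
      _ = ∑ p : Fin 4 × Fin 4, ∑ v ∈ F, Real.posLog (v (xco (P p.1 - P p.2))) :=
        Finset.sum_comm
      _ ≤ _ := Finset.sum_le_sum fun p _ => sum_le_nh _ F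
  have hup : ∑ p : Fin 4 × Fin 4, nh (P p.1 - P p.2) ≤ 16 * (κ / (17 * Cst) * (Cst * H)) := by
    calc ∑ p : Fin 4 × Fin 4, nh (P p.1 - P p.2)
        ≤ ∑ _p : Fin 4 × Fin 4, κ / (17 * Cst) * (Cst * H) :=
          Finset.sum_le_sum fun p _ => hBd _ (hPB p.1) _ (hPB p.2)
      _ = 16 * (κ / (17 * Cst) * (Cst * H)) := by
        rw [Finset.sum_const, Finset.card_univ, Fintype.card_prod, Fintype.card_fin, nsmul_eq_mul]
        norm_num
  have hfin : 16 * (κ / (17 * Cst) * (Cst * H)) = 16 / 17 * (κ * H) := by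
    have : Cst ≠ 0 := by positivity
    field_simp
  rw [hfin] at hup
  have : 0 < κ * H := by positivity
  linarith

end Pool.Agent.MP90787a.T
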