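import Pool.Agent.Lib.MP_90787a_nt.T.Defs

set_option autoImplicit false

/-!
Canonical height and covering lemma for abelian groups with a height function.
-/

namespace Pool.Agent.MP90787a.T

open Filter Topology

section Quad

variable {G : Type*} [AddCommGroup G] (q : G → ℝ)

/-- The polar form of a function satisfying the parallelogram law is additive. -/
theorem polar_add (hq : ∀ P Q, q (P + Q) + q (P - Q) = 2 * (q P + q Q)) (P P' Q : G) :
    q (P + P' + Q) - q (P + P') - q Q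
      = (q (P + Q) - q P - q Q) + (q (P' + Q) - q P' - q Q) := by
  have h1 := hq (P + Q) P'
  have h2 := hq (P' + Q) P
  have h3 := hq (P - P') Q
  have h4 := hq P P'
  have h5 := hq 0 (P - (P' + Q))
  have h0 := hq 0 0
  have e1 : P + Q + P' = P + P' + Q := by abel
  have e2 : P' + Q + P = P + P' + Q := by abel
  have e3 : P + Q - P' = P - P' + Q := by abel
  have e4 : P' + Q - P = 0 - (P - (P' + Q)) := by abel
  have e5 : 0 + (P - (P' + Q)) = P - P' - Q := by abel
  have e6 : P - (P' + Q) = P - P' - Q := by abel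
  have e7 : (0 : G) + 0 = 0 := by abel
  have e8 : (0 : G) - 0 = 0 := by abel
  rw [e7, e8] at h0
  rw [e1, e3] at h1
  rw [e2, e4] at h2
  rw [e5, e6] at h5
  rw [e6] at h2
  linarith

/-- The polar form as an additive homomorphism. -/
noncomputable def polarHom (hq : ∀ P Q, q (P + Q) + q (P - Q) = 2 * (q P + q Q)) (Q : G) :
    G →+ ℝ where
  toFun P := q (P + Q) - q P - q Q
  map_zero' := by
    have h0 := hq 0 0
    have e7 : (0 : G) + 0 = 0 := by abel
    have e8 : (0 : G) - 0 = 0 := by abel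
    rw [e7, e8] at h0
    have : q 0 = 0 := by linarith
    simp [this]
  map_add' P P' := polar_add q hq P P' Q

theorem q_zero (hq : ∀ P Q, q (P + Q) + q (P - Q) = 2 * (q P + q Q)) : q 0 = 0 := by
  have h0 := hq 0 0
  have e7 : (0 : G) + 0 = 0 := by abel
  have e8 : (0 : G) - 0 = 0 := by abel
  rw [e7, e8] at h0
  linarith

theorem q_neg (hq : ∀ P Q, q (P + Q) + q (P - Q) = 2 * (q P + q Q)) (P : G) : q (-P) = q P := by
  have h0 := q_zero q hq
  have h := hq 0 P
  rw [zero_add, zero_sub] at h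
  linarith

theorem q_two (hq : ∀ P Q, q (P + Q) + q (P - Q) = 2 * (q P + q Q)) (P : G) :
    q (P + P) = 4 * q P := by
  have h0 := q_zero q hq
  have h := hq P P
  rw [sub_self] at h
  linarith

/-- Value on an integral combination. -/
theorem q_comb (hq : ∀ P Q, q (P + Q) + q (P - Q) = 2 * (q P + q Q)) (P Q : G) (m n : ℤ) :
    q (m • P + n • Q)
      = (m : ℝ) ^ 2 * q P + (m : ℝ) * n * (q (P + Q) - q P - q Q) + (n : ℝ) ^ 2 * q Q := by
  have key : ∀ (A B : G) (a b : ℤ), q (a • A + b • B) - q (a • A) - q (b • B)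
      = (a : ℝ) * b * (q (A + B) - q A - q B) := by
    intro A B a b
    have h1 : polarHom q hq (b • B) (a • A) = (a : ℝ) * polarHom q hq (b • B) A := by
      rw [map_zsmul, zsmul_eq_mul]
    have h2 : polarHom q hq A (b • B) = (b : ℝ) * polarHom q hq A B := by
      rw [map_zsmul, zsmul_eq_mul]
    have h3 : polarHom q hq (b • B) A = polarHom q hq A (b • B) := by
      change q (A + b • B) - q A - q (b • B) = q (b • B + A) - q (b • B) - q A
      rw [add_comm A]; ring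
    have h4 : polarHom q hq A B = q (A + B) - q A - q B := by
      change q (B + A) - q B - q A = _
      rw [add_comm B]; ring
    calc q (a • A + b • B) - q (a • A) - q (b • B) = polarHom q hq (b • B) (a • A) := rfl
      _ = (a : ℝ) * b * (q (A + B) - q A - q B) := by rw [h1, h3, h2, h4]; ring
  have hsq : ∀ (A : G) (a : ℤ), q (a • A) = (a : ℝ) ^ 2 * q A := by
    intro A a
    have h1 := key A A a a
    rw [q_two q hq, q_two q hq] at h1
    have : 2 * q (a • A) = 2 * ((a : ℝ) ^ 2 * q A) := by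
      have h2 : 4 * q (a • A) - q (a • A) - q (a • A) = 2 * q (a • A) := by ring
      rw [← h2, h1]; ring
    linarith
  have h := key P Q m n
  rw [hsq, hsq] at h
  linarith

theorem cauchy (hq : ∀ P Q, q (P + Q) + q (P - Q) = 2 * (q P + q Q)) (hpos : ∀ P, 0 ≤ q P)
    (P Q : G) : (q (P + Q) - q P - q Q) ^ 2 ≤ 4 * (q P * q Q) := by
  set b := q (P + Q) - q P - q Q with hb
  have hrat : ∀ x : ℚ, 0 ≤ q P * ((x : ℝ) * x) + b * x + q Q := by
    intro x
    have h := q_comb q hq P Q x.num (x.den : ℤ)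
    have h0 := hpos (x.num • P + (x.den : ℤ) • Q)
    rw [h] at h0
    have hd : (0 : ℝ) < (x.den : ℝ) := by exact_mod_cast x.den_pos
    have hx : (x : ℝ) = (x.num : ℝ) / (x.den : ℝ) := Rat.cast_def x
    rw [hx]
    have : q P * ((x.num : ℝ) / x.den * (x.num / x.den)) + b * (x.num / x.den) + q Q
        = ((x.num : ℝ) ^ 2 * q P + (x.num : ℝ) * (x.den : ℤ) * b + ((x.den : ℤ) : ℝ) ^ 2 * q Q)
          / (x.den : ℝ) ^ 2 := by
      field_simp
      push_cast
      ring
    rw [this]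
    exact div_nonneg h0 (by positivity)
  have hreal : ∀ x : ℝ, 0 ≤ q P * (x * x) + b * x + q Q := by
    intro x
    have hcl : IsClosed {x : ℝ | 0 ≤ q P * (x * x) + b * x + q Q} :=
      isClosed_le continuous_const (by fun_prop)
    have hd : Dense (Set.range ((↑) : ℚ → ℝ)) := Rat.denseRange_cast
    have : x ∈ closure (Set.range ((↑) : ℚ → ℝ)) := hd x
    have hsub : Set.range ((↑) : ℚ → ℝ) ⊆ {x : ℝ | 0 ≤ q P * (x * x) + b * x + q Q} := by
      rintro _ ⟨y, rfl⟩
      exact hrat y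
    exact (closure_minimal hsub hcl) this
  have := discrim_le_zero hreal
  unfold discrim at this
  linarith

theorem sqrt_add_le (hq : ∀ P Q, q (P + Q) + q (P - Q) = 2 * (q P + q Q)) (hpos : ∀ P, 0 ≤ q P)
    (P Q : G) : √(q (P + Q)) ≤ √(q P) + √(q Q) := by
  have h := cauchy q hq hpos P Q
  have hP := Real.sq_sqrt (hpos P)
  have hQ := Real.sq_sqrt (hpos Q)
  have hP0 := Real.sqrt_nonneg (q P)
  have hQ0 := Real.sqrt_nonneg (q Q)
  have h2 : q (P + Q) - q P - q Q ≤ 2 * (√(q P) * √(q Q)) := by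
    apply le_of_sq_le_sq _ (by positivity)
    calc (q (P + Q) - q P - q Q) ^ 2 ≤ 4 * (q P * q Q) := h
      _ = (2 * (√(q P) * √(q Q))) ^ 2 := by
        rw [mul_pow, mul_pow, hP, hQ]; ring
  rw [Real.sqrt_le_left (by positivity)]
  nlinarith

end Quad

section Canon

variable {G : Type*} [AddCommGroup G]

theorem h_two (h : G → ℝ) (h0 : ∀ P, 0 ≤ h P) (C : ℝ)
    (hpar : ∀ P Q, |h (P + Q) + h (P - Q) - 2 * (h P + h Q)| ≤ C) (P : G) :
    |h (P + P) - 4 * h P| ≤ C + h 0 := by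
  have h1 := hpar P P
  rw [sub_self] at h1
  have h2 := h0 0
  rw [abs_le] at h1 ⊢
  constructor <;> linarith

/-- Existence of the canonical height. -/
theorem exists_canon (h : G → ℝ) (h0 : ∀ P, 0 ≤ h P) (C : ℝ)
    (hpar : ∀ P Q, |h (P + Q) + h (P - Q) - 2 * (h P + h Q)| ≤ C) :
    ∃ q : G → ℝ, (∀ P, 0 ≤ q P) ∧ (∀ P, |h P - q P| ≤ C + h 0) ∧
      (∀ P Q, q (P + Q) + q (P - Q) = 2 * (q P + q Q)) := by
  set C1 := C + h 0 with hC1
  have hC0 : 0 ≤ C := le_trans (abs_nonneg _) (hpar 0 0)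
  have hC1' : 0 ≤ C1 := add_nonneg hC0 (h0 0)
  let a : G → ℕ → ℝ := fun P n => h ((2 ^ n : ℕ) • P) / 4 ^ n
  have ha0 : ∀ P, a P 0 = h P := by intro P; simp [a]
  have hstep : ∀ P n, dist (a P n) (a P (n + 1)) ≤ C1 / 4 * (1 / 4) ^ n := by
    intro P n
    have e1 : ((2 ^ (n + 1) : ℕ) • P) = (2 ^ n : ℕ) • P + (2 ^ n : ℕ) • P := by
      rw [← add_nsmul]; congr 1; ring
    have h1 := h_two h h0 C hpar ((2 ^ n : ℕ) • P)
    rw [Real.dist_eq]
    change |h ((2 ^ n : ℕ) • P) / 4 ^ n - h ((2 ^ (n + 1) : ℕ) • P) / 4 ^ (n + 1)| ≤ _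
    rw [e1]
    have e2 : h ((2 ^ n : ℕ) • P) / 4 ^ n
        - h ((2 ^ n : ℕ) • P + (2 ^ n : ℕ) • P) / 4 ^ (n + 1)
        = -(h ((2 ^ n : ℕ) • P + (2 ^ n : ℕ) • P) - 4 * h ((2 ^ n : ℕ) • P)) / 4 ^ (n + 1) := by
      rw [pow_succ]; field_simp; ring
    rw [e2, abs_div, abs_neg, abs_of_pos (by positivity : (0 : ℝ) < 4 ^ (n + 1))]
    rw [div_le_iff₀ (by positivity)]
    have e3 : C1 / 4 * (1 / 4) ^ n * 4 ^ (n + 1) = C1 := by
      rw [pow_succ, one_div, inv_pow]; field_simp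
    rw [e3]
    exact h1
  have hcau : ∀ P, CauchySeq (a P) := fun P =>
    cauchySeq_of_le_geometric (1 / 4) (C1 / 4) (by norm_num) (hstep P)
  choose q hq using fun P => cauchySeq_tendsto_of_complete (hcau P)
  have hapos : ∀ P n, 0 ≤ a P n := fun P n => div_nonneg (h0 _) (by positivity)
  refine ⟨q, fun P => ge_of_tendsto' (hq P) (hapos P), fun P => ?_, fun P Q => ?_⟩
  · have h1 := dist_le_of_le_geometric_of_tendsto₀ (1 / 4) (C1 / 4) (by norm_num) (hstep P) (hq P)
    rw [ha0, Real.dist_eq] at h1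
    refine h1.trans ?_
    rw [div_le_iff₀ (by norm_num)]
    linarith
  · have hlim : Tendsto (fun n => a (P + Q) n + a (P - Q) n - 2 * (a P n + a Q n)) atTop
        (𝓝 (q (P + Q) + q (P - Q) - 2 * (q P + q Q))) :=
      ((hq (P + Q)).add (hq (P - Q))).sub (((hq P).add (hq Q)).const_mul 2)
    have hlim0 : Tendsto (fun n => a (P + Q) n + a (P - Q) n - 2 * (a P n + a Q n)) atTop
        (𝓝 0) := by
      have hb : ∀ n, |a (P + Q) n + a (P - Q) n - 2 * (a P n + a Q n)| ≤ C * (1 / 4) ^ n := by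
        intro n
        have h1 := hpar ((2 ^ n : ℕ) • P) ((2 ^ n : ℕ) • Q)
        rw [← nsmul_add, ← nsmul_sub] at h1
        have e2 : a (P + Q) n + a (P - Q) n - 2 * (a P n + a Q n)
            = (h ((2 ^ n : ℕ) • (P + Q)) + h ((2 ^ n : ℕ) • (P - Q))
              - 2 * (h ((2 ^ n : ℕ) • P) + h ((2 ^ n : ℕ) • Q))) / 4 ^ n := by
          simp only [a]; ring
        rw [e2, abs_div, abs_of_pos (by positivity : (0 : ℝ) < 4 ^ n),
          div_le_iff₀ (by positivity)]
        have e3 : C * (1 / 4) ^ n * 4 ^ n = C := by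
          rw [one_div, inv_pow]; field_simp
        rw [e3]
        exact h1
      refine squeeze_zero_norm hb ?_
      have := (tendsto_pow_atTop_nhds_zero_of_lt_one (by norm_num : (0 : ℝ) ≤ 1 / 4)
        (by norm_num : (1 / 4 : ℝ) < 1)).const_mul C
      simpa using this
    have := tendsto_nhds_unique hlim hlim0
    linarith

/-- Descent: every point is `2 ^ n` times a point of controlled size plus a small error. -/
theorem descent (q : G → ℝ) (hq : ∀ P Q, q (P + Q) + q (P - Q) = 2 * (q P + q Q))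
    (hpos : ∀ P, 0 ≤ q P) (T : Finset G) (hT : ∀ P, ∃ t ∈ T, ∃ R, P = t + 2 • R) (τ : ℝ)
    (hτ0 : 0 ≤ τ) (hτ : ∀ t ∈ T, √(q t) ≤ τ) (n : ℕ) (P : G) :
    ∃ R E : G, P = (2 ^ n : ℕ) • R + E ∧ √(q R) ≤ √(q P) / 2 ^ n + τ ∧
      √(q E) ≤ 2 ^ n * τ := by
  induction n with
  | zero =>
    refine ⟨P, 0, by simp, by simpa using hτ0, ?_⟩
    rw [q_zero q hq]
    simpa using hτ0
  | succ n ih =>
    obtain ⟨R, E, hP, hR, hE⟩ := ih
    obtain ⟨t, ht, R', hR'⟩ := hT R
    have hN2 : ∀ X : G, √(q (X + X)) = 2 * √(q X) := by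
      intro X
      rw [q_two q hq, Real.sqrt_mul (by norm_num)]
      congr 1
      rw [show (4 : ℝ) = 2 ^ 2 by norm_num, Real.sqrt_sq (by norm_num)]
    have hadd := sqrt_add_le q hq hpos
    have hNpow : ∀ (k : ℕ) (X : G), √(q ((2 ^ k : ℕ) • X)) = 2 ^ k * √(q X) := by
      intro k
      induction k with
      | zero => intro X; simp
      | succ k ihk =>
        intro X
        have e1 : ((2 ^ (k + 1) : ℕ) • X) = (2 ^ k : ℕ) • X + (2 ^ k : ℕ) • X := by
          rw [← add_nsmul]; congr 1; ring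
        rw [e1, hN2, ihk, pow_succ]; ring
    refine ⟨R', (2 ^ n : ℕ) • t + E, ?_, ?_, ?_⟩
    · rw [hP, hR', nsmul_add, ← mul_nsmul, pow_succ, mul_comm 2, add_right_comm, add_comm,
        add_comm]
      try abel
    · have h1 : R' + R' = R + (-t) := by rw [hR', two_nsmul]; abel
      have h2 := hadd R (-t)
      rw [← h1, hN2, q_neg q hq] at h2
      have h3 := hτ t ht
      rw [pow_succ, ← div_div]
      linarith
    · have h1 := hadd ((2 ^ n : ℕ) • t) E
      rw [hNpow] at h1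
      have h3 := hτ t ht
      have h4 : (2 : ℝ) ^ n * √(q t) ≤ 2 ^ n * τ := by
        apply mul_le_mul_of_nonneg_left h3 (by positivity)
      rw [pow_succ]
      linarith

theorem cover {G : Type*} [AddCommGroup G] (h : G → ℝ) (h0 : ∀ P, 0 ≤ h P) (C : ℝ)
    (hpar : ∀ P Q, |h (P + Q) + h (P - Q) - 2 * (h P + h Q)| ≤ C)
    (hN : ∀ B, {P | h P ≤ B}.Finite) (T : Finset G) (hT : ∀ P, ∃ t ∈ T, ∃ R, P = t + 2 • R)
    (δ : ℝ) (hδ : 0 < δ) (k : ℕ) :
    ∃ (N : ℕ) (M₀ : ℝ), ∀ M : ℝ, M₀ ≤ M → ∀ A : Finset G, (∀ P ∈ A, h P ≤ M) → N < A.card →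
      ∃ B ⊆ A, B.card = k ∧ ∀ P ∈ B, ∀ Q ∈ B, h (P - Q) ≤ δ * M := by
  classical
  obtain ⟨q, hqpos, hqh, hq⟩ := exists_canon h h0 C hpar
  set C1 := C + h 0 with hC1
  have hC0 : 0 ≤ C := le_trans (abs_nonneg _) (hpar 0 0)
  have hC1' : 0 ≤ C1 := add_nonneg hC0 (h0 0)
  set τ := 1 + ∑ t ∈ T, √(q t) with hτdef
  have hτ : ∀ t ∈ T, √(q t) ≤ τ := by
    intro t ht
    have := Finset.single_le_sum (f := fun t => √(q t)) (fun i _ => Real.sqrt_nonneg _) ht
    try dsimp only at this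
    linarith
  have hτ1 : 1 ≤ τ := by
    have := Finset.sum_nonneg (s := T) (f := fun t => √(q t)) (fun i _ => Real.sqrt_nonneg _)
    linarith
  have hτ0 : 0 < τ := by linarith
  set β := 8 * τ / √δ + τ with hβ
  have hsδ : 0 < √δ := Real.sqrt_pos.mpr hδ
  set Fs := (hN (β ^ 2 + C1)).toFinset with hFs
  refine ⟨Fs.card * k, C1 + 2 * C1 / δ + 8 * τ ^ 2 / δ + 1, ?_⟩
  intro M hM A hA hcard
  have hd1 : 0 ≤ 2 * C1 / δ := by positivity
  have hd2 : 0 ≤ 8 * τ ^ 2 / δ := by positivity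
  have hM0 : 0 < M := by linarith
  have hMC : C1 ≤ M := by linarith
  have hMδ : C1 ≤ δ * M / 2 := by
    have : 2 * C1 / δ ≤ M := by linarith
    rw [div_le_iff₀ hδ] at this
    linarith
  have hMτ : 8 * τ ^ 2 ≤ δ * M := by
    have : 8 * τ ^ 2 / δ ≤ M := by linarith
    rw [div_le_iff₀ hδ] at this
    linarith
  set a := √(2 * M) with ha
  have ha2 : a ^ 2 = 2 * M := Real.sq_sqrt (by positivity)
  have ha0 : 0 < a := Real.sqrt_pos.mpr (by positivity)
  have hsδ2 : √δ ^ 2 = δ := Real.sq_sqrt hδ.le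
  set c := a * √δ / 2 with hc
  have hc2 : c ^ 2 = δ * M / 2 := by
    rw [hc, div_pow, mul_pow, ha2, hsδ2]; ring
  have hc0 : 0 < c := by positivity
  have hx : 1 ≤ c / (2 * τ) := by
    rw [le_div_iff₀ (by positivity), one_mul]
    apply le_of_sq_le_sq _ hc0.le
    rw [hc2, mul_pow]; linarith
  obtain ⟨n, hn1, hn2⟩ := exists_nat_pow_near hx (by norm_num : (1 : ℝ) < 2)
  rw [le_div_iff₀ (by positivity)] at hn1
  rw [div_lt_iff₀ (by positivity)] at hn2
  choose! R E hP hR hE using descent q hq hqpos T hT τ hτ0.le hτ n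
  have hmaps : ∀ P ∈ A, R P ∈ Fs := by
    intro P hPA
    rw [hFs, Set.Finite.mem_toFinset, Set.mem_ofPred_eq]
    have h1 : √(q P) ≤ a := by
      apply Real.sqrt_le_sqrt
      have := hA P hPA
      have h2 := hqh P
      rw [abs_le] at h2
      linarith
    have h2 : √(q P) / 2 ^ n ≤ 8 * τ / √δ := by
      rw [div_le_div_iff₀ (by positivity) hsδ]
      have h3 : √(q P) * √δ ≤ a * √δ := mul_le_mul_of_nonneg_right h1 hsδ.le
      have h4 : a * √δ = 2 * c := by rw [hc]; ring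
      rw [pow_succ] at hn2
      nlinarith
    have h3 : √(q (R P)) ≤ β := (hR P).trans (by rw [hβ]; linarith)
    have h4 : q (R P) ≤ β ^ 2 := by
      have := Real.sq_sqrt (hqpos (R P))
      rw [← this]
      exact pow_le_pow_left₀ (Real.sqrt_nonneg _) h3 2
    have h5 := hqh (R P)
    rw [abs_le] at h5
    linarith
  obtain ⟨y, hy, hcy⟩ := Finset.exists_lt_card_fiber_of_mul_lt_card_of_maps_to hmaps hcard
  obtain ⟨B, hBs, hBc⟩ := Finset.exists_subset_card_eq hcy.le
  refine ⟨B, hBs.trans (Finset.filter_subset _ _), hBc, ?_⟩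
  intro P hPB Q hQB
  have hRP : R P = y := (Finset.mem_filter.mp (hBs hPB)).2
  have hRQ : R Q = y := (Finset.mem_filter.mp (hBs hQB)).2
  have hPQ : P - Q = E P + (-E Q) := by
    conv_lhs => rw [hP P, hP Q, hRP, hRQ]
    abel
  have h1 : √(q (P - Q)) ≤ c := by
    rw [hPQ]
    refine (sqrt_add_le q hq hqpos _ _).trans ?_
    rw [q_neg q hq]
    have h2 := hE P
    have h3 := hE Q
    linarith
  have h2 : q (P - Q) ≤ δ * M / 2 := by
    rw [← hc2, ← Real.sq_sqrt (hqpos (P - Q))]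
    exact pow_le_pow_left₀ (Real.sqrt_nonneg _) h1 2
  have h3 := hqh (P - Q)
  rw [abs_le] at h3
  linarith

end Canon

end Pool.Agent.MP90787a.T
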