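import Pool.Agent.Lib.MP_90787a_nt.T.Defs
import Pool.Agent.Lib.MP_90787a_nt.Places

set_option autoImplicit false

/-!
Finiteness of the group `K(S, n)` for a number field `K`.
-/

namespace Pool.Agent.MP90787a.T

open NumberField Height

open scoped nonZeroDivisors

/-- The group of units modulo `n`-th powers is finite. -/
theorem sel_units_fin (K : Type) [Field K] [NumberField K] (n : ℕ) (hn : 0 < n) :
    Finite ((𝓞 K)ˣ ⧸ (powMonoidHom n : (𝓞 K)ˣ →* (𝓞 K)ˣ).range) := by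
  have : Group.FG (𝓞 K)ˣ := Group.fg_iff_monoid_fg.mpr inferInstance
  have : Group.FG ((𝓞 K)ˣ ⧸ (powMonoidHom n : (𝓞 K)ˣ →* (𝓞 K)ˣ).range) :=
    inferInstance
  apply CommGroup.finite_of_fg_isMulTorsion
  intro x
  obtain ⟨u, rfl⟩ := QuotientGroup.mk_surjective x
  refine isOfFinOrder_iff_pow_eq_one.mpr ⟨n, hn, ?_⟩
  rw [← QuotientGroup.mk_pow, QuotientGroup.eq_one_iff]
  exact ⟨u, rfl⟩

/-- Every nonzero ideal is an `n`-th power times a divisor of a fixed ideal as soon as all the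
multiplicities outside a given finite set of primes are divisible by `n`. -/
theorem sel_decomp {R : Type} [CommRing R] [IsDedekindDomain R] (n : ℕ) (hn : 0 < n)
    (S : Finset (Ideal R)) (I : Ideal R) (hI : I ≠ ⊥)
    (h : ∀ P : Ideal R, P ∉ S → Prime P → n ∣ multiplicity P I) :
    ∃ A B : Ideal R, A ≠ ⊥ ∧ I = A ^ n * B ∧ B ∣ ∏ P ∈ S, P ^ n := by
  classical
  have hprod : (∏ P ∈ (UniqueFactorizationMonoid.normalizedFactors I).toFinset,
      P ^ (UniqueFactorizationMonoid.normalizedFactors I).count P) = I := by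
    rw [Finset.prod_multiset_count_of_subset _ _ (Finset.Subset.refl _) |>.symm]
    exact Ideal.prod_normalizedFactors_eq_self hI
  have hP : ∀ P ∈ (UniqueFactorizationMonoid.normalizedFactors I).toFinset, Prime P := by
    intro P hP
    exact UniqueFactorizationMonoid.prime_of_normalized_factor P (Multiset.mem_toFinset.mp hP)
  have hcount : ∀ P ∈ (UniqueFactorizationMonoid.normalizedFactors I).toFinset,
      (UniqueFactorizationMonoid.normalizedFactors I).count P = multiplicity P I := by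
    intro P hP'
    exact IsDedekindDomain.HeightOneSpectrum.count_normalizedFactors_eq_multiplicity
      (p := IsDedekindDomain.HeightOneSpectrum.ofPrime (hP P hP')) hI
  refine ⟨∏ P ∈ (UniqueFactorizationMonoid.normalizedFactors I).toFinset,
      P ^ ((UniqueFactorizationMonoid.normalizedFactors I).count P / n),
    ∏ P ∈ (UniqueFactorizationMonoid.normalizedFactors I).toFinset,
      P ^ ((UniqueFactorizationMonoid.normalizedFactors I).count P % n), ?_, ?_, ?_⟩
  · rw [← Ideal.zero_eq_bot]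
    refine Finset.prod_ne_zero_iff.mpr (fun P hP' => pow_ne_zero _ (hP P hP').ne_zero)
  · conv_lhs => rw [← hprod]
    rw [← Finset.prod_pow, ← Finset.prod_mul_distrib]
    refine Finset.prod_congr rfl (fun P _ => ?_)
    rw [← pow_mul, ← pow_add, mul_comm, Nat.div_add_mod]
  · have h1 : ∏ P ∈ (UniqueFactorizationMonoid.normalizedFactors I).toFinset,
        P ^ ((UniqueFactorizationMonoid.normalizedFactors I).count P % n)
        = ∏ P ∈ (UniqueFactorizationMonoid.normalizedFactors I).toFinset.filter (· ∈ S),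
          P ^ ((UniqueFactorizationMonoid.normalizedFactors I).count P % n) := by
      rw [Finset.prod_filter]
      refine Finset.prod_congr rfl (fun P hP' => ?_)
      split_ifs with hPS
      · rfl
      · have := h P hPS (hP P hP')
        rw [← hcount P hP'] at this
        rw [Nat.mod_eq_zero_of_dvd this, pow_zero]
    rw [h1]
    refine (Finset.prod_dvd_prod_of_dvd _ (fun P => P ^ n) (fun P _ => ?_)).trans
      (Finset.prod_dvd_prod_of_subset _ _ _ ?_)
    · exact pow_dvd_pow _ (Nat.mod_lt _ hn).le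
    · intro P hP'
      exact (Finset.mem_filter.mp hP').2

/-- A finite place with value an `n`-th power of a value has multiplicity divisible by `n`. -/
theorem sel_dvd {K : Type} [Field K] [NumberField K] (n : ℕ) (v : FinitePlace K) (a : 𝓞 K)
    (ha : a ≠ 0) (h : ∃ b : K, b ≠ 0 ∧ v (a : K) = v b ^ n) :
    n ∣ multiplicity v.maximalIdeal.asIdeal (Ideal.span {a}) := by
  obtain ⟨b, hb, hab⟩ := h
  obtain ⟨k, hk⟩ := Pool.Agent.UBC90787a.exists_zpow v hb
  have h1 := NumberField.FinitePlace.apply_mul_absNorm_pow_eq_one v ha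
  have hq := Pool.Agent.UBC90787a.one_lt_qv v
  rw [hab, hk] at h1
  change ((Pool.Agent.UBC90787a.qv v : ℝ) ^ k) ^ n * (Pool.Agent.UBC90787a.qv v : ℝ) ^ _ = 1 at h1
  rw [← zpow_natCast, ← zpow_natCast, ← zpow_mul,
    ← zpow_add₀ (by positivity : (Pool.Agent.UBC90787a.qv v : ℝ) ≠ 0)] at h1
  have h2 := zpow_right_injective₀ (by positivity) hq.ne' (h1.trans (zpow_zero _).symm)
  have h3 : (n : ℤ) ∣ (multiplicity v.maximalIdeal.asIdeal (Ideal.span {a}) : ℤ) :=
    ⟨-k, by linarith⟩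
  exact_mod_cast h3

/-- Integral version of the decomposition. -/
theorem sel_integral {K : Type} [Field K] [NumberField K] (n : ℕ) (hn : 0 < n)
    (S : Finset (FinitePlace K)) (a : 𝓞 K) (ha : a ≠ 0)
    (h : ∀ v : FinitePlace K, v ∉ S → ∃ b : K, b ≠ 0 ∧ v (a : K) = v b ^ n) :
    ∃ A : (Ideal (𝓞 K))⁰, ∃ B : Ideal (𝓞 K), Ideal.span {a} = (A : Ideal (𝓞 K)) ^ n * B ∧
      B ∣ ∏ v ∈ S, v.maximalIdeal.asIdeal ^ n := by
  classical
  obtain ⟨A, B, hA, hAB, hB⟩ := sel_decomp n hn (S.image (fun v => v.maximalIdeal.asIdeal))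
    (Ideal.span {a}) (by simpa using ha) (by
      intro P hP hprime
      let p := IsDedekindDomain.HeightOneSpectrum.ofPrime hprime
      let v : FinitePlace K := FinitePlace.mk p
      have hv : v.maximalIdeal.asIdeal = P := by
        change (FinitePlace.mk p).maximalIdeal.asIdeal = P
        rw [FinitePlace.maximalIdeal_mk]
        rfl
      have := sel_dvd n v a ha (h v (fun hvS => hP (Finset.mem_image.mpr ⟨v, hvS, hv⟩)))
      rwa [hv] at this)
  refine ⟨⟨A, mem_nonZeroDivisors_of_ne_zero hA⟩, B, hAB, ?_⟩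
  rwa [Finset.prod_image (fun v _ w _ hvw => FinitePlace.maximalIdeal_injective
    (IsDedekindDomain.HeightOneSpectrum.asIdeal_injective hvw))] at hB

/-- The group `K(S, n)` is finite. -/
theorem selmer (K : Type) [Field K] [NumberField K] (n : ℕ) (hn : 0 < n)
    (S : Finset (FinitePlace K)) : SelFin K n S := by
  classical
  have hU : Finite ((𝓞 K)ˣ ⧸ (powMonoidHom n : (𝓞 K)ˣ →* (𝓞 K)ˣ).range) := sel_units_fin K n hn
  let J : Ideal (𝓞 K) := ∏ v ∈ S, v.maximalIdeal.asIdeal ^ n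
  have hJ : J ≠ 0 := Finset.prod_ne_zero_iff.mpr
    (fun v _ => pow_ne_zero _ v.maximalIdeal.ne_bot)
  have hD : Finite {B : Ideal (𝓞 K) // B ∣ J} :=
    @Finite.of_fintype _ (UniqueFactorizationMonoid.fintypeSubtypeDvd J hJ)
  have hC : Finite (ClassGroup (𝓞 K)) := inferInstance
  -- the property of having given data
  let Dat : 𝓞 K → ClassGroup (𝓞 K) → {B : Ideal (𝓞 K) // B ∣ J} → Prop := fun a c B =>
    a ≠ 0 ∧ ∃ A : (Ideal (𝓞 K))⁰, ClassGroup.mk0 A = c ∧
      Ideal.span {a} = (A : Ideal (𝓞 K)) ^ n * B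
  let rep : ClassGroup (𝓞 K) → {B : Ideal (𝓞 K) // B ∣ J} → 𝓞 K := fun c B =>
    if h : ∃ a, Dat a c B then h.choose else 1
  have hrep0 : ∀ c B, rep c B ≠ 0 := by
    intro c B
    by_cases h : ∃ a, Dat a c B
    · have : rep c B = h.choose := dif_pos h
      rw [this]
      exact h.choose_spec.1
    · have : rep c B = 1 := dif_neg h
      rw [this]
      exact one_ne_zero
  have hrep : ∀ c B a, Dat a c B → Dat (rep c B) c B := by
    intro c B a ha
    have h : ∃ a, Dat a c B := ⟨a, ha⟩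
    have : rep c B = h.choose := dif_pos h
    rw [this]
    exact h.choose_spec
  let f : (((𝓞 K)ˣ ⧸ (powMonoidHom n : (𝓞 K)ˣ →* (𝓞 K)ˣ).range) ×
      (ClassGroup (𝓞 K) × {B : Ideal (𝓞 K) // B ∣ J})) → K := fun p =>
    ((p.1.out : (𝓞 K)ˣ) : 𝓞 K) * (rep p.2.1 p.2.2 : 𝓞 K)
  have hfin : (Set.range f).Finite := Set.finite_range f
  refine ⟨hfin.toFinset, ?_, ?_⟩
  · intro t ht
    obtain ⟨p, rfl⟩ := hfin.mem_toFinset.mp ht
    refine mul_ne_zero ?_ ?_
    · exact_mod_cast (Units.ne_zero _)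
    · exact_mod_cast hrep0 _ _
  · -- the integral case first
    have key : ∀ a : 𝓞 K, a ≠ 0 →
        (∀ v : FinitePlace K, v ∉ S → ∃ b : K, b ≠ 0 ∧ v (a : K) = v b ^ n) →
        ∃ t ∈ hfin.toFinset, ∃ w : K, w ≠ 0 ∧ (a : K) = t * w ^ n := by
      intro a ha h
      obtain ⟨A, B, hAB, hB⟩ := sel_integral n hn S a ha h
      have hdat : Dat a (ClassGroup.mk0 A) ⟨B, hB⟩ := ⟨ha, A, rfl, hAB⟩
      obtain ⟨ha', A', hA', hAB'⟩ := hrep _ _ _ hdat
      obtain ⟨x, y, hx, hy, hxy⟩ := (ClassGroup.mk0_eq_mk0_iff (R := 𝓞 K)).mp hA'.symm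
      set a' : 𝓞 K := rep (ClassGroup.mk0 A) ⟨B, hB⟩ with ha'def
      have hspan : Ideal.span {x ^ n * a} = Ideal.span {y ^ n * a'} := by
        rw [← Ideal.span_singleton_mul_span_singleton, ← Ideal.span_singleton_mul_span_singleton,
          ← Ideal.span_singleton_pow, ← Ideal.span_singleton_pow, hAB, hAB', ← mul_assoc,
          ← mul_assoc, ← mul_pow, ← mul_pow, hxy]
      obtain ⟨u, hu⟩ := Ideal.span_singleton_eq_span_singleton.mp hspan
      -- `x ^ n * a * u = y ^ n * a'`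
      obtain ⟨w, hw⟩ : ∃ w : (𝓞 K)ˣ, ((QuotientGroup.mk u⁻¹ :
          (𝓞 K)ˣ ⧸ (powMonoidHom n : (𝓞 K)ˣ →* (𝓞 K)ˣ).range).out)⁻¹ * u⁻¹ = w ^ n := by
        have h1 : (QuotientGroup.mk ((QuotientGroup.mk u⁻¹ :
          (𝓞 K)ˣ ⧸ (powMonoidHom n : (𝓞 K)ˣ →* (𝓞 K)ˣ).range).out) :
          (𝓞 K)ˣ ⧸ (powMonoidHom n : (𝓞 K)ˣ →* (𝓞 K)ˣ).range) = QuotientGroup.mk u⁻¹ :=
          QuotientGroup.out_eq' _
        obtain ⟨w, hw⟩ := QuotientGroup.eq.mp h1
        exact ⟨w, hw.symm⟩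
      refine ⟨f (QuotientGroup.mk u⁻¹, (ClassGroup.mk0 A, ⟨B, hB⟩)),
        hfin.mem_toFinset.mpr ⟨_, rfl⟩, ((w : 𝓞 K) : K) * y / x, ?_, ?_⟩
      · refine div_ne_zero (mul_ne_zero ?_ ?_) ?_
        · exact_mod_cast (Units.ne_zero w)
        · exact_mod_cast hy
        · exact_mod_cast hx
      · have hxK : (x : K) ≠ 0 := by exact_mod_cast hx
        have hu' : (x : K) ^ n * (a : K) * ((u : 𝓞 K) : K) = (y : K) ^ n * (a' : K) := by
          exact_mod_cast congrArg (fun z : 𝓞 K => (z : K)) hu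
        have huu : ((u : 𝓞 K) : K) * (((u⁻¹ : (𝓞 K)ˣ) : 𝓞 K) : K) = 1 := by
          rw [← map_mul, ← Units.val_mul, mul_inv_cancel, Units.val_one, map_one]
        set o : (𝓞 K)ˣ := (QuotientGroup.mk u⁻¹ :
          (𝓞 K)ˣ ⧸ (powMonoidHom n : (𝓞 K)ˣ →* (𝓞 K)ˣ).range).out with ho
        have hw' : u⁻¹ = o * w ^ n := by
          rw [← hw, mul_inv_cancel_left]
        have hw2 : (((u⁻¹ : (𝓞 K)ˣ) : 𝓞 K) : K) = ((o : 𝓞 K) : K) * ((w : 𝓞 K) : K) ^ n := by
          rw [hw']
          simp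
        change (a : K) = ((o : 𝓞 K) : K) * (a' : K) * (((w : 𝓞 K) : K) * y / x) ^ n
        rw [div_pow, mul_pow, mul_div_assoc', eq_div_iff (pow_ne_zero _ hxK)]
        calc (a : K) * x ^ n = (x : K) ^ n * (a : K) * (((u : 𝓞 K) : K) *
              (((u⁻¹ : (𝓞 K)ˣ) : 𝓞 K) : K)) := by rw [huu]; ring
          _ = ((x : K) ^ n * (a : K) * ((u : 𝓞 K) : K)) * (((u⁻¹ : (𝓞 K)ˣ) : 𝓞 K) : K) := by ring
          _ = _ := by rw [hu', hw2]; ring
    intro a ha h
    obtain ⟨x, y, hy, rfl⟩ := IsFractionRing.div_surjective (𝓞 K) a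
    have hy0 : y ≠ 0 := nonZeroDivisors.ne_zero hy
    have hyK : (y : K) ≠ 0 := by exact_mod_cast hy0
    have hxK : (x : K) ≠ 0 := by
      intro hx
      apply ha
      change (x : K) / (y : K) = 0
      rw [hx, zero_div]
    have hx0 : x ≠ 0 := by
      rintro rfl
      exact hxK (map_zero _)
    have hpow : (y : K) ^ (n - 1) * (y : K) = (y : K) ^ n := by
      rw [← pow_succ, Nat.sub_add_cancel hn]
    obtain ⟨t, ht, w, hw, hxw⟩ := key (x * y ^ (n - 1)) (mul_ne_zero hx0 (pow_ne_zero _ hy0)) (by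
      intro v hv
      obtain ⟨b, hb, hvb⟩ := h v hv
      refine ⟨b * y, mul_ne_zero hb hyK, ?_⟩
      have : (((x * y ^ (n - 1) : 𝓞 K)) : K) = ((x : K) / (y : K)) * (y : K) ^ n := by
        rw [← hpow]
        push_cast
        field_simp
      rw [this, map_mul, map_mul, mul_pow, map_pow]
      rw [← hvb])
    refine ⟨t, ht, w / y, div_ne_zero hw hyK, ?_⟩
    change (x : K) / (y : K) = t * (w / (y : K)) ^ n
    rw [div_pow, mul_div_assoc', ← hxw, ← hpow]
    push_cast
    field_simp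

end Pool.Agent.MP90787a.T
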