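import Pool.Agent.Lib.MP_90787a_nt.T.Defs
import Pool.Agent.Lib.MP_90787a_nt.Places

set_option autoImplicit false

/-!
Weak Mordell-Weil theorem for curves with full rational 2-torsion, from the finiteness of `L(S, 2)`.
-/

namespace Pool.Agent.MP90787a.T

open NumberField Height

section Curve

variable {L : Type} [Field L] (e₁ e₂ e₃ : L)

lemma WE_equation_iff (x y : L) :
    (WE e₁ e₂ e₃).toAffine.Equation x y ↔ y ^ 2 = (x - e₁) * (x - e₂) * (x - e₃) := by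
  rw [WeierstrassCurve.Affine.equation_iff]
  simp only [WE]
  constructor
  · intro h
    linear_combination h
  · intro h
    linear_combination h

lemma WE_nonsingular_of [NeZero (2 : L)] {x y : L}
    (h : y ^ 2 = (x - e₁) * (x - e₂) * (x - e₃)) (hy : y ≠ 0) :
    (WE e₁ e₂ e₃).toAffine.Nonsingular x y := by
  rw [WeierstrassCurve.Affine.nonsingular_iff]
  refine ⟨(WE_equation_iff e₁ e₂ e₃ x y).mpr h, Or.inr ?_⟩
  simp only [WE]
  intro h2
  apply hy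
  have h3 : (2 : L) * y = 0 := by linear_combination h2
  rcases mul_eq_zero.mp h3 with h4 | h4
  · exact absurd h4 (NeZero.ne 2)
  · exact h4

variable [DecidableEq L]

/-- A point all of whose `x - e_k` are squares is divisible by 2: the case with the right sign. -/
lemma halving_aux [NeZero (2 : L)] (h12 : e₁ ≠ e₂) (h13 : e₁ ≠ e₃) (h23 : e₂ ≠ e₃) {x y : L}
    (h : (WE e₁ e₂ e₃).toAffine.Nonsingular x y) {u₁ u₂ u₃ : L} (hu₁ : x - e₁ = u₁ ^ 2)
    (hu₂ : x - e₂ = u₂ ^ 2) (hu₃ : x - e₃ = u₃ ^ 2) (hy : y = u₁ * u₂ * u₃) :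
    ∃ R, WeierstrassCurve.Affine.Point.some x y h = 2 • R := by
  obtain rfl : e₁ = x - u₁ ^ 2 := by linear_combination -hu₁
  obtain rfl : e₂ = x - u₂ ^ 2 := by linear_combination -hu₂
  obtain rfl : e₃ = x - u₃ ^ 2 := by linear_combination -hu₃
  have n12 : u₁ + u₂ ≠ 0 := fun h0 => h12 (by linear_combination (u₂ - u₁) * h0)
  have n13 : u₁ + u₃ ≠ 0 := fun h0 => h13 (by linear_combination (u₃ - u₁) * h0)
  have n23 : u₂ + u₃ ≠ 0 := fun h0 => h23 (by linear_combination (u₃ - u₂) * h0)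
  have hY : (u₁ + u₂) * (u₁ + u₃) * (u₂ + u₃) ≠ 0 := mul_ne_zero (mul_ne_zero n12 n13) n23
  have hns : (WE (x - u₁ ^ 2) (x - u₂ ^ 2) (x - u₃ ^ 2)).toAffine.Nonsingular
      (x + (u₁ * u₂ + u₁ * u₃ + u₂ * u₃)) ((u₁ + u₂) * (u₁ + u₃) * (u₂ + u₃)) :=
    WE_nonsingular_of _ _ _ (by ring) hY
  refine ⟨.some _ _ hns, ?_⟩
  have hyne : (u₁ + u₂) * (u₁ + u₃) * (u₂ + u₃) ≠
      (WE (x - u₁ ^ 2) (x - u₂ ^ 2) (x - u₃ ^ 2)).toAffine.negY
        (x + (u₁ * u₂ + u₁ * u₃ + u₂ * u₃)) ((u₁ + u₂) * (u₁ + u₃) * (u₂ + u₃)) := by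
    simp only [WeierstrassCurve.Affine.negY, WE]
    intro h0
    have h3 : (2 : L) * ((u₁ + u₂) * (u₁ + u₃) * (u₂ + u₃)) = 0 := by linear_combination h0
    rcases mul_eq_zero.mp h3 with h4 | h4
    · exact absurd h4 (NeZero.ne 2)
    · exact hY h4
  rw [two_nsmul, WeierstrassCurve.Affine.Point.add_self_of_Y_ne hyne,
    WeierstrassCurve.Affine.Point.some.injEq]
  have hsl : (WE (x - u₁ ^ 2) (x - u₂ ^ 2) (x - u₃ ^ 2)).toAffine.slope
      (x + (u₁ * u₂ + u₁ * u₃ + u₂ * u₃)) (x + (u₁ * u₂ + u₁ * u₃ + u₂ * u₃))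
      ((u₁ + u₂) * (u₁ + u₃) * (u₂ + u₃)) ((u₁ + u₂) * (u₁ + u₃) * (u₂ + u₃)) =
      u₁ + u₂ + u₃ := by
    rw [WeierstrassCurve.Affine.slope_of_Y_ne rfl hyne, div_eq_iff (sub_ne_zero.mpr hyne)]
    simp only [WeierstrassCurve.Affine.negY, WE]
    ring
  rw [hsl]
  subst hy
  constructor
  · simp only [WeierstrassCurve.Affine.addX, WE]
    ring
  · simp only [WeierstrassCurve.Affine.addY, WeierstrassCurve.Affine.negAddY,
      WeierstrassCurve.Affine.negY, WeierstrassCurve.Affine.addX, WE]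
    ring

/-- A point all of whose `x - e_k` are squares is divisible by 2. -/
lemma halving [NeZero (2 : L)] (h12 : e₁ ≠ e₂) (h13 : e₁ ≠ e₃) (h23 : e₂ ≠ e₃) {x y : L}
    (h : (WE e₁ e₂ e₃).toAffine.Nonsingular x y) {u₁ u₂ u₃ : L} (hu₁ : x - e₁ = u₁ ^ 2)
    (hu₂ : x - e₂ = u₂ ^ 2) (hu₃ : x - e₃ = u₃ ^ 2) :
    ∃ R, WeierstrassCurve.Affine.Point.some x y h = 2 • R := by
  have heq := (WE_equation_iff e₁ e₂ e₃ x y).mp h.1
  have h2 : (y - u₁ * u₂ * u₃) * (y + u₁ * u₂ * u₃) = 0 := by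
    rw [hu₁, hu₂, hu₃] at heq
    linear_combination heq
  rcases mul_eq_zero.mp h2 with h3 | h3
  · exact halving_aux e₁ e₂ e₃ h12 h13 h23 h hu₁ hu₂ hu₃ (by linear_combination h3)
  · exact halving_aux e₁ e₂ e₃ h12 h13 h23 h (u₁ := -u₁) (u₂ := u₂) (u₃ := u₃)
      (by rw [hu₁]; ring) hu₂ hu₃ (by linear_combination h3)

/-- Two points with `y ≠ 0` in the same class differ by a multiple of 2. -/
lemma same_class [NeZero (2 : L)] (h12 : e₁ ≠ e₂) (h13 : e₁ ≠ e₃) (h23 : e₂ ≠ e₃)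
    {x₁ y₁ x₂ y₂ : L} (hP : (WE e₁ e₂ e₃).toAffine.Nonsingular x₁ y₁)
    (hQ : (WE e₁ e₂ e₃).toAffine.Nonsingular x₂ y₂) {m₁ m₂ m₃ : L}
    (hm₁ : (x₁ - e₁) * (x₂ - e₁) = m₁ ^ 2) (hm₂ : (x₁ - e₂) * (x₂ - e₂) = m₂ ^ 2)
    (hm₃ : (x₁ - e₃) * (x₂ - e₃) = m₃ ^ 2) (n₁ : m₁ ≠ 0) (n₂ : m₂ ≠ 0) (n₃ : m₃ ≠ 0) :
    ∃ R, WeierstrassCurve.Affine.Point.some x₁ y₁ hP =
      WeierstrassCurve.Affine.Point.some x₂ y₂ hQ + 2 • R := by
  suffices h : ∃ R, WeierstrassCurve.Affine.Point.some x₁ y₁ hP +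
      WeierstrassCurve.Affine.Point.some x₂ y₂ hQ = 2 • R by
    obtain ⟨R, hR⟩ := h
    refine ⟨R - WeierstrassCurve.Affine.Point.some x₂ y₂ hQ, ?_⟩
    rw [smul_sub, ← hR, two_nsmul]
    abel
  by_cases hx : x₁ = x₂
  · rcases WeierstrassCurve.Affine.Point.X_eq_iff (h₁ := hP) (h₂ := hQ) |>.mp hx with h | h
    · exact ⟨WeierstrassCurve.Affine.Point.some x₂ y₂ hQ, by rw [h, two_nsmul]⟩
    · exact ⟨0, by rw [h, neg_add_cancel, smul_zero]⟩
  · rw [WeierstrassCurve.Affine.Point.add_of_X_ne hx]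
    have key := WeierstrassCurve.Affine.addPolynomial_slope hP.1 hQ.1 (fun h => hx h.1)
    set ℓ := (WE e₁ e₂ e₃).toAffine.slope x₁ x₂ y₁ y₂ with hℓ
    have heval : ∀ e : L, (e - x₁) * (e - x₂) *
        (e - (WE e₁ e₂ e₃).toAffine.addX x₁ x₂ ℓ) =
        (e - e₁) * (e - e₂) * (e - e₃) - (ℓ * (e - x₁) + y₁) ^ 2 := by
      intro e
      have h1 := congrArg (Polynomial.eval e) key
      simp only [WeierstrassCurve.Affine.addPolynomial, WeierstrassCurve.Affine.linePolynomial,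
        WeierstrassCurve.Affine.polynomial, WE, Polynomial.eval_add, Polynomial.eval_sub,
        Polynomial.eval_mul, Polynomial.eval_pow, Polynomial.eval_C, Polynomial.eval_X,
        Polynomial.eval_neg] at h1
      simp only [WE]
      linear_combination h1
    refine halving e₁ e₂ e₃ h12 h13 h23 _ (u₁ := (ℓ * (e₁ - x₁) + y₁) / m₁)
      (u₂ := (ℓ * (e₂ - x₁) + y₁) / m₂) (u₃ := (ℓ * (e₃ - x₁) + y₁) / m₃) ?_ ?_ ?_
    · rw [div_pow, eq_div_iff (pow_ne_zero 2 n₁), ← hm₁]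
      linear_combination -heval e₁
    · rw [div_pow, eq_div_iff (pow_ne_zero 2 n₂), ← hm₂]
      linear_combination -heval e₂
    · rw [div_pow, eq_div_iff (pow_ne_zero 2 n₃), ← hm₃]
      linear_combination -heval e₃

end Curve

section Local

variable {L : Type} [Field L] [NumberField L]

lemma add_le_max' (v : FinitePlace L) (x y : L) : v (x + y) ≤ max (v x) (v y) :=
  map_add_le_max v x y

lemma neg' (v : FinitePlace L) (x : L) : v (-x) = v x := map_neg_eq_map v x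

lemma sub_le_max' (v : FinitePlace L) (x y : L) : v (x - y) ≤ max (v x) (v y) := by
  rw [sub_eq_add_neg, ← neg' v y]
  exact add_le_max' v x (-y)

lemma add_eq_left (v : FinitePlace L) {x y : L} (h : v y < v x) : v (x + y) = v x := by
  apply le_antisymm
  · exact (add_le_max' v x y).trans (max_le le_rfl h.le)
  · by_contra hlt
    push Not at hlt
    have h1 : v x ≤ max (v (x + y)) (v y) := by
      have := sub_le_max' v (x + y) y
      rwa [add_sub_cancel_right] at this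
    exact absurd h1 (not_le.mpr (max_lt hlt h))

/-- The local computation: outside the bad places `x - e_k` has even valuation. -/
lemma local_even (v : FinitePlace L) {x y a b c : L} (ha : v a ≤ 1) (hb : v b ≤ 1) (hc : v c ≤ 1)
    (hab : v (a - b) = 1) (hac : v (a - c) = 1) (h : y ^ 2 = (x - a) * (x - b) * (x - c)) (hy : y ≠ 0) :
    ∃ w : L, w ≠ 0 ∧ v (x - a) = v w ^ 2 := by
  have hmul : v y ^ 2 = v (x - a) * v (x - b) * v (x - c) := by
    rw [← map_pow, h, map_mul, map_mul]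
  by_cases hx : 1 < v x
  · have h1 : ∀ e : L, v e ≤ 1 → v (x - e) = v x := by
      intro e he
      rw [sub_eq_add_neg]
      exact add_eq_left v (by rw [neg']; exact he.trans_lt hx)
    have hx0 : x ≠ 0 := by
      rintro rfl
      rw [map_zero] at hx
      linarith
    refine ⟨y / x, div_ne_zero hy hx0, ?_⟩
    rw [map_div₀, div_pow, hmul, h1 a ha, h1 b hb, h1 c hc]
    have : v x ≠ 0 := by linarith
    field_simp
  · push Not at hx
    have h1 : ∀ e : L, v e ≤ 1 → v (x - e) ≤ 1 := fun e he =>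
      (sub_le_max' v x e).trans (max_le hx he)
    rcases (h1 a ha).eq_or_lt with h2 | h2
    · exact ⟨1, one_ne_zero, by rw [h2, map_one, one_pow]⟩
    · refine ⟨y, hy, ?_⟩
      have h3 : v (x - b) = 1 := by
        have : x - b = (a - b) + (x - a) := by ring
        rw [this, add_eq_left v (by rw [hab]; exact h2), hab]
      have h4 : v (x - c) = 1 := by
        have : x - c = (a - c) + (x - a) := by ring
        rw [this, add_eq_left v (by rw [hac]; exact h2), hac]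
      rw [hmul, h3, h4, mul_one, mul_one]

end Local

/-- Weak Mordell-Weil theorem for `y² = (x - e₁)(x - e₂)(x - e₃)`. -/
theorem weakMW {L : Type} [Field L] [NumberField L] [DecidableEq L]
    (hsel : ∀ S : Finset (FinitePlace L), SelFin L 2 S) (e₁ e₂ e₃ : L) (h12 : e₁ ≠ e₂)
    (h13 : e₁ ≠ e₃) (h23 : e₂ ≠ e₃) :
    ∃ T : Finset (WE e₁ e₂ e₃).toAffine.Point, ∀ P, ∃ t ∈ T, ∃ R, P = t + 2 • R := by
  classical
  obtain ⟨S, hS⟩ := UBC90787a.exists_finset_places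
    ({e₁, e₂, e₃, e₁ - e₂, e₁ - e₃, e₂ - e₃} : Finset L)
  obtain ⟨T₀, hT₀, hT⟩ := hsel S
  have hle : ∀ v, v ∉ S → ∀ e ∈ ({e₁, e₂, e₃} : Finset L), v e ≤ 1 := by
    intro v hv e he
    by_cases h0 : e = 0
    · rw [h0, map_zero]
      exact zero_le_one
    · refine (hS v hv e ?_ h0).le
      simp only [Finset.mem_insert, Finset.mem_singleton] at he ⊢
      tauto
  have hv12 : ∀ v, v ∉ S → v (e₁ - e₂) = 1 := fun v hv =>
    hS v hv _ (by simp) (sub_ne_zero.mpr h12)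
  have hv13 : ∀ v, v ∉ S → v (e₁ - e₃) = 1 := fun v hv =>
    hS v hv _ (by simp) (sub_ne_zero.mpr h13)
  have hv23 : ∀ v, v ∉ S → v (e₂ - e₃) = 1 := fun v hv =>
    hS v hv _ (by simp) (sub_ne_zero.mpr h23)
  have hsw : ∀ (v : FinitePlace L) (a b : L), v (a - b) = v (b - a) := by
    intro v a b
    rw [← neg' v (a - b), neg_sub]
  -- the classes of a point
  have hcl : ∀ x y : L, y ^ 2 = (x - e₁) * (x - e₂) * (x - e₃) → y ≠ 0 →
      ∃ t : L × L × L, t ∈ T₀ ×ˢ T₀ ×ˢ T₀ ∧ (∃ w : L, w ≠ 0 ∧ x - e₁ = t.1 * w ^ 2) ∧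
        (∃ w : L, w ≠ 0 ∧ x - e₂ = t.2.1 * w ^ 2) ∧
        (∃ w : L, w ≠ 0 ∧ x - e₃ = t.2.2 * w ^ 2) := by
    intro x y h hy
    have hne : (x - e₁) * (x - e₂) * (x - e₃) ≠ 0 := by
      rw [← h]
      exact pow_ne_zero 2 hy
    have hn3 : x - e₃ ≠ 0 := right_ne_zero_of_mul hne
    have hn1 : x - e₁ ≠ 0 := left_ne_zero_of_mul (left_ne_zero_of_mul hne)
    have hn2 : x - e₂ ≠ 0 := right_ne_zero_of_mul (left_ne_zero_of_mul hne)
    obtain ⟨t₁, ht₁, w₁, hw₁, hh₁⟩ := hT (x - e₁) hn1 (fun v hv =>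
      local_even v (hle v hv _ (by simp)) (hle v hv _ (by simp)) (hle v hv _ (by simp))
        (hv12 v hv) (hv13 v hv) h hy)
    obtain ⟨t₂, ht₂, w₂, hw₂, hh₂⟩ := hT (x - e₂) hn2 (fun v hv =>
      local_even v (a := e₂) (b := e₁) (c := e₃) (y := y) (hle v hv _ (by simp))
        (hle v hv _ (by simp)) (hle v hv _ (by simp))
        (by rw [hsw]; exact hv12 v hv) (hv23 v hv) (by rw [h]; ring) hy)
    obtain ⟨t₃, ht₃, w₃, hw₃, hh₃⟩ := hT (x - e₃) hn3 (fun v hv =>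
      local_even v (a := e₃) (b := e₁) (c := e₂) (y := y) (hle v hv _ (by simp))
        (hle v hv _ (by simp)) (hle v hv _ (by simp))
        (by rw [hsw]; exact hv13 v hv) (by rw [hsw]; exact hv23 v hv) (by rw [h]; ring) hy)
    exact ⟨(t₁, t₂, t₃), by simp [ht₁, ht₂, ht₃], ⟨w₁, hw₁, hh₁⟩, ⟨w₂, hw₂, hh₂⟩,
      ⟨w₃, hw₃, hh₃⟩⟩
  -- a representative of each class
  let Good : L × L × L → (WE e₁ e₂ e₃).toAffine.Point → Prop := fun t P =>
    ∃ (x y : L) (h : (WE e₁ e₂ e₃).toAffine.Nonsingular x y), P = .some x y h ∧ y ≠ 0 ∧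
      (∃ w : L, w ≠ 0 ∧ x - e₁ = t.1 * w ^ 2) ∧ (∃ w : L, w ≠ 0 ∧ x - e₂ = t.2.1 * w ^ 2) ∧
        (∃ w : L, w ≠ 0 ∧ x - e₃ = t.2.2 * w ^ 2)
  let rep : L × L × L → (WE e₁ e₂ e₃).toAffine.Point := fun t =>
    if h : ∃ P, Good t P then h.choose else 0
  have hrep : ∀ t P, Good t P → Good t (rep t) := by
    intro t P hP
    have h : ∃ P, Good t P := ⟨P, hP⟩
    simp only [rep, dif_pos h]
    exact h.choose_spec
  let rep2 : L → (WE e₁ e₂ e₃).toAffine.Point := fun e =>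
    if h : (WE e₁ e₂ e₃).toAffine.Nonsingular e 0 then .some e 0 h else 0
  refine ⟨insert 0 ((T₀ ×ˢ T₀ ×ˢ T₀).image rep ∪ ({e₁, e₂, e₃} : Finset L).image rep2), ?_⟩
  intro P
  rcases P with _ | ⟨x, y, h⟩
  · exact ⟨0, Finset.mem_insert_self _ _, 0, by rw [smul_zero, add_zero]; rfl⟩
  · have heq := (WE_equation_iff e₁ e₂ e₃ x y).mp h.1
    by_cases hy : y = 0
    · subst hy
      have hx : x ∈ ({e₁, e₂, e₃} : Finset L) := by
        have h0 : (x - e₁) * (x - e₂) * (x - e₃) = 0 := by rw [← heq]; ring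
        simp only [Finset.mem_insert, Finset.mem_singleton]
        rcases mul_eq_zero.mp h0 with h1 | h1
        · rcases mul_eq_zero.mp h1 with h2 | h2
          · exact Or.inl (sub_eq_zero.mp h2)
          · exact Or.inr (Or.inl (sub_eq_zero.mp h2))
        · exact Or.inr (Or.inr (sub_eq_zero.mp h1))
      refine ⟨rep2 x, Finset.mem_insert_of_mem (Finset.mem_union_right _
        (Finset.mem_image_of_mem _ hx)), 0, ?_⟩
      simp only [rep2, dif_pos h, smul_zero, add_zero]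
    · obtain ⟨t, ht, hw1, hw2, hw3⟩ := hcl x y heq hy
      have hgood : Good t (.some x y h) := ⟨x, y, h, rfl, hy, hw1, hw2, hw3⟩
      obtain ⟨x', y', h', hPe, hy', ⟨w₁', hw₁', hh₁'⟩, ⟨w₂', hw₂', hh₂'⟩, ⟨w₃', hw₃', hh₃'⟩⟩ :=
        hrep t _ hgood
      obtain ⟨w₁, hw₁, hh₁⟩ := hw1
      obtain ⟨w₂, hw₂, hh₂⟩ := hw2
      obtain ⟨w₃, hw₃, hh₃⟩ := hw3
      simp only [Finset.mem_product] at ht
      refine ⟨rep t, Finset.mem_insert_of_mem (Finset.mem_union_left _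
        (Finset.mem_image_of_mem _ (by simp only [Finset.mem_product]; exact ht))), ?_⟩
      rw [hPe]
      refine same_class e₁ e₂ e₃ h12 h13 h23 h h' (m₁ := t.1 * w₁ * w₁') (m₂ := t.2.1 * w₂ * w₂')
        (m₃ := t.2.2 * w₃ * w₃') (by rw [hh₁, hh₁']; ring) (by rw [hh₂, hh₂']; ring)
        (by rw [hh₃, hh₃']; ring) ?_ ?_ ?_
      · exact mul_ne_zero (mul_ne_zero (hT₀ _ ht.1) hw₁) hw₁'
      · exact mul_ne_zero (mul_ne_zero (hT₀ _ ht.2.1) hw₂) hw₂'
      · exact mul_ne_zero (mul_ne_zero (hT₀ _ ht.2.2) hw₃) hw₃'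

end Pool.Agent.MP90787a.T
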