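import Pool.Agent.Lib.MP_90787a_nt.T.KissOdd
import Pool.Agent.Lib.MP_90787a_nt.T.Selmer
import Pool.Agent.Lib.MP_90787a_nt.T.Cover
import Pool.Agent.Lib.MP_90787a_nt.T.Para
import Pool.Agent.Lib.MP_90787a_nt.T.WeakMW

set_option autoImplicit false

/-!
Number field extensions for even `d`: the ratios of controlled pairs lie in a set with the kissing
property over one number field.
-/

namespace Pool.Agent.MP90787a.T

open NumberField Height Real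

/-- Adjoining one root of each polynomial of a finite set. -/
lemma exists_ext (K : Type) [Field K] [NumberField K] (s : Finset (Polynomial K))
    (hs : ∀ p ∈ s, p.degree ≠ 0 ∧ p ≠ 0) :
    ∃ (L : Type) (_ : Field L) (_ : NumberField L) (f : K →+* L),
      ∀ p ∈ s, ∃ x : L, p.eval₂ f x = 0 := by
  classical
  have h0 : ∏ p ∈ s, p ≠ 0 := Finset.prod_ne_zero_iff.mpr fun p hp => (hs p hp).2
  refine ⟨(∏ p ∈ s, p).SplittingField, inferInstance,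
    NumberField.of_module_finite K _, algebraMap K _, fun p hp => ?_⟩
  have h1 := Polynomial.SplittingField.splits (∏ p ∈ s, p)
  have h2 : p.map (algebraMap K (∏ p ∈ s, p).SplittingField) ∣
      (∏ p ∈ s, p).map (algebraMap K (∏ p ∈ s, p).SplittingField) :=
    Polynomial.map_dvd _ (Finset.dvd_prod_of_mem _ hp)
  have h3 := h1.of_dvd (by
    rw [Ne, Polynomial.map_eq_zero]
    exact h0) h2
  obtain ⟨x, hx⟩ := h3.exists_eval_eq_zero (by
    rw [Polynomial.degree_map]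
    exact (hs p hp).1)
  exact ⟨x, by rwa [Polynomial.eval_map] at hx⟩

/-- The covering property holds over every number field. -/
theorem coverProp {L : Type} [Field L] [NumberField L] [DecidableEq L] (e₁ e₂ e₃ : L)
    (h12 : e₁ ≠ e₂) (h13 : e₁ ≠ e₃) (h23 : e₂ ≠ e₃) : CoverProp e₁ e₂ e₃ := by
  classical
  have : (WE e₁ e₂ e₃).IsElliptic := by
    constructor
    rw [isUnit_iff_ne_zero]
    have h : (WE e₁ e₂ e₃).Δ = 16 * (e₁ - e₂) ^ 2 * (e₁ - e₃) ^ 2 * (e₂ - e₃) ^ 2 := by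
      simp only [WE, WeierstrassCurve.Δ, WeierstrassCurve.b₂, WeierstrassCurve.b₄,
        WeierstrassCurve.b₆, WeierstrassCurve.b₈]
      ring
    rw [h]
    have := sub_ne_zero.mpr h12
    have := sub_ne_zero.mpr h13
    have := sub_ne_zero.mpr h23
    have : (16 : L) ≠ 0 := by norm_num
    positivity
  obtain ⟨C, hC⟩ := parallelogram (WE e₁ e₂ e₃)
  obtain ⟨T, hT⟩ := weakMW (fun S => selmer L 2 (by norm_num) S) e₁ e₂ e₃ h12 h13 h23
  intro δ k hδ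
  exact cover nh (fun P => nh_nonneg P) C hC (fun B => northcott _ B) T hT δ hδ k

/-- The package for three given points. -/
theorem pack_three (K : Type) [Field K] [NumberField K] (n : ℕ) (hn : 3 ≤ n) (hodd : Odd n)
    (α β γ : K) (hα : α ≠ 0) (hβ : β ≠ 0) (hγ : γ ≠ 0) (hαβ : α ≠ β) (hγα : γ ≠ α)
    (hγβ : γ ≠ β) (hM : γ * (α + β) ≠ 2 * α * β) (S₀ : Finset (FinitePlace K)) :
    ∃ (L : Type) (_ : Field L) (_ : NumberField L) (f : K →+* L) (D : Set L) (E : Finset K),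
      Kiss L D ∧ ∀ t : K, t ≠ 0 → t ∉ E →
        (∀ v : FinitePlace K, v ∉ S₀ → ∃ b : K, b ≠ 0 ∧ v (t - α) = v (t - γ) * v b ^ n) →
        (∀ v : FinitePlace K, v ∉ S₀ → ∃ b : K, b ≠ 0 ∧ v (t - β) = v (t - γ) * v b ^ n) →
        f t ∈ D := by
  classical
  have hn0 : n ≠ 0 := by omega
  have nγα : γ - α ≠ 0 := sub_ne_zero.mpr hγα
  have nγβ : γ - β ≠ 0 := sub_ne_zero.mpr hγβ
  have nαβ : α - β ≠ 0 := sub_ne_zero.mpr hαβ
  obtain ⟨T₁, hT₁, hsel₁⟩ := selmer K n (by omega) S₀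
  have hb0 : (4 * (γ - α) * (γ - β) : K) ≠ 0 :=
    mul_ne_zero (mul_ne_zero (by norm_num) nγα) nγβ
  obtain ⟨b₀, hb₀⟩ : ∃ b₀ : K, b₀ = 4 * (γ - α) * (γ - β) := ⟨_, rfl⟩
  rw [← hb₀] at hb0
  obtain ⟨L₁, _, _, f₁, hr₁⟩ := exists_ext K
    (T₁.image (fun τ => Polynomial.X ^ n - Polynomial.C τ) ∪
      {Polynomial.cyclotomic n K, Polynomial.C b₀ * Polynomial.X ^ n +
        Polynomial.C ((α - β) ^ 2)}) (by
    intro p hp
    rw [Finset.mem_union, Finset.mem_image, Finset.mem_insert, Finset.mem_singleton] at hp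
    rcases hp with ⟨τ, _, rfl⟩ | rfl | rfl
    · rw [Polynomial.degree_X_pow_sub_C (by omega)]
      exact ⟨by exact_mod_cast hn0, Polynomial.X_pow_sub_C_ne_zero (by omega) _⟩
    · refine ⟨?_, Polynomial.cyclotomic_ne_zero n K⟩
      exact (Polynomial.degree_cyclotomic_pos n K (by omega)).ne'
    · have hdeg : (Polynomial.C b₀ * Polynomial.X ^ n + Polynomial.C ((α - β) ^ 2)).degree =
          (n : WithBot ℕ) := by
        rw [Polynomial.degree_add_C, Polynomial.degree_C_mul_X_pow n hb0]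
        rw [Polynomial.degree_C_mul_X_pow n hb0]
        exact_mod_cast (by omega : 0 < n)
      refine ⟨by rw [hdeg]; exact_mod_cast hn0, ?_⟩
      intro h
      rw [h, Polynomial.degree_zero] at hdeg
      exact absurd hdeg (by simp))
  have hσ : ∀ τ ∈ T₁, ∃ σ : L₁, σ ^ n = f₁ τ := by
    intro τ hτ
    obtain ⟨x, hx⟩ := hr₁ (Polynomial.X ^ n - Polynomial.C τ) (by
      rw [Finset.mem_union, Finset.mem_image]
      exact Or.inl ⟨τ, hτ, rfl⟩)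
    refine ⟨x, ?_⟩
    simp only [Polynomial.eval₂_sub, Polynomial.eval₂_pow, Polynomial.eval₂_X,
      Polynomial.eval₂_C] at hx
    exact sub_eq_zero.mp hx
  obtain ⟨ω, hω⟩ : ∃ ω : L₁, IsPrimitiveRoot ω n := by
    obtain ⟨x, hx⟩ := hr₁ (Polynomial.cyclotomic n K) (by simp)
    refine ⟨x, ?_⟩
    have : NeZero (n : L₁) := ⟨Nat.cast_ne_zero.mpr hn0⟩
    rw [← Polynomial.isRoot_cyclotomic_iff, ← Polynomial.map_cyclotomic n f₁,
      Polynomial.IsRoot.def, Polynomial.eval_map]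
    exact hx
  obtain ⟨ρ, hρ⟩ : ∃ ρ : L₁, f₁ b₀ * ρ ^ n = -f₁ ((α - β) ^ 2) := by
    obtain ⟨x, hx⟩ := hr₁ (Polynomial.C b₀ * Polynomial.X ^ n +
        Polynomial.C ((α - β) ^ 2)) (by simp)
    refine ⟨x, ?_⟩
    simp only [Polynomial.eval₂_add, Polynomial.eval₂_mul, Polynomial.eval₂_pow,
      Polynomial.eval₂_X, Polynomial.eval₂_C] at hx
    linear_combination hx
  have hfb : f₁ b₀ ≠ 0 := (map_ne_zero f₁).mpr hb0
  have hρ0 : ρ ≠ 0 := by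
    rintro rfl
    rw [zero_pow hn0, mul_zero] at hρ
    have h1 : f₁ ((α - β) ^ 2) = 0 := by linear_combination hρ
    rw [map_eq_zero] at h1
    exact nαβ (pow_eq_zero_iff two_ne_zero |>.mp h1)
  obtain ⟨S₂, hS₂⟩ := odd_sel n hn hodd ω hω (f₁ b₀) ρ hfb hρ0
  obtain ⟨T₂, hT₂, hsel₂⟩ := selmer L₁ 2 (by norm_num) S₂
  obtain ⟨L₂, _, _, f₂, hr₂⟩ := exists_ext L₁
    (T₂.image (fun τ => Polynomial.X ^ 2 - Polynomial.C τ)) (by
    intro p hp
    obtain ⟨τ, _, rfl⟩ := Finset.mem_image.mp hp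
    rw [Polynomial.degree_X_pow_sub_C (by norm_num)]
    exact ⟨by norm_num, Polynomial.X_pow_sub_C_ne_zero (by norm_num) _⟩)
  have hσ₂ : ∀ τ ∈ T₂, ∃ σ : L₂, σ ^ 2 = f₂ τ := by
    intro τ hτ
    obtain ⟨x, hx⟩ := hr₂ (Polynomial.X ^ 2 - Polynomial.C τ) (Finset.mem_image_of_mem _ hτ)
    refine ⟨x, ?_⟩
    simp only [Polynomial.eval₂_sub, Polynomial.eval₂_pow, Polynomial.eval₂_X,
      Polynomial.eval₂_C] at hx
    exact sub_eq_zero.mp hx
  set g : K →+* L₂ := f₂.comp f₁ with hg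
  have hginj : Function.Injective g := g.injective
  have hρ₂ : 4 * (g γ - g α) * (g γ - g β) * (f₂ ρ) ^ n = -(g α - g β) ^ 2 := by
    have h1 := congrArg f₂ hρ
    rw [map_mul, map_pow, map_neg] at h1
    have h2 : f₂ (f₁ b₀) = 4 * (g γ - g α) * (g γ - g β) := by
      rw [hb₀, hg]
      simp only [RingHom.comp_apply, map_mul, map_sub, map_ofNat]
    have h3 : f₂ (f₁ ((α - β) ^ 2)) = (g α - g β) ^ 2 := by
      rw [hg]
      simp only [RingHom.comp_apply, map_pow, map_sub]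
    rw [h2, h3] at h1
    exact h1
  have hkiss := kiss_odd (L := L₂) (fun e₁ e₂ e₃ => coverProp e₁ e₂ e₃) n hn (f₂ ω)
    (hω.map_of_injective f₂.injective) (g α) (g β) (g γ) (f₂ ρ)
    ((map_ne_zero g).mpr hα) ((map_ne_zero g).mpr hβ) ((map_ne_zero g).mpr hγ)
    (hginj.ne hαβ) (hginj.ne hγα) (hginj.ne hγβ) (by
      intro h
      apply hM
      apply hginj
      simp only [map_mul, map_add, map_ofNat]
      exact h) hρ₂
  refine ⟨L₂, inferInstance, inferInstance, g, _,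
    {α, β, γ, (γ * (α + β) - 2 * α * β) / (2 * γ - α - β)}, hkiss, ?_⟩
  intro t ht0 htE h1 h2
  simp only [Finset.mem_insert, Finset.mem_singleton, not_or] at htE
  obtain ⟨htα, htβ, htγ, htM⟩ := htE
  have ntα : t - α ≠ 0 := sub_ne_zero.mpr htα
  have ntβ : t - β ≠ 0 := sub_ne_zero.mpr htβ
  have ntγ : t - γ ≠ 0 := sub_ne_zero.mpr htγ
  have key : ∀ δ : K, t - δ ≠ 0 → (∀ v : FinitePlace K, v ∉ S₀ → ∃ b : K, b ≠ 0 ∧
      v (t - δ) = v (t - γ) * v b ^ n) → ∃ A : L₁, f₁ (t - δ) = A ^ n * f₁ (t - γ) := by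
    intro δ hδ hv
    obtain ⟨τ, hτ, w, hw, hq⟩ := hsel₁ ((t - δ) / (t - γ)) (div_ne_zero hδ ntγ) (by
      intro v hvS
      obtain ⟨b, hb, hb'⟩ := hv v hvS
      refine ⟨b, hb, ?_⟩
      rw [map_div₀, hb', mul_div_cancel_left₀]
      exact (v_pos v ntγ).ne')
    obtain ⟨σ, hσ'⟩ := hσ τ hτ
    refine ⟨σ * f₁ w, ?_⟩
    have h3 : t - δ = τ * w ^ n * (t - γ) := by
      rw [← hq]
      field_simp
    rw [h3, map_mul, map_mul, map_pow, mul_pow, hσ']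
  obtain ⟨A, hA⟩ := key α ntα h1
  obtain ⟨B, hB⟩ := key β ntβ h2
  set V : L₁ := A * B with hV
  have hVn : f₁ (t - α) * f₁ (t - β) = V ^ n * f₁ (t - γ) ^ 2 := by
    rw [hA, hB, hV]
    ring
  have nf : f₁ (t - γ) ≠ 0 := (map_ne_zero f₁).mpr ntγ
  have nW : (2 * γ - α - β) * t - (γ * (α + β) - 2 * α * β) ≠ 0 := by
    intro h
    rcases eq_or_ne (2 * γ - α - β) 0 with h3 | h3
    · rw [h3, zero_mul, zero_sub, neg_eq_zero] at h
      exact hM (sub_eq_zero.mp h)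
    · apply htM
      rw [eq_div_iff h3]
      linear_combination h
  obtain ⟨hne, hval⟩ := hS₂ V (f₁ ((2 * γ - α - β) * t - (γ * (α + β) - 2 * α * β)) /
    f₁ (t - γ)) (div_ne_zero ((map_ne_zero f₁).mpr nW) nf) (by
      rw [div_pow, ← map_pow, ← odd_identity, ← hb₀, eq_div_iff (pow_ne_zero 2 nf), map_add,
        map_mul, map_mul f₁ b₀, map_mul f₁ (t - α), map_pow f₁ (t - γ)]
      linear_combination (-f₁ b₀) * hVn - f₁ (t - γ) ^ 2 * hρ)
  obtain ⟨τ, hτ, w, hw, hprod⟩ := hsel₂ _ hne hval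
  obtain ⟨σ, hσ'⟩ := hσ₂ τ hτ
  refine ⟨(map_ne_zero g).mpr ht0, f₂ V, σ * f₂ w, ?_, ?_, ?_⟩
  · refine mul_ne_zero ?_ ((map_ne_zero f₂).mpr hw)
    rintro rfl
    rw [zero_pow two_ne_zero] at hσ'
    exact hT₂ τ hτ ((map_eq_zero f₂).mp hσ'.symm)
  · have h3 := congrArg f₂ hVn
    simp only [map_mul, map_pow, map_sub] at h3
    rw [hg]
    simp only [RingHom.comp_apply]
    exact h3
  · have h3 := congrArg f₂ hprod
    rw [mul_pow, hσ']
    simp only [map_mul, map_pow, map_sub] at h3 ⊢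
    exact h3

/-- The package for even `d`. -/
theorem pack_even (K : Type) [Field K] [NumberField K] (d : ℕ) (hd : 4 ≤ d) (hev : Even d)
    (ζ : K) (hζ : IsPrimitiveRoot ζ d) (S₀ : Finset (FinitePlace K)) :
    ∃ (L : Type) (_ : Field L) (_ : NumberField L) (f : K →+* L) (D : Set L) (E : Finset K),
      Kiss L D ∧ ∀ t : K, t ≠ 0 → t ∉ E →
        (∀ v : FinitePlace K, v ∉ S₀ → ∀ ξ ξ' : K, ξ ^ d = 1 → ξ' ^ d = 1 → ξ ≠ 1 → ξ' ≠ 1 →
          ∃ b : K, b ≠ 0 ∧ v (t - ξ) = v (t - ξ') * v b ^ (d - 1)) →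
        f t ∈ D := by
  classical
  have hr : ∀ i : ℕ, (ζ ^ i) ^ d = 1 := fun i => by
    rw [← pow_mul, mul_comm, pow_mul, hζ.pow_eq_one, one_pow]
  have hne : ∀ i j : ℕ, i < d → j < d → i ≠ j → ζ ^ i ≠ ζ ^ j := fun i j hi hj hij h =>
    hij (hζ.pow_inj hi hj h)
  have hne1 : ∀ i : ℕ, 0 < i → i < d → ζ ^ i ≠ 1 := fun i h0 hi h =>
    hne i 0 hi (by omega) (by omega) (by rw [h, pow_zero])
  have hne0 : ∀ i : ℕ, ζ ^ i ≠ 0 := fun i => pow_ne_zero _ (hζ.ne_zero (by omega))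
  have hodd : Odd (d - 1) := by
    obtain ⟨m, hm⟩ := hev
    exact ⟨m - 1, by omega⟩
  have key : ∀ i j k : ℕ, 0 < i → 0 < j → 0 < k → i < d → j < d → k < d → i ≠ j → k ≠ i →
      k ≠ j → ζ ^ k * (ζ ^ i + ζ ^ j) ≠ 2 * ζ ^ i * ζ ^ j →
      ∃ (L : Type) (_ : Field L) (_ : NumberField L) (f : K →+* L) (D : Set L) (E : Finset K),
      Kiss L D ∧ ∀ t : K, t ≠ 0 → t ∉ E →
        (∀ v : FinitePlace K, v ∉ S₀ → ∀ ξ ξ' : K, ξ ^ d = 1 → ξ' ^ d = 1 → ξ ≠ 1 → ξ' ≠ 1 →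
          ∃ b : K, b ≠ 0 ∧ v (t - ξ) = v (t - ξ') * v b ^ (d - 1)) →
        f t ∈ D := by
    intro i j k hi hj hk hid hjd hkd hij hki hkj hM
    obtain ⟨L, h1, h2, f, D, E, hK, h⟩ := pack_three K (d - 1) (by omega) hodd (ζ ^ i) (ζ ^ j)
      (ζ ^ k) (hne0 i) (hne0 j) (hne0 k) (hne i j hid hjd hij) (hne k i hkd hid hki)
      (hne k j hkd hjd hkj) hM S₀
    refine ⟨L, h1, h2, f, D, E, hK, fun t ht htE hv => h t ht htE ?_ ?_⟩
    · exact fun v hvS => hv v hvS _ _ (hr i) (hr k) (hne1 i hi hid) (hne1 k hk hkd)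
    · exact fun v hvS => hv v hvS _ _ (hr j) (hr k) (hne1 j hj hjd) (hne1 k hk hkd)
  by_cases hM : ζ ^ 3 * (ζ ^ 1 + ζ ^ 2) = 2 * ζ ^ 1 * ζ ^ 2
  · refine key 2 3 1 (by omega) (by omega) (by omega) (by omega) (by omega) (by omega)
      (by omega) (by omega) (by omega) ?_
    intro h
    have h1 : ζ ^ 2 * (3 * (ζ ^ 3 - ζ ^ 1)) = 0 := by linear_combination hM - h
    rcases mul_eq_zero.mp h1 with h2 | h2
    · exact hne0 2 h2
    · rcases mul_eq_zero.mp h2 with h3 | h3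
      · norm_num at h3
      · exact hne 3 1 (by omega) (by omega) (by omega) (sub_eq_zero.mp h3)
  · exact key 1 2 3 (by omega) (by omega) (by omega) (by omega) (by omega) (by omega)
      (by omega) (by omega) (by omega) hM

/-- The package for odd `d`. -/
theorem pack_odd (K : Type) [Field K] [NumberField K] (d : ℕ) (hd : 4 ≤ d) (hod : Odd d)
    (ζ : K) (hζ : IsPrimitiveRoot ζ d) (S₀ : Finset (FinitePlace K)) :
    ∃ (L : Type) (_ : Field L) (_ : NumberField L) (f : K →+* L) (D : Set L) (E : Finset K),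
      Kiss L D ∧ ∀ t : K, t ≠ 0 → t ∉ E →
        (∀ v : FinitePlace K, v ∉ S₀ → ∀ ξ ξ' : K, ξ ^ d = 1 → ξ' ^ d = 1 → ξ ≠ 1 → ξ' ≠ 1 →
          ∃ b : K, b ≠ 0 ∧ v (t - ξ) = v (t - ξ') * v b ^ (d - 1)) →
        f t ∈ D := by
  classical
  obtain ⟨m, hm⟩ : ∃ m, d - 1 = 2 * m := by
    obtain ⟨m, hm⟩ := hod
    exact ⟨m, by omega⟩
  have hd5 : 5 ≤ d := by omega
  have hn0 : d - 1 ≠ 0 := by omega
  have hr : ∀ i : ℕ, (ζ ^ i) ^ d = 1 := fun i => by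
    rw [← pow_mul, mul_comm, pow_mul, hζ.pow_eq_one, one_pow]
  have hne : ∀ i j : ℕ, i < d → j < d → i ≠ j → ζ ^ i ≠ ζ ^ j := fun i j hi hj hij h =>
    hij (hζ.pow_inj hi hj h)
  have hne1 : ∀ i : ℕ, 0 < i → i < d → ζ ^ i ≠ 1 := fun i h0 hi h =>
    hne i 0 hi (by omega) (by omega) (by rw [h, pow_zero])
  have hne0 : ∀ i : ℕ, ζ ^ i ≠ 0 := fun i => pow_ne_zero _ (hζ.ne_zero (by omega))
  obtain ⟨T₁, hT₁, hsel₁⟩ := selmer K (d - 1) (by omega) S₀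
  obtain ⟨L₁, _, _, f₁, hr₁⟩ := exists_ext K
    (T₁.image (fun τ => Polynomial.X ^ (d - 1) - Polynomial.C τ)) (by
    intro p hp
    obtain ⟨τ, _, rfl⟩ := Finset.mem_image.mp hp
    rw [Polynomial.degree_X_pow_sub_C (by omega)]
    exact ⟨by exact_mod_cast hn0, Polynomial.X_pow_sub_C_ne_zero (by omega) _⟩)
  have hσ : ∀ τ ∈ T₁, ∃ σ : L₁, σ ^ (d - 1) = f₁ τ := by
    intro τ hτ
    obtain ⟨x, hx⟩ := hr₁ (Polynomial.X ^ (d - 1) - Polynomial.C τ)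
      (Finset.mem_image_of_mem _ hτ)
    refine ⟨x, ?_⟩
    simp only [Polynomial.eval₂_sub, Polynomial.eval₂_pow, Polynomial.eval₂_X,
      Polynomial.eval₂_C] at hx
    exact sub_eq_zero.mp hx
  have hinj : Function.Injective fun i : Fin 4 => f₁ (ζ ^ ((i : ℕ) + 1)) := by
    intro i j hij
    have h1 := hζ.pow_inj (by omega) (by omega) (f₁.injective hij)
    exact Fin.ext (by omega)
  have hkiss := kiss_sq (L := L₁) (fun e₁ e₂ e₃ => coverProp e₁ e₂ e₃)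
    (fun i : Fin 4 => f₁ (ζ ^ ((i : ℕ) + 1))) hinj
    (fun i => (map_ne_zero f₁).mpr (hne0 _))
  refine ⟨L₁, inferInstance, inferInstance, f₁, _,
    (Finset.range 5).image (fun i => ζ ^ i), hkiss, ?_⟩
  intro t ht0 htE hv
  have htE' : ∀ i : ℕ, i < 5 → t - ζ ^ i ≠ 0 := by
    intro i hi h
    apply htE
    rw [sub_eq_zero.mp h]
    exact Finset.mem_image_of_mem _ (Finset.mem_range.mpr hi)
  have key : ∀ i : ℕ, 0 < i → i < 5 →
      ∃ A : L₁, A ≠ 0 ∧ f₁ (t - ζ ^ i) = A ^ (d - 1) * f₁ (t - ζ ^ 4) := by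
    intro i hi0 hi
    obtain ⟨τ, hτ, w, hw, hq⟩ := hsel₁ ((t - ζ ^ i) / (t - ζ ^ 4))
      (div_ne_zero (htE' i hi) (htE' 4 (by omega))) (by
      intro v hvS
      obtain ⟨b, hb, hb'⟩ := hv v hvS (ζ ^ i) (ζ ^ 4) (hr i) (hr 4) (hne1 i hi0 (by omega))
        (hne1 4 (by omega) (by omega))
      refine ⟨b, hb, ?_⟩
      rw [map_div₀, hb', mul_div_cancel_left₀]
      exact (v_pos v (htE' 4 (by omega))).ne')
    obtain ⟨σ, hσ'⟩ := hσ τ hτ
    have hσ0 : σ ≠ 0 := by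
      rintro rfl
      rw [zero_pow hn0] at hσ'
      exact hT₁ τ hτ ((map_eq_zero f₁).mp hσ'.symm)
    refine ⟨σ * f₁ w, mul_ne_zero hσ0 ((map_ne_zero f₁).mpr hw), ?_⟩
    have h3 : t - ζ ^ i = τ * w ^ (d - 1) * (t - ζ ^ 4) := by
      rw [← hq]
      have := htE' 4 (by omega)
      field_simp
    rw [mul_pow, hσ', ← map_pow, ← map_mul, ← map_mul, ← h3]
  obtain ⟨A₁, hA₁0, hA₁⟩ := key 1 (by omega) (by omega)
  obtain ⟨A₂, hA₂0, hA₂⟩ := key 2 (by omega) (by omega)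
  obtain ⟨A₃, hA₃0, hA₃⟩ := key 3 (by omega) (by omega)
  have h4 : f₁ (t - ζ ^ 4) ≠ 0 := (map_ne_zero f₁).mpr (htE' 4 (by omega))
  refine ⟨(map_ne_zero f₁).mpr ht0,
    (A₁ * A₂ * A₃) ^ m * f₁ (t - ζ ^ 4) ^ 2, ?_, ?_⟩
  · exact mul_ne_zero (pow_ne_zero _ (mul_ne_zero (mul_ne_zero hA₁0 hA₂0) hA₃0))
      (pow_ne_zero _ h4)
  · rw [Fin.prod_univ_four]
    have e1 : f₁ t - f₁ (ζ ^ (((0 : Fin 4) : ℕ) + 1)) = f₁ (t - ζ ^ 1) := by
      rw [map_sub]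
      rfl
    have e2 : f₁ t - f₁ (ζ ^ (((1 : Fin 4) : ℕ) + 1)) = f₁ (t - ζ ^ 2) := by
      rw [map_sub]
      rfl
    have e3 : f₁ t - f₁ (ζ ^ (((2 : Fin 4) : ℕ) + 1)) = f₁ (t - ζ ^ 3) := by
      rw [map_sub]
      rfl
    have e4 : f₁ t - f₁ (ζ ^ (((3 : Fin 4) : ℕ) + 1)) = f₁ (t - ζ ^ 4) := by
      rw [map_sub]
      rfl
    rw [e1, e2, e3, e4, hA₁, hA₂, hA₃, hm]
    ring

/-- The package for all `d ≥ 4`. -/
theorem pack (K : Type) [Field K] [NumberField K] (d : ℕ) (hd : 4 ≤ d)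
    (ζ : K) (hζ : IsPrimitiveRoot ζ d) (S₀ : Finset (FinitePlace K)) :
    ∃ (L : Type) (_ : Field L) (_ : NumberField L) (f : K →+* L) (D : Set L) (E : Finset K),
      Kiss L D ∧ ∀ t : K, t ≠ 0 → t ∉ E →
        (∀ v : FinitePlace K, v ∉ S₀ → ∀ ξ ξ' : K, ξ ^ d = 1 → ξ' ^ d = 1 → ξ ≠ 1 → ξ' ≠ 1 →
          ∃ b : K, b ≠ 0 ∧ v (t - ξ) = v (t - ξ') * v b ^ (d - 1)) →
        f t ∈ D := by
  rcases Nat.even_or_odd d with h | h
  · exact pack_even K d hd h ζ hζ S₀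
  · exact pack_odd K d hd h ζ hζ S₀

end Pool.Agent.MP90787a.T
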