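import Pool.Agent.Lib.MP_90787a_nt.T.Ctrl

set_option autoImplicit false

/-!
Combinatorics of the preperiodic points of `x ^ d + c`: the number of preperiodic points is bounded
if the number of points controlled by a suitable point is bounded.
-/

namespace Pool.Agent.MP90787a.T

open Finset Function

variable {K : Type} [Field K] {d : ℕ} {c : K}

lemma card_le_erase {α : Type*} [DecidableEq α] (s : Finset α) (a : α) :
    s.card ≤ (s.erase a).card + 1 := by
  have := Finset.pred_card_le_card_erase (s := s) (a := a)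
  omega

lemma exists_preimage (hd : 0 < d) (B : Finset K) :
    ∃ B' : Finset K, (∀ z, uf d c z ∈ B → z ∈ B') ∧ B'.card ≤ d * B.card := by
  classical
  refine ⟨B.biUnion fun b => (Polynomial.X ^ d - Polynomial.C (b - c)).roots.toFinset, ?_, ?_⟩
  · intro z hz
    rw [Finset.mem_biUnion]
    refine ⟨_, hz, ?_⟩
    rw [Multiset.mem_toFinset, Polynomial.mem_roots (Polynomial.X_pow_sub_C_ne_zero hd _)]
    simp [uf]
  · rw [mul_comm]
    refine Finset.card_biUnion_le_card_mul _ _ _ fun b _ => ?_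
    refine (Multiset.toFinset_card_le _).trans ?_
    refine (Polynomial.card_roots' _).trans ?_
    rw [Polynomial.natDegree_X_pow_sub_C]

lemma exists_preimage_iter (hd : 0 < d) (B : Finset K) (m : ℕ) :
    ∃ B' : Finset K, (∀ z, (uf d c)^[m] z ∈ B → z ∈ B') ∧ B'.card ≤ d ^ m * B.card := by
  induction m with
  | zero => exact ⟨B, fun z hz => hz, by simp⟩
  | succ m ih =>
    obtain ⟨B₁, h1, h2⟩ := ih
    obtain ⟨B₂, h3, h4⟩ := exists_preimage (c := c) hd B₁
    refine ⟨B₂, fun z hz => h3 z (h1 _ (by rwa [← iterate_succ_apply])), ?_⟩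
    calc B₂.card ≤ d * B₁.card := h4
      _ ≤ d * (d ^ m * B.card) := Nat.mul_le_mul_left _ h2
      _ = d ^ (m + 1) * B.card := by ring

lemma periodic_iter {x : K} (h : x ∈ periodicPts (uf d c)) (n : ℕ) :
    (uf d c)^[n] x ∈ periodicPts (uf d c) := by
  obtain ⟨p, hp, h⟩ := h
  exact ⟨p, hp, h.apply_iterate n⟩

/-- The hypothesis of the counting theorem. -/
def Big (d : ℕ) (c : K) (N₁ N₂ : ℕ) : Prop :=
  ∀ Z : Finset K, (∀ z ∈ Z, z ≠ 0 ∧ IsPre d c z) → Set.InjOn (uf d c) Z → N₁ < Z.card →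
    ∃ x ∈ Z, ∀ A : Finset K, (∀ y ∈ A, y ≠ 0 ∧ Ctrl d c x y) → A.card ≤ N₂

lemma card_per_le {N₁ N₂ : ℕ} (h : Big d c N₁ N₂) (P : Finset K)
    (hP : ∀ x ∈ P, x ∈ periodicPts (uf d c)) : P.card ≤ N₁ + N₂ + 2 := by
  classical
  have h1 : P.card ≤ (P.erase 0).card + 1 := card_le_erase _ _
  rcases le_or_gt (P.erase 0).card N₁ with hle | hgt
  · omega
  · obtain ⟨x, hx, hA⟩ := h (P.erase 0)
      (fun z hz => ⟨(Finset.mem_erase.1 hz).1, isPre_of_periodic (hP z (Finset.mem_erase.1 hz).2)⟩)
      (fun x hx y hy hxy => periodic_inj (hP x (Finset.mem_of_mem_erase hx))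
        (hP y (Finset.mem_of_mem_erase hy)) hxy) hgt
    have h2 := hA ((P.erase 0).erase x) (fun y hy => by
      obtain ⟨hyx, hy'⟩ := Finset.mem_erase.1 hy
      obtain ⟨hy0, hyP⟩ := Finset.mem_erase.1 hy'
      exact ⟨hy0, .per (hP x (Finset.mem_of_mem_erase hx)) (hP y hyP) (Ne.symm hyx)⟩)
    have h3 : (P.erase 0).card ≤ ((P.erase 0).erase x).card + 1 := card_le_erase _ _
    omega

lemma per_finite {N₁ N₂ : ℕ} (h : Big d c N₁ N₂) : (periodicPts (uf d c)).Finite := by
  by_contra hinf
  obtain ⟨P, hP, hcard⟩ := (Set.not_finite.1 hinf : (periodicPts (uf d c)).Infinite).exists_subset_card_eq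
    (N₁ + N₂ + 3)
  have := card_per_le h P (fun x hx => hP hx)
  omega

/-- The length of the tails is bounded. -/
lemma tail_bound {N₁ N₂ : ℕ} (hd : 2 ≤ d) (h : Big d c N₁ N₂) {z : K} (hz : IsPre d c z) :
    (uf d c)^[N₁ + 4 + (N₁ + N₂ + 2) * (N₁ + N₂ + 4)] z ∈ periodicPts (uf d c) := by
  classical
  set Mx : ℕ := N₁ + 4 + (N₁ + N₂ + 2) * (N₁ + N₂ + 4) with hMx
  by_contra hcon
  have hex : ∃ n, (uf d c)^[n] z ∈ periodicPts (uf d c) := by
    obtain ⟨i, j, hij, h⟩ := isPre_iff.1 hz
    refine ⟨i, j - i, by omega, ?_⟩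
    show (uf d c)^[j - i] ((uf d c)^[i] z) = (uf d c)^[i] z
    rw [← iterate_add_apply, Nat.sub_add_cancel hij.le, h]
  set M := Nat.find hex with hM
  have hM1 : (uf d c)^[M] z ∈ periodicPts (uf d c) := Nat.find_spec hex
  have hM2 : ∀ n < M, (uf d c)^[n] z ∉ periodicPts (uf d c) := fun n hn => Nat.find_min hex hn
  have hlt : Mx < M := by
    by_contra hle
    push Not at hle
    apply hcon
    have : (uf d c)^[Mx] z = (uf d c)^[Mx - M] ((uf d c)^[M] z) := by
      rw [← iterate_add_apply, Nat.sub_add_cancel hle]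
    rw [this]
    exact periodic_iter hM1 _
  set u : ℕ → K := fun j => (uf d c)^[M - j] z with hu
  have hstep : ∀ j k, j + k ≤ M → (uf d c)^[k] (u (j + k)) = u j := by
    intro j k hjk
    simp only [hu]
    rw [← iterate_add_apply]
    congr 1
    omega
  have hu0 : u 0 ∈ periodicPts (uf d c) := hM1
  have huj : ∀ j, 1 ≤ j → j ≤ M → u j ∉ periodicPts (uf d c) := fun j h1 h2 => hM2 _ (by omega)
  have huinj : ∀ i j, i ≤ M → j ≤ M → u i = u j → i = j := by
    have key : ∀ i j, i < j → j ≤ M → u i ≠ u j := by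
      intro i j hij hj heq
      apply huj j (by omega) hj
      refine ⟨j - i, by omega, ?_⟩
      show (uf d c)^[j - i] (u j) = u j
      have := hstep i (j - i) (by omega)
      rw [show i + (j - i) = j by omega] at this
      rw [this, heq]
    intro i j hi hj heq
    rcases lt_trichotomy i j with h | h | h
    · exact absurd heq (key i j h hj)
    · exact h
    · exact absurd heq.symm (key j i h hi)
  have hupre : ∀ j, IsPre d c (u j) := fun j => hz.iterate _
  have huf : ∀ j, j + 1 ≤ M → uf d c (u (j + 1)) = u j := fun j hj => hstep j 1 hj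
  -- the period of `u 0`
  set P := minimalPeriod (uf d c) (u 0) with hP
  have hP0 : 0 < P := minimalPeriod_pos_of_mem_periodicPts hu0
  have hPle : P ≤ N₁ + N₂ + 2 := by
    have h1 : ((Finset.range P).image fun i => (uf d c)^[i] (u 0)).card = P := by
      rw [Finset.card_image_of_injOn, Finset.card_range]
      intro i hi j hj hij
      rw [Finset.coe_range, Set.mem_Iio] at hi hj
      exact (iterate_injOn_Iio_minimalPeriod (f := uf d c) (x := u 0)) hi hj hij
    rw [← h1]
    refine card_per_le h _ fun x hx => ?_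
    obtain ⟨i, _, rfl⟩ := Finset.mem_image.1 hx
    exact periodic_iter hu0 i
  have hPper : (uf d c)^[P] (u 0) = u 0 := iterate_minimalPeriod
  set w' := (uf d c)^[P - 1] (u 0) with hw'
  have hw'per : w' ∈ periodicPts (uf d c) := periodic_iter hu0 _
  have hfw' : uf d c w' = u 0 := by
    have h1 := iterate_succ_apply' (uf d c) (P - 1) (u 0)
    rw [Nat.succ_eq_add_one, Nat.sub_add_cancel (by omega : 1 ≤ P), hPper] at h1
    exact h1.symm
  have hfu1 : uf d c (u 1) = u 0 := huf 0 (by omega)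
  have hpow : u 1 ^ d = w' ^ d := by
    have : uf d c (u 1) = uf d c w' := by rw [hfu1, hfw']
    simpa [uf] using this
  have hne1 : u 1 ≠ w' := fun h => huj 1 le_rfl (by omega) (h ▸ hw'per)
  have hw'0 : w' ≠ 0 := by
    intro h0
    rw [h0, zero_pow (by omega), pow_eq_zero_iff (by omega)] at hpow
    exact hne1 (by rw [hpow, h0])
  set ζ := u 1 / w' with hζ
  have hζd : ζ ^ d = 1 := by rw [hζ, div_pow, hpow, div_self (pow_ne_zero _ hw'0)]
  have hζ1 : ζ ≠ 1 := by
    intro h1
    rw [hζ, div_eq_one_iff_eq hw'0] at h1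
    exact hne1 h1
  have hu1 : u 1 = ζ * w' := by rw [hζ, div_mul_cancel₀ _ hw'0]
  -- choice of the base point
  have hMbig : N₁ + 3 ≤ M := by omega
  obtain ⟨x, hxZ, hA⟩ := h (((Finset.Icc 2 (N₁ + 3)).image u).erase 0) (by
      intro y hy
      obtain ⟨hy0, hy⟩ := Finset.mem_erase.1 hy
      obtain ⟨j, _, rfl⟩ := Finset.mem_image.1 hy
      exact ⟨hy0, hupre j⟩) (by
      intro y hy y' hy' hyy
      obtain ⟨j, hj, rfl⟩ := Finset.mem_image.1 (Finset.mem_of_mem_erase hy)
      obtain ⟨i, hi, rfl⟩ := Finset.mem_image.1 (Finset.mem_of_mem_erase hy')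
      rw [Finset.mem_Icc] at hi hj
      obtain ⟨j, rfl⟩ : ∃ j', j = j' + 1 := ⟨j - 1, by omega⟩
      obtain ⟨i, rfl⟩ : ∃ i', i = i' + 1 := ⟨i - 1, by omega⟩
      rw [huf j (by omega), huf i (by omega)] at hyy
      rw [huinj _ _ (by omega) (by omega) hyy]) (by
      have h1 : ((Finset.Icc 2 (N₁ + 3)).image u).card = N₁ + 2 := by
        rw [Finset.card_image_of_injOn, Nat.card_Icc]
        · omega
        · intro i hi j hj hij
          rw [Finset.coe_Icc, Set.mem_Icc] at hi hj
          exact huinj i j (by omega) (by omega) hij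
      have h2 : ((Finset.Icc 2 (N₁ + 3)).image u).card ≤
          (((Finset.Icc 2 (N₁ + 3)).image u).erase 0).card + 1 := card_le_erase _ _
      omega)
  obtain ⟨j₀, hj₀, rfl⟩ := Finset.mem_image.1 (Finset.mem_of_mem_erase hxZ)
  rw [Finset.mem_Icc] at hj₀
  -- the controlled points
  set g : ℕ → ℕ := fun i => j₀ + 1 + P * (N₁ + 3 + i) with hg
  have hgle : ∀ i ≤ N₂ + 1, g i ≤ M := by
    intro i hi
    have h1 : P * (N₁ + 3 + i) ≤ (N₁ + N₂ + 2) * (N₁ + N₂ + 4) :=
      Nat.mul_le_mul hPle (by omega)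
    simp only [hg]
    omega
  have hgj : ∀ i, j₀ < g i := by
    intro i
    simp only [hg]
    omega
  have hginj : ∀ i j, g i = g j → i = j := by
    intro i j hij
    simp only [hg] at hij
    have h1 : P * (N₁ + 3 + i) = P * (N₁ + 3 + j) := by omega
    have h2 := Nat.eq_of_mul_eq_mul_left hP0 h1
    omega
  have hctrl : ∀ i ≤ N₂ + 1, Ctrl d c (u j₀) (u (g i)) := by
    intro i hi
    have hgi := hgle i hi
    have hgi' := hgj i
    have hne : uf d c (u j₀) ≠ uf d c (u (g i)) := by
      obtain ⟨a, ha⟩ : ∃ a, j₀ = a + 1 := ⟨j₀ - 1, by omega⟩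
      obtain ⟨b, hb⟩ : ∃ b, g i = b + 1 := ⟨g i - 1, by omega⟩
      rw [ha, hb, huf a (by omega), huf b (by omega)]
      intro heq
      have := huinj a b (by omega) (by omega) heq
      omega
    have hu1j : ∀ j, 1 ≤ j → j ≤ M → (uf d c)^[j - 1] (u j) = ζ * w' := by
      intro j h1 h2
      have := hstep 1 (j - 1) (by omega)
      rw [show 1 + (j - 1) = j by omega] at this
      rw [this, hu1]
    by_cases hP1 : P = 1
    · have hw'u : w' = u 0 := by
        rw [hw', hP1]
        rfl
      have hfix : uf d c (u 0) = u 0 := by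
        rw [hP1] at hPper
        exact hPper
      refine .fix (hupre _) hne (j₀ - 1) (g i - j₀) (by omega) (by omega) (u 0) ζ hfix ?_ hζd hζ1
        ?_ ?_
      · rw [← hw'u]
        exact hw'0
      · rw [← hw'u]
        exact hu1j j₀ (by omega) (by omega)
      · have := hstep j₀ (g i - j₀) (by omega)
        rw [show j₀ + (g i - j₀) = g i by omega] at this
        exact this
    · refine .tail (hupre _) (hupre _) hne (g i - 1) (by omega) (u 0) w' ζ hu0 hw'per ?_ hζd hζ1
        ?_ ?_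
      · intro heq
        apply hP1
        rw [hP, minimalPeriod_eq_one_iff_isFixedPt]
        show uf d c (u 0) = u 0
        conv_lhs => rw [heq]
        exact hfw'
      · have h1 : g i - 1 = P * (N₁ + 3 + i) + j₀ := by
          simp only [hg]
          omega
        have h2 := hstep 0 j₀ (by omega)
        rw [Nat.zero_add] at h2
        rw [h1, iterate_add_apply, h2]
        exact ((isPeriodicPt_minimalPeriod (uf d c) (u 0)).mul_const (N₁ + 3 + i))
      · exact hu1j (g i) (by omega) hgi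
  have hcardA := hA ((((Finset.range (N₂ + 2)).image fun i => u (g i))).erase 0) (by
    intro y hy
    obtain ⟨hy0, hy⟩ := Finset.mem_erase.1 hy
    obtain ⟨i, hi, rfl⟩ := Finset.mem_image.1 hy
    rw [Finset.mem_range] at hi
    exact ⟨hy0, hctrl i (by omega)⟩)
  have h1 : ((Finset.range (N₂ + 2)).image fun i => u (g i)).card = N₂ + 2 := by
    rw [Finset.card_image_of_injOn, Finset.card_range]
    intro i hi j hj hij
    rw [Finset.coe_range, Set.mem_Iio] at hi hj
    exact hginj i j (huinj _ _ (hgle i (by omega)) (hgle j (by omega)) hij)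
  have h2 : ((Finset.range (N₂ + 2)).image fun i => u (g i)).card ≤
      (((Finset.range (N₂ + 2)).image fun i => u (g i)).erase 0).card + 1 :=
    card_le_erase _ _
  omega

/-- The counting theorem. -/
theorem card_pre_le {N₁ N₂ : ℕ} (hd : 2 ≤ d) (h : Big d c N₁ N₂) :
    {x : K | IsPre d c x}.encard ≤
      (d ^ (N₁ + 4 + (N₁ + N₂ + 2) * (N₁ + N₂ + 4)) * (N₁ + N₂ + 2) : ℕ) := by
  classical
  have hfin := per_finite h
  obtain ⟨B', h1, h2⟩ := exists_preimage_iter (c := c) (by omega : 0 < d) hfin.toFinset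
    (N₁ + 4 + (N₁ + N₂ + 2) * (N₁ + N₂ + 4))
  have h3 : {x : K | IsPre d c x} ⊆ (B' : Set K) := by
    intro x hx
    exact h1 x (hfin.mem_toFinset.2 (tail_bound hd h hx))
  refine (Set.encard_le_encard h3).trans ?_
  rw [Set.encard_coe_eq_coe_finsetCard]
  have h4 : hfin.toFinset.card ≤ N₁ + N₂ + 2 :=
    card_per_le h _ fun x hx => hfin.mem_toFinset.1 hx
  exact_mod_cast h2.trans (Nat.mul_le_mul_left _ h4)

end Pool.Agent.MP90787a.T
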