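import Pool.Agent.Lib.MP_90787a_nt.T.Dyn

set_option autoImplicit false

/-!
Controlled pairs of preperiodic points and their behaviour under field extensions.
-/

namespace Pool.Agent.MP90787a.T

/-- Controlled pairs: two distinct periodic points, or two tail points with different shadows, or
two tail points above a fixed point. -/
inductive Ctrl {K : Type} [Field K] (d : ℕ) (c x y : K) : Prop
  | per (hx : x ∈ Function.periodicPts (uf d c)) (hy : y ∈ Function.periodicPts (uf d c))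
      (hne : x ≠ y) : Ctrl d c x y
  | tail (hx : IsPre d c x) (hy : IsPre d c y) (hne : uf d c x ≠ uf d c y) (m : ℕ) (hm : 1 ≤ m)
      (w w' ζ : K) (hw : w ∈ Function.periodicPts (uf d c))
      (hw' : w' ∈ Function.periodicPts (uf d c)) (hww : w ≠ w') (hζ : ζ ^ d = 1) (hζ1 : ζ ≠ 1)
      (h1 : (uf d c)^[m] x = w) (h2 : (uf d c)^[m] y = ζ * w') : Ctrl d c x y
  | fix (hy : IsPre d c y) (hne : uf d c x ≠ uf d c y) (m k : ℕ) (hm : 1 ≤ m) (hk : 1 ≤ k)
      (w ζ : K) (hw : uf d c w = w) (hw0 : w ≠ 0) (hζ : ζ ^ d = 1) (hζ1 : ζ ≠ 1)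
      (h1 : (uf d c)^[m] x = ζ * w) (h2 : (uf d c)^[k] y = x) : Ctrl d c x y

section map

variable {K L : Type} [Field K] [Field L] (φ : K →+* L) {d : ℕ} {c : K}

lemma map_uf (x : K) : φ (uf d c x) = uf d (φ c) (φ x) := by
  simp [uf]

lemma map_iter (n : ℕ) (x : K) : φ ((uf d c)^[n] x) = (uf d (φ c))^[n] (φ x) := by
  induction n with
  | zero => rfl
  | succ n ih => rw [Function.iterate_succ_apply', Function.iterate_succ_apply', map_uf, ih]

lemma IsPre.field_map {x : K} (h : IsPre d c x) : IsPre d (φ c) (φ x) := by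
  obtain ⟨i, j, hij, h⟩ := isPre_iff.1 h
  refine isPre_iff.2 ⟨i, j, hij, ?_⟩
  rw [← map_iter, ← map_iter, h]

lemma periodic_map {x : K} (h : x ∈ Function.periodicPts (uf d c)) :
    φ x ∈ Function.periodicPts (uf d (φ c)) := by
  obtain ⟨p, hp, h⟩ := h
  refine ⟨p, hp, ?_⟩
  have h1 : (uf d c)^[p] x = x := h
  show (uf d (φ c))^[p] (φ x) = φ x
  rw [← map_iter, h1]

lemma Ctrl.field_map {x y : K} (h : Ctrl d c x y) : Ctrl d (φ c) (φ x) (φ y) := by
  rcases h with ⟨hx, hy, hne⟩ | ⟨hx, hy, hne, m, hm, w, w', ζ, hw, hw', hww, hζ, hζ1, h1, h2⟩ |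
    ⟨hy, hne, m, k, hm, hk, w, ζ, hw, hw0, hζ, hζ1, h1, h2⟩
  · exact .per (periodic_map φ hx) (periodic_map φ hy) (φ.injective.ne hne)
  · refine .tail (hx.field_map φ) (hy.field_map φ) ?_ m hm (φ w) (φ w') (φ ζ)
      (periodic_map φ hw) (periodic_map φ hw') (φ.injective.ne hww) ?_ ?_ ?_ ?_
    · rw [← map_uf, ← map_uf]
      exact φ.injective.ne hne
    · rw [← map_pow, hζ, map_one]
    · intro h
      exact hζ1 (φ.injective (by rw [h, map_one]))
    · rw [← map_iter, h1]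
    · rw [← map_iter, h2, map_mul]
  · refine .fix (hy.field_map φ) ?_ m k hm hk (φ w) (φ ζ) ?_ ?_ ?_ ?_ ?_ ?_
    · rw [← map_uf, ← map_uf]
      exact φ.injective.ne hne
    · rw [← map_uf, hw]
    · exact (map_ne_zero φ).2 hw0
    · rw [← map_pow, hζ, map_one]
    · intro h
      exact hζ1 (φ.injective (by rw [h, map_one]))
    · rw [← map_iter, h1, map_mul]
    · rw [← map_iter, h2]

end map

section loc

variable {K : Type} [Field K] {d : ℕ} {c : K}

lemma Ctrl.pre_left {x y : K} (h : Ctrl d c x y) : IsPre d c x := by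
  rcases h with ⟨hx, hy, hne⟩ | ⟨hx, hy, hne, m, hm, w, w', ζ, hw, hw', hww, hζ, hζ1, h1, h2⟩ |
    ⟨hy, hne, m, k, hm, hk, w, ζ, hw, hw0, hζ, hζ1, h1, h2⟩
  · exact isPre_of_periodic hx
  · exact hx
  · rw [← h2]
    exact hy.iterate k

lemma Ctrl.pre_right {x y : K} (h : Ctrl d c x y) : IsPre d c y := by
  rcases h with ⟨hx, hy, hne⟩ | ⟨hx, hy, hne, m, hm, w, w', ζ, hw, hw', hww, hζ, hζ1, h1, h2⟩ |
    ⟨hy, hne, m, k, hm, hk, w, ζ, hw, hw0, hζ, hζ1, h1, h2⟩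
  · exact isPre_of_periodic hy
  · exact hy
  · exact hy

lemma Ctrl.uf_ne {x y : K} (h : Ctrl d c x y) : uf d c x ≠ uf d c y := by
  rcases h with ⟨hx, hy, hne⟩ | ⟨hx, hy, hne, m, hm, w, w', ζ, hw, hw', hww, hζ, hζ1, h1, h2⟩ |
    ⟨hy, hne, m, k, hm, hk, w, ζ, hw, hw0, hζ, hζ1, h1, h2⟩
  · exact fun h => hne (periodic_inj hx hy h)
  · exact hne
  · exact hne

lemma Ctrl.sub_ne {x y : K} (h : Ctrl d c x y) {ζ : K} (hζ : ζ ^ d = 1) : x - ζ * y ≠ 0 := by
  intro h0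
  apply h.uf_ne
  rw [sub_eq_zero] at h0
  simp only [uf, h0, mul_pow, hζ, one_mul]

lemma Ctrl.loc {ω : K} (hω : IsPrimitiveRoot ω d) (hd : 3 ≤ d) (v : AbsoluteValue K ℝ)
    (hv : IsNonarchimedean v) (hvd : v (d : K) = 1) {x y : K} (h : Ctrl d c x y) :
    Loc v d x y := by
  rcases h with ⟨hx, hy, hne⟩ | ⟨hx, hy, hne, m, hm, w, w', ζ, hw, hw', hww, hζ, hζ1, h1, h2⟩ |
    ⟨hy, hne, m, k, hm, hk, w, ζ, hw, hw0, hζ, hζ1, h1, h2⟩
  · exact loc_per v hv hω hd hvd hx hy hne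
  · exact loc_tail v hv hω hd hvd hx hy hne hm hw hw' hww hζ hζ1 h1 h2
  · exact loc_fix v hv hω hd hvd hy hne hm hk hw hw0 hζ hζ1 h1 h2

end loc

end Pool.Agent.MP90787a.T
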