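import Mathlib

set_option autoImplicit false

/-!
Auxiliary definitions for the uniform bound for `x ^ d + c` over an arbitrary number field.
-/

namespace Pool.Agent.MP90787a.T

open NumberField Height

/-- The naive height of a point of a Weierstrass curve. -/
noncomputable def nh {L : Type} [Field L] [NumberField L] {W : WeierstrassCurve.Affine L}
    (P : W.Point) : ℝ := logHeight P.xRep

/-- The Weierstrass curve `y² = (x - e₁)(x - e₂)(x - e₃)`. -/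
def WE {L : Type} [Field L] (e₁ e₂ e₃ : L) : WeierstrassCurve L :=
  ⟨0, -(e₁ + e₂ + e₃), 0, e₁ * e₂ + e₁ * e₃ + e₂ * e₃, -(e₁ * e₂ * e₃)⟩

/-- Preperiodic points of `x ^ d + c`. -/
def IsPre {K : Type} [Field K] (d : ℕ) (c x : K) : Prop :=
  ∃ i j : ℕ, i < j ∧ (fun y : K => y ^ d + c)^[i] x = (fun y : K => y ^ d + c)^[j] x

/-- Finiteness of the group `K(S, n)`, in terms of representatives. -/
def SelFin (K : Type) [Field K] [NumberField K] (n : ℕ) (S : Finset (FinitePlace K)) : Prop :=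
  ∃ T : Finset K, (∀ t ∈ T, t ≠ 0) ∧ ∀ a : K, a ≠ 0 →
    (∀ v : FinitePlace K, v ∉ S → ∃ b : K, b ≠ 0 ∧ v a = v b ^ n) →
    ∃ t ∈ T, ∃ w : K, w ≠ 0 ∧ a = t * w ^ n

/-- Among many points of bounded height on `y² = (x - e₁)(x - e₂)(x - e₃)` there are `k` points
all of whose differences have small height. -/
def CoverProp {L : Type} [Field L] [NumberField L] [DecidableEq L] (e₁ e₂ e₃ : L) : Prop :=
  ∀ (δ : ℝ) (k : ℕ), 0 < δ → ∃ (N : ℕ) (M₀ : ℝ), ∀ M : ℝ, M₀ ≤ M →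
    ∀ A : Finset (WE e₁ e₂ e₃).toAffine.Point, (∀ P ∈ A, nh P ≤ M) → N < A.card →
      ∃ B ⊆ A, B.card = k ∧ ∀ P ∈ B, ∀ Q ∈ B, nh (P - Q) ≤ δ * M

/-- Uniform bound for the number of `t ∈ D` of height `O(H)` which are close to `0` at many finite
places. -/
def Kiss (L : Type) [Field L] [NumberField L] (D : Set L) : Prop :=
  ∃ S : Finset (FinitePlace L), ∀ (κ C₁ : ℝ), 0 < κ → ∃ (N : ℕ) (H₀ : ℝ), ∀ H : ℝ, H₀ ≤ H →
    ∀ (x₀ : L) (A : Finset L) (F : Finset (FinitePlace L)),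
      (∀ v ∈ F, v ∉ S ∧ v x₀ < 1) → κ * H ≤ ∑ v ∈ F, -Real.log (v x₀) →
      (∀ t ∈ A, t ∈ D ∧ logHeight₁ t ≤ C₁ * H ∧ ∀ v ∈ F, v t ^ 2 ≤ v x₀) → A.card ≤ N

end Pool.Agent.MP90787a.T
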