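import Pool.Agent.Lib.MP_90787a_nt.T.PackEven
import Pool.Agent.Lib.MP_90787a_nt.T.Comb
import Pool.Agent.Lib.MP_90787a_nt.T.Ext
import Pool.Agent.Lib.MP_90787a_nt.T.Heights

set_option autoImplicit false

/-!
The uniform bound for the number of preperiodic points of `x ^ d + c` over a number field.
-/

namespace Pool.Agent.MP90787a.T

open NumberField Height Finset

lemma finitePlace_nonarch {K : Type} [Field K] [NumberField K] (v : FinitePlace K) :
    IsNonarchimedean v.val :=
  fun x y => FinitePlace.add_le v x y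

/-! ### From the kissing bound to the combinatorial hypothesis -/

section big

variable {K L : Type} [Field K] [Field L] [NumberField L] (φ : K →+* L) {d : ℕ}

theorem big_of_kiss (hd : 4 ≤ d) {ω : K} (hω : IsPrimitiveRoot ω d) (D : Set L) (E : Finset K)
    (hD : ∀ c x y : K, x ≠ 0 → y ≠ 0 → Ctrl d c x y → x / y ∉ E → φ x / φ y ∈ D)
    (hk : Kiss L D) :
    ∃ (H₁ : ℝ) (N₁ N₂ : ℕ), ∀ c : K, H₁ ≤ logHeight₁ (φ c) → Big d c N₁ N₂ := by
  classical
  obtain ⟨S, hS⟩ := hk
  obtain ⟨Sd, hSd⟩ := UBC90787a.exists_finset_places ({(d : L)} : Finset L)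
  have hSd' : ∀ v, v ∉ Sd → v (d : L) = 1 := fun v hv =>
    hSd v hv _ (Finset.mem_singleton_self _) (by
      have : (d : L) ≠ 0 := by exact_mod_cast (by omega : d ≠ 0)
      exact this)
  obtain ⟨κ, H₀, N, hκ, hbig⟩ := exists_big_num L d hd (S ∪ Sd)
  obtain ⟨C, hC⟩ := height_le L d (by omega)
  obtain ⟨N', H₀', hkiss⟩ := hS κ (2 + 2 * |C|) hκ
  refine ⟨max 1 (max H₀ H₀'), N, E.card + N', fun c hc => ?_⟩
  have hc1 : 1 ≤ logHeight₁ (φ c) := (le_max_left _ _).trans hc
  have hc2 : H₀ ≤ logHeight₁ (φ c) := (le_max_left _ _).trans ((le_max_right _ _).trans hc)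
  have hc3 : H₀' ≤ logHeight₁ (φ c) := (le_max_right _ _).trans ((le_max_right _ _).trans hc)
  intro Z hZ hinj hcard
  have hufφ : ∀ z : K, (fun y : L => y ^ d + φ c) (φ z) = φ (uf d c z) := by
    intro z
    simp [uf]
  obtain ⟨x', hx', F, hF, hsum⟩ := hbig (φ c) hc2 (Z.image φ) (by
      intro z hz
      obtain ⟨z', hz', rfl⟩ := Finset.mem_image.1 hz
      exact ⟨(map_ne_zero φ).2 (hZ z' hz').1, (hZ z' hz').2.field_map φ⟩) (by
      intro a ha b hb hab
      rw [Finset.coe_image] at ha hb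
      obtain ⟨a', ha', rfl⟩ := ha
      obtain ⟨b', hb', rfl⟩ := hb
      rw [hufφ, hufφ] at hab
      rw [hinj ha' hb' (φ.injective hab)]) (by
      rwa [Finset.card_image_of_injective _ φ.injective])
  obtain ⟨x, hxZ, rfl⟩ := Finset.mem_image.1 hx'
  refine ⟨x, hxZ, fun A hA => ?_⟩
  have hx0 : x ≠ 0 := (hZ x hxZ).1
  have hφx : φ x ≠ 0 := (map_ne_zero φ).2 hx0
  have hAE : (A.filter fun y => x / y ∈ E).card ≤ E.card := by
    refine Finset.card_le_card_of_injOn (fun y => x / y) (fun y hy => ?_) ?_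
    · exact (Finset.mem_filter.1 hy).2
    · intro a ha b hb hab
      have ha0 : a ≠ 0 := (hA a (Finset.mem_filter.1 ha).1).1
      have hb0 : b ≠ 0 := (hA b (Finset.mem_filter.1 hb).1).1
      have hab' : x / a = x / b := hab
      rw [div_eq_div_iff ha0 hb0] at hab'
      exact (mul_left_cancel₀ hx0 hab').symm
  have hsplit : A.card = (A.filter fun y => x / y ∈ E).card +
      (A.filter fun y => ¬ x / y ∈ E).card :=
    (Finset.card_filter_add_card_filter_not _).symm
  set A₁ := A.filter fun y => ¬ x / y ∈ E with hA₁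
  have hA₁' : ∀ y ∈ A₁, y ≠ 0 ∧ Ctrl d c x y ∧ x / y ∉ E := fun y hy =>
    ⟨(hA y (Finset.mem_filter.1 hy).1).1, (hA y (Finset.mem_filter.1 hy).1).2,
      (Finset.mem_filter.1 hy).2⟩
  have hcardA : (A₁.image fun y => φ x / φ y).card = A₁.card := by
    refine Finset.card_image_of_injOn ?_
    intro a ha b hb hab
    have ha0 : φ a ≠ 0 := (map_ne_zero φ).2 (hA₁' a ha).1
    have hb0 : φ b ≠ 0 := (map_ne_zero φ).2 (hA₁' b hb).1
    have hab' : φ x / φ a = φ x / φ b := hab
    rw [div_eq_div_iff ha0 hb0] at hab'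
    exact (φ.injective (mul_left_cancel₀ hφx hab')).symm
  have hmain : A₁.card ≤ N' := by
    rw [← hcardA]
    refine hkiss _ hc3 (φ x) _ F (fun v hv => ?_) hsum ?_
    · have := hF v hv
      rw [Finset.mem_union, not_or] at this
      exact ⟨this.1.1, this.2⟩
    · intro t ht
      obtain ⟨y, hy, rfl⟩ := Finset.mem_image.1 ht
      obtain ⟨hy0, hctrl, hyE⟩ := hA₁' y hy
      refine ⟨hD c x y hx0 hy0 hctrl hyE, ?_, ?_⟩
      · have h1 := hC _ _ (hctrl.pre_left.field_map φ)
        have h2 := hC _ _ (hctrl.pre_right.field_map φ)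
        have h3 : logHeight₁ (φ x / φ y) ≤ logHeight₁ (φ x) + logHeight₁ (φ y) := by
          rw [div_eq_mul_inv, ← logHeight₁_inv (φ y)]
          exact logHeight₁_mul_le _ _
        have h4 : logHeight₁ (φ c) / d ≤ logHeight₁ (φ c) :=
          div_le_self (by linarith) (by exact_mod_cast (by omega : 1 ≤ d))
        have h5 : C ≤ |C| * logHeight₁ (φ c) := by
          calc C ≤ |C| := le_abs_self C
            _ ≤ |C| * logHeight₁ (φ c) := le_mul_of_one_le_right (abs_nonneg C) hc1
        nlinarith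
      · intro v hv
        have h1 := hF v hv
        rw [Finset.mem_union, not_or] at h1
        exact ((hctrl.field_map φ).loc (hω.map_of_injective φ.injective) (by omega) v.val
          (finitePlace_nonarch v) (hSd' v h1.1.2)).2 h1.2
  omega

end big

/-! ### The main theorem -/

section main

/-- Passing to an extension field. -/
lemma encard_pre_le {K L : Type} [Field K] [Field L] (φ : K →+* L) (d : ℕ) (c : K) :
    {x : K | IsPre d c x}.encard ≤ {x : L | IsPre d (φ c) x}.encard := by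
  refine Set.encard_le_encard_of_injOn (f := φ) ?_ φ.injective.injOn
  intro x hx
  exact IsPre.field_map φ hx

/-- If the combinatorial hypothesis holds for all `c` of large height, the number of preperiodic
points is uniformly bounded. -/
theorem bounded_of_big {K L : Type} [Field K] [Field L] [NumberField L] (φ : K →+* L) {d : ℕ}
    (hd : 4 ≤ d) (h : ∃ (H₁ : ℝ) (N₁ N₂ : ℕ), ∀ c : K, H₁ ≤ logHeight₁ (φ c) → Big d c N₁ N₂) :
    ∃ B : ℕ, ∀ c : K, {x : K | IsPre d c x}.encard ≤ B := by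
  obtain ⟨H₁, N₁, N₂, h⟩ := h
  obtain ⟨C, hC⟩ := height_le L d (by omega)
  have hfin : {x : L | logHeight₁ x ≤ |H₁| + C}.Finite := finite_setOfPred_logHeight₁_le L _
  refine ⟨max (d ^ (N₁ + 4 + (N₁ + N₂ + 2) * (N₁ + N₂ + 4)) * (N₁ + N₂ + 2))
    hfin.toFinset.card, fun c => ?_⟩
  rcases le_or_gt H₁ (logHeight₁ (φ c)) with hc | hc
  · refine (card_pre_le (by omega) (h c hc)).trans ?_
    exact_mod_cast le_max_left _ _
  · have h1 : {x : K | IsPre d c x}.encard ≤ {x : L | logHeight₁ x ≤ |H₁| + C}.encard := by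
      refine Set.encard_le_encard_of_injOn (f := φ) ?_ φ.injective.injOn
      intro x hx
      have h2 := hC _ _ (IsPre.field_map φ hx)
      have h3 : logHeight₁ (φ c) / d ≤ |H₁| := by
        have h4 : logHeight₁ (φ c) / d ≤ logHeight₁ (φ c) :=
          div_le_self (zero_le_logHeight₁ _) (by exact_mod_cast (by omega : 1 ≤ d))
        exact h4.trans (hc.le.trans (le_abs_self _))
      show logHeight₁ (φ x) ≤ |H₁| + C
      linarith
    refine h1.trans ?_
    rw [hfin.encard_eq_coe_toFinset_card]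
    exact_mod_cast le_max_right _ _

/-- Finite places at which `d` is not a unit. -/
lemma exists_bad_places (K : Type) [Field K] [NumberField K] {d : ℕ} (hd : 0 < d) :
    ∃ S : Finset (FinitePlace K), ∀ v, v ∉ S → v (d : K) = 1 := by
  obtain ⟨S, hS⟩ := UBC90787a.exists_finset_places ({(d : K)} : Finset K)
  refine ⟨S, fun v hv => hS v hv _ (Finset.mem_singleton_self _) ?_⟩
  exact_mod_cast hd.ne'

theorem main_primitive (K : Type) [Field K] [NumberField K] {d : ℕ} (hd : 4 ≤ d)
    {ω : K} (hω : IsPrimitiveRoot ω d) : ∃ B : ℕ, ∀ c : K, {x : K | IsPre d c x}.encard ≤ B := by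
  classical
  obtain ⟨S, hS⟩ := exists_bad_places K (by omega : 0 < d)
  obtain ⟨L, _, _, φ, D, E, hk, hpack⟩ := pack K d hd ω hω S
  refine bounded_of_big φ hd (big_of_kiss φ hd hω D E ?_ hk)
  intro c x y hx hy hc hE
  rw [← map_div₀]
  refine hpack (x / y) (div_ne_zero hx hy) hE fun v hv ξ ξ' hξ hξ' hξ1 hξ1' => ?_
  obtain ⟨b, hb0, hb⟩ := (hc.loc hω (by omega) v.val (finitePlace_nonarch v) (hS v hv)).1 ξ ξ'
    hξ hξ' hξ1 hξ1'
  refine ⟨b, hb0, ?_⟩
  have hb' : v (x - ξ * y) = v (x - ξ' * y) * v b ^ (d - 1) := hb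
  have key : ∀ ζ : K, x / y - ζ = (x - ζ * y) / y := fun ζ => by field_simp
  rw [key, key, map_div₀, map_div₀, hb']
  ring

/-- The uniform bound over a number field. -/
theorem main (K : Type) [Field K] [NumberField K] (d : ℕ) (hd : 4 ≤ d) :
    ∃ B : ℕ, ∀ c : K, {x : K | IsPre d c x}.encard ≤ B := by
  obtain ⟨K₁, _, _, φ, ω, hω⟩ := Ext.exists_ext_primitive K d (by omega)
  obtain ⟨B, hB⟩ := main_primitive K₁ hd hω
  exact ⟨B, fun c => (encard_pre_le φ d c).trans (hB _)⟩

/-- The uniform bound for all unicritical polynomials `a (x - b) ^ d + c` whose leading coefficient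
is a `(d - 1)`-th power locally outside `S`. -/
theorem main_unicritical (K : Type) [Field K] [NumberField K] (d : ℕ) (hd : 4 ≤ d)
    (S : Finset (FinitePlace K)) :
    ∃ B : ℕ, ∀ a b c : K, a ≠ 0 →
      (∀ v : FinitePlace K, v ∉ S → ∃ e : K, e ≠ 0 ∧ v a = v e ^ (d - 1)) →
      {x : K | ∃ i j : ℕ, i < j ∧ (fun y : K => a * (y - b) ^ d + c)^[i] x =
        (fun y : K => a * (y - b) ^ d + c)^[j] x}.encard ≤ B := by
  obtain ⟨T, _, hT⟩ := selmer K (d - 1) (by omega) S
  obtain ⟨L, _, _, φ, hu⟩ := Ext.exists_ext_roots K (d - 1) (by omega) T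
  obtain ⟨B, hB⟩ := main L d hd
  refine ⟨B, fun a b c ha0 ha => ?_⟩
  obtain ⟨t, ht, w, hw0, hw⟩ := hT a ha0 ha
  obtain ⟨u, hut⟩ := hu t ht
  set l : L := u * φ w with hl
  have hla : l ^ (d - 1) = φ a := by
    rw [hl, mul_pow, hut, ← map_pow, ← map_mul, ← hw]
  have hl0 : l ≠ 0 := by
    intro h0
    rw [h0, zero_pow (by omega)] at hla
    exact ha0 ((map_eq_zero φ).1 hla.symm)
  have hld : l ^ d = φ a * l := by
    rw [← hla, ← pow_succ, Nat.sub_add_cancel (by omega : 1 ≤ d)]
  set ψ : K → L := fun x => l * (φ x - φ b) with hψ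
  have hinj : Function.Injective ψ := by
    intro x y hxy
    have h1 := mul_left_cancel₀ hl0 hxy
    exact φ.injective (by linear_combination h1)
  have hsemi : ∀ x, ψ (a * (x - b) ^ d + c) = uf d (l * (φ c - φ b)) (ψ x) := by
    intro x
    simp only [hψ, uf, map_add, map_mul, map_pow, map_sub, mul_pow, hld]
    ring
  have hiter : ∀ n x, ψ ((fun y : K => a * (y - b) ^ d + c)^[n] x) =
      (uf d (l * (φ c - φ b)))^[n] (ψ x) := by
    intro n x
    induction n with
    | zero => rfl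
    | succ n ih => rw [Function.iterate_succ_apply', Function.iterate_succ_apply', hsemi, ih]
  refine le_trans ?_ (hB (l * (φ c - φ b)))
  refine Set.encard_le_encard_of_injOn (f := ψ) ?_ hinj.injOn
  rintro x ⟨i, j, hij, hx⟩
  refine isPre_iff.2 ⟨i, j, hij, ?_⟩
  rw [← hiter, ← hiter, hx]

end main

end Pool.Agent.MP90787a.T
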