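import Pool.Agent.Lib.MP_90787a_nt.T.KissSq

set_option autoImplicit false

/-!
The kissing bound for even `d`: from `(t - α)(t - β) = V ^ n (t - γ) ^ 2` one gets a point
`(V, W)` on `W ^ 2 = b V ^ n + a`, and hence a point on a fixed elliptic curve.
-/

namespace Pool.Agent.MP90787a.T

open NumberField Height Real

section algebra

variable {L : Type} [Field L]

/-- The square in the pencil. -/
lemma odd_identity (α β γ t : L) :
    (α - β) ^ 2 * (t - γ) ^ 2 + 4 * (γ - α) * (γ - β) * ((t - α) * (t - β)) =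
      ((2 * γ - α - β) * t - (γ * (α + β) - 2 * α * β)) ^ 2 := by
  ring

lemma pow_sub_pow_prod {n : ℕ} (hn : 0 < n) {ω : L} (hω : IsPrimitiveRoot ω n) (x y : L) :
    x ^ n - y ^ n = ∏ j : Fin n, (x - ω ^ (j : ℕ) * y) := by
  classical
  rw [hω.pow_sub_pow_eq_prod_sub_mul x y hn]
  symm
  rw [← Finset.prod_image (s := Finset.univ) (g := fun j : Fin n => ω ^ (j : ℕ))
    (f := fun ζ => x - ζ * y)]
  · congr 1
    ext ζ
    rw [Polynomial.mem_nthRootsFinset hn]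
    constructor
    · intro h
      obtain ⟨j, _, rfl⟩ := Finset.mem_image.mp h
      rw [← pow_mul, mul_comm, pow_mul, hω.pow_eq_one, one_pow]
    · intro h
      have : NeZero n := ⟨hn.ne'⟩
      obtain ⟨i, hi, rfl⟩ := hω.eq_pow_of_pow_eq_one h
      exact Finset.mem_image.mpr ⟨⟨i, hi⟩, Finset.mem_univ _, rfl⟩
  · intro i _ j _ hij
    exact Fin.ext (hω.pow_inj i.2 j.2 hij)

end algebra

section val

variable {L : Type} [Field L] [NumberField L]

lemma v_pow_lt_one (v : FinitePlace L) {x : L} {m : ℕ} (h : v x ^ m < 1) :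
    v x < 1 := by
  by_contra hcon
  push Not at hcon
  exact absurd h (not_lt.mpr (one_le_pow₀ hcon))

lemma v_root_one (v : FinitePlace L) {n : ℕ} (hn : n ≠ 0) {ω : L} (h : ω ^ n = 1) : v ω = 1 := by
  have h1 : v ω ^ n = 1 := by rw [← map_pow, h, map_one]
  exact (pow_eq_one_iff_of_nonneg (v_nonneg v ω) hn).mp h1

/-- A factor of a unit product of integral factors is a unit. -/
lemma v_prod_unit (v : FinitePlace L) {ι : Type} (s : Finset ι) (g : ι → L)
    (h1 : ∀ i ∈ s, v (g i) ≤ 1) (h : v (∏ i ∈ s, g i) = 1) {i : ι} (hi : i ∈ s) :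
    v (g i) = 1 := by
  classical
  refine le_antisymm (h1 i hi) ?_
  rw [map_prod, ← Finset.mul_prod_erase _ _ hi] at h
  rw [← h]
  refine mul_le_of_le_one_right (v_nonneg v _) ?_
  exact Finset.prod_le_one (fun j _ => v_nonneg v _) fun j hj => h1 j (Finset.mem_of_mem_erase hj)

/-- If a product of integral factors is not a unit then some factor is not a unit. -/
lemma exists_lt_of_prod_lt (v : FinitePlace L) {ι : Type} (s : Finset ι) (g : ι → L)
    (h : v (∏ i ∈ s, g i) < 1) : ∃ i ∈ s, v (g i) < 1 := by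
  classical
  by_contra hcon
  push Not at hcon
  rw [map_prod] at h
  have h1 : ∏ i ∈ s, (1 : ℝ) ≤ ∏ i ∈ s, v (g i) :=
    Finset.prod_le_prod (fun _ _ => zero_le_one) hcon
  rw [Finset.prod_const_one] at h1
  exact absurd h (not_lt.mpr h1)

lemma v_pow_sub (v : FinitePlace L) {x y : L} (hx : v x ≤ 1) (hy : v y ≤ 1) (n : ℕ) :
    v (x ^ n - y ^ n) ≤ v (x - y) := by
  induction n with
  | zero => simp
  | succ n ih =>
    have h1 : x ^ (n + 1) - y ^ (n + 1) = x ^ n * (x - y) + (x ^ n - y ^ n) * y := by ring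
    rw [h1]
    refine (v_add_le v _ _).trans (max_le ?_ ?_)
    · rw [map_mul, map_pow]
      exact mul_le_of_le_one_left (v_nonneg v _) (pow_le_one₀ (v_nonneg v _) hx)
    · rw [map_mul]
      exact (mul_le_of_le_one_right (v_nonneg v _) hy).trans ih

/-- If `x`, `y` are units with `v (x - y) < 1` and `n` is a unit, then
`v (x - y) = v (x ^ n - y ^ n)`. -/
lemma v_pow_sub_eq (v : FinitePlace L) {n : ℕ} (hn : v (n : L) = 1) {x y : L} (hx : v x = 1)
    (hy : v y = 1) (h : v (x - y) < 1) : v (x ^ n - y ^ n) = v (x - y) := by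
  have h1 : ∀ m : ℕ, v ((x ^ m - y ^ m) - (m : L) * y ^ (m - 1) * (x - y)) ≤ v (x - y) ^ 2 := by
    intro m
    induction m with
    | zero => simp
    | succ m ih =>
      rcases Nat.eq_zero_or_pos m with rfl | hm
      · simp
      · have h2 : x ^ (m + 1) - y ^ (m + 1) - ((m + 1 : ℕ) : L) * y ^ (m + 1 - 1) * (x - y) =
            (x ^ m - y ^ m) * (x - y) +
              y * ((x ^ m - y ^ m) - (m : L) * y ^ (m - 1) * (x - y)) := by
          obtain ⟨k, rfl⟩ : ∃ k, m = k + 1 := ⟨m - 1, by omega⟩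
          push_cast
          ring
        rw [h2]
        refine (v_add_le v _ _).trans (max_le ?_ ?_)
        · rw [map_mul, sq]
          exact mul_le_mul_of_nonneg_right (v_pow_sub v hx.le hy.le m) (v_nonneg v _)
        · rw [map_mul, hy, one_mul]
          exact ih
  rcases eq_or_ne (x - y) 0 with h0 | h0
  · have : x = y := sub_eq_zero.mp h0
    subst this
    simp
  have hpos := v_pos v h0
  have h3 : v ((n : L) * y ^ (n - 1) * (x - y)) = v (x - y) := by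
    rw [map_mul, map_mul, map_pow, hn, hy, one_pow, one_mul, one_mul]
  have h4 : v (x - y) ^ 2 < v (x - y) := by
    rw [sq]
    exact mul_lt_of_lt_one_left hpos h
  have h5 : x ^ n - y ^ n = (n : L) * y ^ (n - 1) * (x - y) +
      ((x ^ n - y ^ n) - (n : L) * y ^ (n - 1) * (x - y)) := by ring
  rw [h5, v_add_eq v (by rw [h3]; exact lt_of_le_of_lt (h1 n) h4), h3]

end val

section local_

variable {L : Type} [Field L] [NumberField L]

/-- The local facts about `V` and `w` at a place where `t` is small. -/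
lemma odd_units (v : FinitePlace L) {n : ℕ} (hn : 3 ≤ n) {ω : L} (hω : IsPrimitiveRoot ω n)
    {α β γ ρ t V w : L} (h2 : v (2 : L) = 1) (hα : v α = 1) (hβ : v β = 1) (hγ : v γ = 1)
    (hγα : v (γ - α) = 1) (hγβ : v (γ - β) = 1)
    (hM : v (γ * (α + β) - 2 * α * β) = 1) (hρv : v ρ = 1)
    (hρ : 4 * (γ - α) * (γ - β) * ρ ^ n = -(α - β) ^ 2) (ht : v t < 1)
    (hV : (t - α) * (t - β) = V ^ n * (t - γ) ^ 2)
    (hw : (V - ρ) * (V - ω * ρ) * (V - ω ^ 2 * ρ) = w ^ 2) :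
    v V = 1 ∧ v w = 1 := by
  classical
  have hn0 : n ≠ 0 := by omega
  have hsub : ∀ (b : L), v b = 1 → v (t - b) = 1 := by
    intro b hb
    rw [v_sub_comm, v_sub_eq v (by rw [hb]; exact ht), hb]
  have hVn : v V ^ n = 1 := by
    have h4 := congrArg v hV
    rw [map_mul, map_mul, map_pow, map_pow, hsub α hα, hsub β hβ, hsub γ hγ, one_pow, mul_one,
      mul_one] at h4
    exact h4.symm
  have hVv : v V = 1 := (pow_eq_one_iff_of_nonneg (v_nonneg v V) hn0).mp hVn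
  refine ⟨hVv, ?_⟩
  have h4 : v (4 * (γ - α) * (γ - β)) = 1 := by
    rw [show (4 : L) = 2 * 2 by norm_num, map_mul, map_mul, map_mul, h2, hγα, hγβ]
    norm_num
  -- the product of all factors is a unit
  have hprod : v (V ^ n - ρ ^ n) = 1 := by
    have h5 : 4 * (γ - α) * (γ - β) * (V ^ n - ρ ^ n) * (t - γ) ^ 2 =
        ((2 * γ - α - β) * t - (γ * (α + β) - 2 * α * β)) ^ 2 := by
      rw [← odd_identity]
      linear_combination (-4 * (γ - α) * (γ - β)) * hV - (t - γ) ^ 2 * hρ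
    have h6 : v ((2 * γ - α - β) * t - (γ * (α + β) - 2 * α * β)) = 1 := by
      rw [v_sub_comm, v_sub_eq v, hM]
      rw [hM, mul_comm]
      refine lt1_mul v ht (le1_sub v (le1_sub v (le1_mul v h2.le hγ.le) hα.le) hβ.le)
    have h7 := congrArg v h5
    rw [map_mul, map_mul, h4, map_pow, map_pow, hsub γ hγ, h6] at h7
    simpa using h7
  rw [pow_sub_pow_prod (by omega) hω] at hprod
  have hle : ∀ j ∈ (Finset.univ : Finset (Fin n)), v (V - ω ^ (j : ℕ) * ρ) ≤ 1 := by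
    intro j _
    refine le1_sub v hVv.le ?_
    rw [map_mul, map_pow, v_root_one v hn0 hω.pow_eq_one, one_pow, one_mul, hρv]
  have hu : ∀ j : Fin n, v (V - ω ^ (j : ℕ) * ρ) = 1 := fun j =>
    v_prod_unit v _ _ hle hprod (Finset.mem_univ j)
  have u0 := hu ⟨0, by omega⟩
  have u1 := hu ⟨1, by omega⟩
  have u2 := hu ⟨2, by omega⟩
  simp only [pow_zero, one_mul, pow_one] at u0 u1 u2
  have h8 := congrArg v hw
  rw [map_mul, map_mul, u0, u1, u2, map_pow, one_mul, one_mul] at h8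
  exact (pow_eq_one_iff_of_nonneg (v_nonneg v w) two_ne_zero).mp h8.symm

/-- `V ^ n` is close to a constant. -/
lemma odd_close (v : FinitePlace L) {n : ℕ} {α β γ t V t' V' : L} {r : ℝ}
    (hα : v α = 1) (hβ : v β = 1) (hγ : v γ = 1) (ht : v t < 1) (ht' : v t' < 1)
    (hr : v t ^ 2 ≤ r) (hr' : v t' ^ 2 ≤ r)
    (hV : (t - α) * (t - β) = V ^ n * (t - γ) ^ 2)
    (hV' : (t' - α) * (t' - β) = V' ^ n * (t' - γ) ^ 2) :
    v (V ^ n - V' ^ n) ^ 2 ≤ r := by
  have hsub : ∀ (b t : L), v b = 1 → v t < 1 → v (t - b) = 1 := by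
    intro b t hb ht
    rw [v_sub_comm, v_sub_eq v (by rw [hb]; exact ht), hb]
  have h1 : (V ^ n - V' ^ n) * ((t - γ) ^ 2 * (t' - γ) ^ 2) = (t' - t) *
      ((2 * γ - α - β) * (t - γ) * (t' - γ) + (γ - α) * (γ - β) * (t + t' - 2 * γ)) := by
    linear_combination (-(t' - γ) ^ 2) * hV + (t - γ) ^ 2 * hV'
  have h2 := congrArg v h1
  have hc : v ((2 * γ - α - β) * (t - γ) * (t' - γ) +
      (γ - α) * (γ - β) * (t + t' - 2 * γ)) ≤ 1 := by
    have e2 : v (2 : L) ≤ 1 := by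
      have := le1_add v (a := (1 : L)) (b := 1) (by simp) (by simp)
      rwa [one_add_one_eq_two] at this
    have eg : v (2 * γ) ≤ 1 := le1_mul v e2 hγ.le
    refine le1_add v (le1_mul v (le1_mul v (le1_sub v (le1_sub v eg hα.le) hβ.le) ?_) ?_)
      (le1_mul v (le1_mul v ?_ ?_) (le1_sub v (le1_add v ht.le ht'.le) eg))
    · exact le1_sub v ht.le hγ.le
    · exact le1_sub v ht'.le hγ.le
    · exact le1_sub v hγ.le hα.le
    · exact le1_sub v hγ.le hβ.le
  rw [map_mul, map_mul, map_pow, map_pow, hsub γ t hγ ht, hsub γ t' hγ ht', one_pow, mul_one,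
    mul_one, map_mul] at h2
  have h3 : v (V ^ n - V' ^ n) ≤ v (t' - t) := by
    rw [h2]
    exact mul_le_of_le_one_right (v_nonneg v _) hc
  refine (pow_le_pow_left₀ (v_nonneg v _) h3 2).trans ?_
  rcases le_max_iff.mp (v_sub_le v t' t) with h4 | h4
  · exact (pow_le_pow_left₀ (v_nonneg v _) h4 2).trans hr'
  · exact (pow_le_pow_left₀ (v_nonneg v _) h4 2).trans hr

/-- Two units with close `n`-th powers are congruent up to a root of unity. -/
lemma exists_class (v : FinitePlace L) {n : ℕ} (hn : 0 < n) {ω : L} (hω : IsPrimitiveRoot ω n)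
    {V V' : L} (h : v (V ^ n - V' ^ n) < 1) : ∃ j : Fin n, v (V - ω ^ (j : ℕ) * V') < 1 := by
  rw [pow_sub_pow_prod hn hω] at h
  obtain ⟨j, _, hj⟩ := exists_lt_of_prod_lt v _ _ h
  exact ⟨j, hj⟩

/-- The data of a point. -/
def ORel (n : ℕ) (ω ρ α β γ t : L) (P : (WE ρ (ω * ρ) (ω ^ 2 * ρ)).toAffine.Point) : Prop :=
  ∃ V w : L, w ≠ 0 ∧ (t - α) * (t - β) = V ^ n * (t - γ) ^ 2 ∧
    (V - ρ) * (V - ω * ρ) * (V - ω ^ 2 * ρ) = w ^ 2 ∧
    ∃ h, P = WeierstrassCurve.Affine.Point.some V w h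

/-- The local estimate for two of `2 n + 1` points. -/
lemma orel_local [DecidableEq L] (v : FinitePlace L) {n : ℕ} (hn : 3 ≤ n) {ω : L}
    (hω : IsPrimitiveRoot ω n) {α β γ ρ : L} (h2 : v (2 : L) = 1) (hnv : v (n : L) = 1)
    (hα : v α = 1) (hβ : v β = 1) (hγ : v γ = 1)
    (hγα : v (γ - α) = 1) (hγβ : v (γ - β) = 1)
    (hM : v (γ * (α + β) - 2 * α * β) = 1) (hρv : v ρ = 1)
    (hρ : 4 * (γ - α) * (γ - β) * ρ ^ n = -(α - β) ^ 2) {r : ℝ} (hr : r < 1)
    {B : Finset (WE ρ (ω * ρ) (ω ^ 2 * ρ)).toAffine.Point} (hB : B.card = 2 * n + 1)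
    (hP : ∀ P ∈ B, ∃ t : L, v t ^ 2 ≤ r ∧ ORel n ω ρ α β γ t P) :
    ∃ P ∈ B, ∃ Q ∈ B, -Real.log r ≤ psi v (P - Q) := by
  classical
  have hn0 : n ≠ 0 := by omega
  choose! t htr V w hw hV hc hns hPe using hP
  have ht1 : ∀ P ∈ B, v (t P) < 1 := by
    intro P hP
    by_contra hcon
    push Not at hcon
    have := one_le_pow₀ hcon (n := 2)
    linarith [htr P hP]
  have hu : ∀ P ∈ B, v (V P) = 1 ∧ v (w P) = 1 := fun P hP =>
    odd_units v hn hω h2 hα hβ hγ hγα hγβ hM hρv hρ (ht1 P hP) (hV P hP) (hc P hP)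
  have hVn : ∀ P ∈ B, ∀ Q ∈ B, v (V P ^ n - V Q ^ n) ^ 2 ≤ r := fun P hP Q hQ =>
    odd_close v hα hβ hγ (ht1 P hP) (ht1 Q hQ) (htr P hP) (htr Q hQ) (hV P hP) (hV Q hQ)
  have hVn1 : ∀ P ∈ B, ∀ Q ∈ B, v (V P ^ n - V Q ^ n) < 1 := fun P hP Q hQ =>
    v_pow_lt_one v (m := 2) (lt_of_le_of_lt (hVn P hP Q hQ) hr)
  have hne : B.Nonempty := by
    rw [← Finset.card_pos]
    omega
  obtain ⟨P₀, hP₀⟩ := hne
  have hcl : ∀ P ∈ B, ∃ j : Fin n, v (V P - ω ^ (j : ℕ) * V P₀) < 1 := fun P hP =>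
    exists_class v (by omega) hω (hVn1 P hP P₀ hP₀)
  have : NeZero n := ⟨hn0⟩
  choose! cl hclass using hcl
  obtain ⟨j, -, hj⟩ := Finset.exists_lt_card_fiber_of_mul_lt_card_of_maps_to (s := B)
    (t := (Finset.univ : Finset (Fin n))) (f := cl) (n := 2) (fun P _ => Finset.mem_univ _)
    (by rw [Finset.card_univ, Fintype.card_fin, hB]; omega)
  obtain ⟨P₁, P₂, P₃, m1, m2, m3, h12, h13, h23⟩ := Finset.two_lt_card_iff.mp hj
  rw [Finset.mem_filter] at m1 m2 m3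
  have hVV : ∀ P ∈ B, ∀ Q ∈ B, cl P = j → cl Q = j → v (V P - V Q) < 1 := by
    intro P hP Q hQ e1 e2
    have e3 := hclass P hP
    have e4 := hclass Q hQ
    rw [e1] at e3
    rw [e2] at e4
    have : V P - V Q = (V P - ω ^ (j : ℕ) * V P₀) - (V Q - ω ^ (j : ℕ) * V P₀) := by ring
    rw [this]
    exact lt1_sub v e3 e4
  have hωv : v ω = 1 := v_root_one v hn0 hω.pow_eq_one
  have he₁ : v ρ ≤ 1 := hρv.le
  have he₂ : v (ω * ρ) ≤ 1 := le1_mul v hωv.le hρv.le
  have he₃ : v (ω ^ 2 * ρ) ≤ 1 := le1_mul v (by rw [map_pow, hωv, one_pow]) hρv.le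
  have hpair : ∀ P ∈ B, ∀ Q ∈ B, cl P = j → cl Q = j →
      v (w P - w Q) < 1 ∨ v (w P + w Q) < 1 := fun P hP Q hQ e1 e2 =>
    sq_pair v (hc P hP).symm (hc Q hQ).symm he₁ he₂ he₃ (hu P hP).1.le (hu Q hQ).1.le
      (hVV P hP Q hQ e1 e2)
  have hfin : ∀ P ∈ B, ∀ Q ∈ B, cl P = j → cl Q = j → P ≠ Q → v (w P - w Q) < 1 →
      -Real.log r ≤ psi v (P - Q) := by
    intro P hP Q hQ e1 e2 hPQ hY
    have hclose : v (V P - V Q) ^ 2 ≤ r := by
      rw [← v_pow_sub_eq v hnv (hu P hP).1 (hu Q hQ).1 (hVV P hP Q hQ e1 e2)]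
      exact hVn P hP Q hQ
    have hsum : v (w P + w Q) = 1 := v_sum_eq_one v h2 (hu P hP).2 hY
    have hX : V P ≠ V Q := by
      intro hX
      have h5 : (w P - w Q) * (w P + w Q) = 0 := by
        have h6 := hc P hP
        rw [hX, hc Q hQ] at h6
        linear_combination -h6
      rcases mul_eq_zero.mp h5 with h6 | h6
      · apply hPQ
        rw [hPe P hP, hPe Q hQ]
        simp only [WeierstrassCurve.Affine.Point.some.injEq]
        exact ⟨hX, sub_eq_zero.mp h6⟩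
      · rw [h6, map_zero] at hsum
        exact zero_ne_one hsum
    rw [hPe P hP, hPe Q hQ]
    exact psi_ge v (hns P hP) (hns Q hQ) hX hclose hr hsum
      (le1_add v (le1_add v he₁ he₂) he₃) (hu P hP).1.le (hu Q hQ).1.le
  rcases sq_three v (hpair P₁ m1.1 P₂ m2.1 m1.2 m2.2) (hpair P₁ m1.1 P₃ m3.1 m1.2 m3.2)
    with h | h | h
  · exact ⟨P₁, m1.1, P₂, m2.1, hfin P₁ m1.1 P₂ m2.1 m1.2 m2.2 h12 h⟩
  · exact ⟨P₁, m1.1, P₃, m3.1, hfin P₁ m1.1 P₃ m3.1 m1.2 m3.2 h13 h⟩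
  · exact ⟨P₂, m2.1, P₃, m3.1, hfin P₂ m2.1 P₃ m3.1 m2.2 m3.2 h23 h⟩

end local_

section main

variable {L : Type} [Field L] [NumberField L]

omit [NumberField L] in
lemma odd_fibre [DecidableEq L] {n : ℕ} {ω ρ α β γ : L} (hγα : γ - α ≠ 0) (hγβ : γ - β ≠ 0)
    (A : Finset L) (P : (WE ρ (ω * ρ) (ω ^ 2 * ρ)).toAffine.Point)
    (hA : ∀ t ∈ A, ORel n ω ρ α β γ t P) : A.card ≤ 2 := by
  classical
  rcases A.eq_empty_or_nonempty with rfl | ⟨t₀, ht₀⟩
  · simp
  obtain ⟨V₀, w₀, _, _, _, _, h₀⟩ := hA t₀ ht₀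
  set p : Polynomial L := (Polynomial.X - Polynomial.C α) * (Polynomial.X - Polynomial.C β) -
    Polynomial.C (V₀ ^ n) * (Polynomial.X - Polynomial.C γ) ^ 2 with hp
  have hp0 : p ≠ 0 := by
    intro h
    have h1 := congrArg (Polynomial.eval γ) h
    rw [hp] at h1
    simp only [Polynomial.eval_sub, Polynomial.eval_mul, Polynomial.eval_X, Polynomial.eval_C,
      Polynomial.eval_pow, sub_self, Polynomial.eval_zero] at h1
    apply mul_ne_zero hγα hγβ
    linear_combination h1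
  have hdeg : p.natDegree ≤ 2 := by
    rw [hp]
    compute_degree
  have hsub : A ⊆ p.roots.toFinset := by
    intro t ht
    obtain ⟨V, w, _, hV, _, _, h⟩ := hA t ht
    rw [h₀, WeierstrassCurve.Affine.Point.some.injEq] at h
    rw [Multiset.mem_toFinset, Polynomial.mem_roots hp0, Polynomial.IsRoot.def, hp]
    simp only [Polynomial.eval_sub, Polynomial.eval_mul, Polynomial.eval_X, Polynomial.eval_C,
      Polynomial.eval_pow]
    rw [hV, h.1, sub_self]
  exact (Finset.card_le_card hsub).trans ((Multiset.toFinset_card_le _).trans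
    ((Polynomial.card_roots' p).trans hdeg))

/-- The kissing bound for even `d`. -/
theorem kiss_odd {L : Type} [Field L] [NumberField L] [DecidableEq L]
    (hcov : ∀ e₁ e₂ e₃ : L, e₁ ≠ e₂ → e₁ ≠ e₃ → e₂ ≠ e₃ → CoverProp e₁ e₂ e₃)
    (n : ℕ) (hn : 3 ≤ n) (ω : L) (hω : IsPrimitiveRoot ω n) (α β γ ρ : L)
    (hα : α ≠ 0) (hβ : β ≠ 0) (hγ : γ ≠ 0) (hαβ : α ≠ β) (hγα : γ ≠ α) (hγβ : γ ≠ β)
    (hM : γ * (α + β) ≠ 2 * α * β)
    (hρ : 4 * (γ - α) * (γ - β) * ρ ^ n = -(α - β) ^ 2) :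
    Kiss L {t | t ≠ 0 ∧ ∃ V w : L, w ≠ 0 ∧ (t - α) * (t - β) = V ^ n * (t - γ) ^ 2 ∧
      (V - ρ) * (V - ω * ρ) * (V - ω ^ 2 * ρ) = w ^ 2} := by
  classical
  have hn0 : n ≠ 0 := by omega
  have nγα : γ - α ≠ 0 := sub_ne_zero.mpr hγα
  have nγβ : γ - β ≠ 0 := sub_ne_zero.mpr hγβ
  have nM : γ * (α + β) - 2 * α * β ≠ 0 := sub_ne_zero.mpr hM
  have nρ : ρ ≠ 0 := by
    rintro rfl
    rw [zero_pow hn0, mul_zero] at hρ
    have := pow_ne_zero 2 (sub_ne_zero.mpr hαβ)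
    apply this
    linear_combination hρ
  have hωne : ∀ i j : ℕ, i < n → j < n → i ≠ j → ω ^ i * ρ ≠ ω ^ j * ρ := by
    intro i j hi hj hij h
    exact hij (hω.pow_inj hi hj (mul_right_cancel₀ nρ h))
  have n01 : ρ ≠ ω * ρ := by simpa using hωne 0 1 (by omega) (by omega) (by omega)
  have n02 : ρ ≠ ω ^ 2 * ρ := by simpa using hωne 0 2 (by omega) (by omega) (by omega)
  have n12 : ω * ρ ≠ ω ^ 2 * ρ := by simpa using hωne 1 2 (by omega) (by omega) (by omega)
  have hnL : (n : L) ≠ 0 := Nat.cast_ne_zero.mpr hn0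
  obtain ⟨S, hS⟩ := UBC90787a.exists_finset_places
    ({2, (n : L), α, β, γ, γ - α, γ - β, γ * (α + β) - 2 * α * β, ρ} : Finset L)
  refine ⟨S, fun κ C₁ hκ => ?_⟩
  set c : ℝ := logHeight₁ α + logHeight₁ β + 2 * logHeight₁ γ +
    4 * (totalWeight L * Real.log 2) with hc
  have hlog : 0 ≤ totalWeight L * Real.log 2 :=
    mul_nonneg (Nat.cast_nonneg _) (Real.log_nonneg (by norm_num))
  have hc0 : 0 ≤ c := by
    have h1 := zero_le_logHeight₁ α
    have h2 := zero_le_logHeight₁ β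
    have h3 := zero_le_logHeight₁ γ
    rw [hc]
    linarith
  have hC : 0 < 4 * |C₁| + c + 1 := by positivity
  obtain ⟨m, hm⟩ : ∃ m : ℝ, m = ((2 * n + 1 : ℕ) : ℝ) ^ 2 := ⟨_, rfl⟩
  have hm1 : 0 < m := by rw [hm]; positivity
  have hδ : 0 < κ / (2 * m * (4 * |C₁| + c + 1)) := by positivity
  obtain ⟨N, M₀, hN⟩ := hcov ρ (ω * ρ) (ω ^ 2 * ρ) n01 n02 n12 _ (2 * n + 1) hδ
  refine ⟨2 * N, max 1 M₀, fun H hH x₀ A F hF hsum hA => ?_⟩
  by_contra hcard
  push Not at hcard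
  have hH1 : 1 ≤ H := (le_max_left _ _).trans hH
  have hHM : M₀ ≤ H := (le_max_right _ _).trans hH
  have hex : ∀ t ∈ A, ∃ P, ORel n ω ρ α β γ t P := by
    intro t ht
    obtain ⟨⟨_, V, w, hw, hV, hc⟩, _, _⟩ := hA t ht
    exact ⟨_, V, w, hw, hV, hc, WE_nonsing hc.symm hw, rfl⟩
  choose! φ hφ using hex
  have hcardim : N < (A.image φ).card := by
    have h1 : A.card ≤ 2 * (A.image φ).card := by
      refine Finset.card_le_mul_card_image A 2 fun P _ => ?_
      refine odd_fibre (n := n) (ω := ω) (ρ := ρ) (α := α) (β := β) (γ := γ) nγα nγβ _ P ?_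
      intro t ht
      rw [Finset.mem_filter] at ht
      have := hφ t ht.1
      rwa [ht.2] at this
    omega
  have hM : M₀ ≤ (4 * |C₁| + c + 1) * H := by
    have : 1 * H ≤ (4 * |C₁| + c + 1) * H := by
      apply mul_le_mul_of_nonneg_right _ (by linarith)
      have := abs_nonneg C₁
      linarith
    linarith
  have hht : ∀ P ∈ A.image φ, nh P ≤ (4 * |C₁| + c + 1) * H := by
    intro P hP
    obtain ⟨t, ht, rfl⟩ := Finset.mem_image.mp hP
    obtain ⟨V, w, hw, hV, hc', hns, h2⟩ := hφ t ht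
    rw [h2, nh_some]
    have htγ : t - γ ≠ 0 := by
      intro h0
      have h1 : t = γ := sub_eq_zero.mp h0
      rw [h0, h1] at hV
      apply mul_ne_zero nγα nγβ
      rw [hV]
      simp
    have hVe : V ^ n = (t - α) * (t - β) * ((t - γ)⁻¹) ^ 2 := by
      rw [hV]
      field_simp
    have h3 : logHeight₁ V ≤ logHeight₁ (V ^ n) := by
      rw [logHeight₁_pow]
      have h4 := zero_le_logHeight₁ V
      have h5 : (1 : ℝ) ≤ (n : ℝ) := by exact_mod_cast (by omega : 1 ≤ n)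
      nlinarith
    have h4 : logHeight₁ (V ^ n) ≤ logHeight₁ (t - α) + logHeight₁ (t - β) +
        2 * logHeight₁ (t - γ) := by
      rw [hVe]
      refine (logHeight₁_mul_le _ _).trans ?_
      have h5 := logHeight₁_mul_le (t - α) (t - β)
      rw [logHeight₁_pow, logHeight₁_inv]
      push_cast
      linarith
    have h5 := logHeight₁_sub_le t α
    have h6 := logHeight₁_sub_le t β
    have h7 := logHeight₁_sub_le t γ
    have h8 := (hA t ht).2.1
    have h9 : C₁ * H ≤ |C₁| * H := mul_le_mul_of_nonneg_right (le_abs_self _) (by linarith)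
    have h10 : c * 1 ≤ c * H := mul_le_mul_of_nonneg_left hH1 hc0
    nlinarith
  obtain ⟨B, hBA, hB3, hB⟩ := hN _ hM (A.image φ) hht hcardim
  have hmem : ∀ P ∈ B, ∃ t ∈ A, φ t = P := fun P hP => Finset.mem_image.mp (hBA hP)
  have hkc := kiss_count B F (fun v => -Real.log (v x₀))
    (κ / (2 * m * (4 * |C₁| + c + 1)) * ((4 * |C₁| + c + 1) * H)) (fun v hv => ?_) hB
  · rw [hB3, ← hm] at hkc
    have h8 : m * (κ / (2 * m * (4 * |C₁| + c + 1)) * ((4 * |C₁| + c + 1) * H)) =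
        κ / 2 * H := by
      field_simp
    rw [h8] at hkc
    have h9 : 0 < κ * H := by positivity
    nlinarith
  · obtain ⟨hvS, hvx⟩ := hF v hv
    have hg := hS v hvS
    refine orel_local v hn hω (hg 2 (by simp) two_ne_zero) (hg _ (by simp) hnL)
      (hg α (by simp) hα) (hg β (by simp) hβ) (hg γ (by simp) hγ) (hg _ (by simp) nγα)
      (hg _ (by simp) nγβ) (hg _ (by simp) nM) (hg ρ (by simp) nρ) hρ hvx hB3 ?_
    intro P hP
    obtain ⟨t, ht, rfl⟩ := hmem P hP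
    exact ⟨t, (hA t ht).2.2 v hv, hφ t ht⟩

end main

section selmer

variable {L : Type} [Field L] [NumberField L]

/-- Outside a finite set of places the product of three of the factors of `W ^ 2` is a square
valuation. -/
theorem odd_sel (n : ℕ) (hn : 3 ≤ n) (hodd : Odd n) (ω : L) (hω : IsPrimitiveRoot ω n)
    (b ρ : L) (hb : b ≠ 0) (hρ0 : ρ ≠ 0) :
    ∃ S : Finset (FinitePlace L), ∀ V W : L, W ≠ 0 → b * (V ^ n - ρ ^ n) = W ^ 2 →
      (V - ρ) * (V - ω * ρ) * (V - ω ^ 2 * ρ) ≠ 0 ∧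
      ∀ v : FinitePlace L, v ∉ S →
        ∃ z : L, z ≠ 0 ∧ v ((V - ρ) * (V - ω * ρ) * (V - ω ^ 2 * ρ)) = v z ^ 2 := by
  classical
  have hn0 : n ≠ 0 := by omega
  have hne : NeZero n := ⟨hn0⟩
  have hnL : (n : L) ≠ 0 := Nat.cast_ne_zero.mpr hn0
  set Z : Finset L := insert b (insert ρ ((Finset.univ : Finset (Fin n × Fin n)).image
    fun p => ω ^ (p.1 : ℕ) - ω ^ (p.2 : ℕ))) with hZ
  obtain ⟨S, hS⟩ := UBC90787a.exists_finset_places Z
  refine ⟨S, fun V W hW hVW => ?_⟩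
  have hprod := pow_sub_pow_prod (by omega : 0 < n) hω V ρ
  have hfac : ∀ j : Fin n, V - ω ^ (j : ℕ) * ρ ≠ 0 := by
    intro j hj
    apply hW
    have h1 : V ^ n - ρ ^ n = 0 := by
      rw [hprod]
      exact Finset.prod_eq_zero (Finset.mem_univ j) hj
    rw [h1, mul_zero] at hVW
    exact pow_eq_zero_iff two_ne_zero |>.mp hVW.symm
  have f0 := hfac ⟨0, by omega⟩
  have f1 := hfac ⟨1, by omega⟩
  have f2 := hfac ⟨2, by omega⟩
  simp only [pow_zero, one_mul, pow_one] at f0 f1 f2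
  refine ⟨mul_ne_zero (mul_ne_zero f0 f1) f2, fun v hv => ?_⟩
  have hg := hS v hv
  have hbv : v b = 1 := hg b (by rw [hZ]; simp) hb
  have hρv : v ρ = 1 := hg ρ (by rw [hZ]; simp) hρ0
  have hωv : v ω = 1 := v_root_one v hn0 hω.pow_eq_one
  have hωρ : ∀ j : ℕ, v (ω ^ j * ρ) = 1 := by
    intro j
    rw [map_mul, map_pow, hωv, one_pow, hρv, one_mul]
  have hvW : ∏ j : Fin n, v (V - ω ^ (j : ℕ) * ρ) = v W ^ 2 := by
    have h1 := congrArg v hVW
    rw [map_mul, hbv, one_mul, map_pow, hprod, map_prod] at h1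
    exact h1
  rcases lt_or_ge 1 (v V) with hV | hV
  · have h1 : ∀ j : ℕ, v (V - ω ^ j * ρ) = v V := fun j =>
      v_sub_eq v (by rw [hωρ]; exact hV)
    have h2 : v V ^ n = v W ^ 2 := by
      rw [← hvW, Finset.prod_congr rfl fun j _ => h1 _, Finset.prod_const, Finset.card_univ,
        Fintype.card_fin]
    obtain ⟨m, hm⟩ := hodd
    have hV0 : V ≠ 0 := by
      rintro rfl
      rw [map_zero] at hV
      exact absurd hV (by norm_num)
    have hvV : v V ≠ 0 := (v_pos v hV0).ne'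
    refine ⟨V * (W / V ^ m), mul_ne_zero hV0 (div_ne_zero hW (pow_ne_zero _ hV0)), ?_⟩
    have e0 := h1 0
    have e1 := h1 1
    have e2 := h1 2
    simp only [pow_zero, one_mul, pow_one] at e0 e1 e2
    rw [map_mul, map_mul, e0, e1, e2, map_mul, map_div₀, map_pow, mul_pow, div_pow, ← h2, hm]
    rw [← pow_mul]
    field_simp
    ring
  · have hle : ∀ j : Fin n, v (V - ω ^ (j : ℕ) * ρ) ≤ 1 := fun j =>
      le1_sub v hV (hωρ _).le
    -- at most one factor is not a unit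
    have hone : ∀ i j : Fin n, i ≠ j → v (V - ω ^ (i : ℕ) * ρ) < 1 →
        v (V - ω ^ (j : ℕ) * ρ) = 1 := by
      intro i j hij hi
      have hd : ω ^ (i : ℕ) - ω ^ (j : ℕ) ≠ 0 := by
        intro h
        exact hij (Fin.ext (hω.pow_inj i.2 j.2 (sub_eq_zero.mp h)))
      have hu : v (ω ^ (i : ℕ) - ω ^ (j : ℕ)) = 1 := by
        refine hg _ ?_ hd
        rw [hZ]
        simp only [Finset.mem_insert, Finset.mem_image, Finset.mem_univ, true_and]
        exact Or.inr (Or.inr ⟨(i, j), rfl⟩)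
      have h1 : V - ω ^ (j : ℕ) * ρ = (ω ^ (i : ℕ) - ω ^ (j : ℕ)) * ρ +
          (V - ω ^ (i : ℕ) * ρ) := by ring
      have h2 : v ((ω ^ (i : ℕ) - ω ^ (j : ℕ)) * ρ) = 1 := by
        rw [map_mul, hu, hρv, one_mul]
      rw [h1, v_add_eq v (by rw [h2]; exact hi), h2]
    have hsq : ∀ j : Fin n, v (V - ω ^ (j : ℕ) * ρ) < 1 →
        v (V - ω ^ (j : ℕ) * ρ) = v W ^ 2 := by
      intro j hj
      rw [← hvW, ← Finset.mul_prod_erase _ _ (Finset.mem_univ j), Finset.prod_eq_one, mul_one]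
      intro i hi
      exact hone j i (Finset.ne_of_mem_erase hi).symm hj
    have hdich : ∀ j : Fin n, v (V - ω ^ (j : ℕ) * ρ) = 1 ∨ v (V - ω ^ (j : ℕ) * ρ) < 1 :=
      fun j => (lt_or_eq_of_le (hle j)).symm
    have d0 := hdich ⟨0, by omega⟩
    have d1 := hdich ⟨1, by omega⟩
    have d2 := hdich ⟨2, by omega⟩
    have q0 := hsq ⟨0, by omega⟩
    have q1 := hsq ⟨1, by omega⟩
    have q2 := hsq ⟨2, by omega⟩
    have o01 := hone ⟨0, by omega⟩ ⟨1, by omega⟩ (by simp [Fin.ext_iff])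
    have o02 := hone ⟨0, by omega⟩ ⟨2, by omega⟩ (by simp [Fin.ext_iff])
    have o10 := hone ⟨1, by omega⟩ ⟨0, by omega⟩ (by simp [Fin.ext_iff])
    have o12 := hone ⟨1, by omega⟩ ⟨2, by omega⟩ (by simp [Fin.ext_iff])
    simp only [pow_zero, one_mul, pow_one] at d0 d1 d2 q0 q1 q2 o01 o02 o10 o12
    rw [map_mul, map_mul]
    rcases d0 with h0 | h0
    · rcases d1 with h1 | h1
      · rcases d2 with h2 | h2
        · exact ⟨1, one_ne_zero, by rw [h0, h1, h2]; simp⟩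
        · exact ⟨W, hW, by rw [h0, h1, q2 h2]; simp⟩
      · exact ⟨W, hW, by rw [h0, q1 h1, o12 h1]; simp⟩
    · exact ⟨W, hW, by rw [q0 h0, o01 h0, o02 h0]; simp⟩

end selmer

end Pool.Agent.MP90787a.T
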